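import Pool.Agent.NbS.Defs

/-!
# Permutations
-/

set_option autoImplicit false

namespace Pool.Agent.NbS

open Equiv

-- BEGIN cent_cp
theorem cent_cp_nodup {l : List ℕ} (h2 : ∀ a ∈ l, 2 ≤ a) (hc : l.Pairwise Nat.Coprime) : l.Nodup := by
  refine List.Pairwise.imp_of_mem ?_ hc
  intro a b ha _ hab e
  subst e
  have h1 : a = 1 := (Nat.coprime_self a).1 hab
  have := h2 a ha
  omega

theorem cent_cp_lcm : ∀ {l : List ℕ}, l.Pairwise Nat.Coprime → ((l : List ℕ) : Multiset ℕ).lcm = l.prod
  | [], _ => by simp
  | a :: l, h => by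
    have h' := List.pairwise_cons.1 h
    rw [← Multiset.cons_coe, Multiset.lcm_cons, cent_cp_lcm h'.2, List.prod_cons, lcm_eq_nat_lcm]
    exact Nat.Coprime.lcm_eq_mul (Nat.coprime_list_prod_right_iff.2 h'.1)

/-- PROOF. `Equiv.Perm.nat_card_centralizer` (the parts are distinct, because they are pairwise coprime and `≥ 2`, so all counts are `1`), `Equiv.Perm.lcm_cycleType` (the least common
multiple of pairwise coprime numbers is the product; induction on `l`). -/
theorem cent_cp {n f : ℕ} {l : List ℕ} (h : Cp n f l) {σ : Perm (Fin n)} (hσ : σ.cycleType = (l : Multiset ℕ)) :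
    Nat.card (Subgroup.centralizer {σ}) = f.factorial * l.prod ∧ orderOf σ = l.prod := by
  have hnd : (l : Multiset ℕ).Nodup := Multiset.coe_nodup.2 (cent_cp_nodup h.two h.cop)
  constructor
  · rw [Equiv.Perm.nat_card_centralizer, hσ, Fintype.card_fin, Multiset.sum_coe, Multiset.prod_coe]
    have h1 : n - l.sum = f := by have := h.sum; omega
    have h2 : ∏ m ∈ (l : Multiset ℕ).toFinset, ((l : Multiset ℕ).count m).factorial = 1 := by
      refine Finset.prod_eq_one fun m hm => ?_
      rw [Multiset.count_eq_one_of_mem hnd (Multiset.mem_toFinset.1 hm), Nat.factorial_one]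
    rw [h1, h2, mul_one]
  · rw [← Equiv.Perm.lcm_cycleType, hσ]
    exact cent_cp_lcm h.cop
-- END cent_cp

-- BEGIN ct_pow
private theorem ct_pow_cycle {n : ℕ} (σ : Perm (Fin n)) (hσ : σ.IsCycle) (m : ℕ) :
    (σ ^ m).cycleType = pw m σ.cycleType := by
  have ho : orderOf σ = σ.support.card := hσ.orderOf
  have ha2 : 2 ≤ σ.support.card := hσ.two_le_card_support
  rw [hσ.cycleType]
  have hpw : pw m ((↑[σ.support.card] : Multiset ℕ)) = if Nat.gcd σ.support.card m = σ.support.card then 0
      else Multiset.replicate (Nat.gcd σ.support.card m) (σ.support.card / Nat.gcd σ.support.card m) := by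
    unfold pw
    rw [Multiset.coe_singleton, Multiset.singleton_bind]
  rw [← Multiset.coe_singleton, hpw]
  have hfix : ∀ (x : Fin n) (k : ℕ), σ x ≠ x → ((σ ^ k) x = x ↔ σ.support.card ∣ k) := by
    intro x k hx
    constructor
    · intro h
      have h1 : σ ^ k = 1 := hσ.pow_eq_one_iff.2 ⟨x, hx, h⟩
      rw [← ho]
      exact orderOf_dvd_of_pow_eq_one h1
    · intro h
      rw [← ho] at h
      rw [orderOf_dvd_iff_pow_eq_one.1 h]; rfl
  split_ifs with hg
  · have h1 : σ.support.card ∣ m := Nat.gcd_eq_left_iff_dvd.1 hg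
    rw [← ho] at h1
    rw [orderOf_dvd_iff_pow_eq_one.1 h1, Perm.cycleType_one]
  · have hnd : ¬ σ.support.card ∣ m := fun h => hg (Nat.gcd_eq_left h)
    set a := σ.support.card with ha
    set d := Nat.gcd a m with hd
    have hd0 : 0 < d := Nat.gcd_pos_of_pos_left _ (by omega)
    have hda : d ∣ a := Nat.gcd_dvd_left _ _
    have hdm : d ∣ m := Nat.gcd_dvd_right _ _
    have hcop : Nat.Coprime (a / d) (m / d) := Nat.coprime_div_gcd_div_gcd hd0
    have had : d * (a / d) = a := Nat.mul_div_cancel' hda
    have hmd : d * (m / d) = m := Nat.mul_div_cancel' hdm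
    have hdvd : ∀ k : ℕ, a ∣ m * k ↔ a / d ∣ k := by
      intro k
      constructor
      · intro h
        rw [← had, ← hmd, mul_assoc] at h
        have h5 := Nat.dvd_of_mul_dvd_mul_left hd0 h
        exact hcop.dvd_of_dvd_mul_left h5
      · intro h
        rw [← had, ← hmd, mul_assoc]
        exact Nat.mul_dvd_mul_left d (Dvd.dvd.mul_left h _)
    have hmem : ∀ r ∈ (σ ^ m).cycleType, r = a / d := by
      intro r hr
      obtain ⟨c, τ, hcτ, hdis, hcyc, hcard⟩ := Perm.mem_cycleType_iff.1 hr
      obtain ⟨x, hx⟩ := hcyc.nonempty_support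
      have hx' : c x ≠ x := Perm.mem_support.1 hx
      have hτ : τ x = x := by
        rcases hdis x with h | h
        · exact absurd h hx'
        · exact h
      have hck : ∀ k : ℕ, ((σ ^ m) ^ k) x = (c ^ k) x := by
        intro k
        rw [hcτ, hdis.commute.mul_pow, Perm.mul_apply]
        congr 1
        exact Perm.pow_apply_eq_self_of_apply_eq_self hτ k
      have hσx : σ x ≠ x := by
        intro h
        have h6 := hck 1
        rw [pow_one, pow_one, Perm.pow_apply_eq_self_of_apply_eq_self h m] at h6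
        exact hx' h6.symm
      have hr1 : ∀ k : ℕ, r ∣ k ↔ a / d ∣ k := by
        intro k
        rw [← hdvd k, ← hfix x (m * k) hσx, pow_mul, hck k, ← hcard, ← hcyc.orderOf]
        constructor
        · intro h
          rw [orderOf_dvd_iff_pow_eq_one.1 h]; rfl
        · intro h
          exact orderOf_dvd_of_pow_eq_one (hcyc.pow_eq_one_iff.2 ⟨x, hx', h⟩)
      exact Nat.dvd_antisymm ((hr1 _).2 dvd_rfl) ((hr1 _).1 dvd_rfl)
    have hrep := Multiset.eq_replicate_of_mem hmem
    have hsupp : (σ ^ m).support = σ.support := by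
      ext x
      rw [Perm.mem_support, Perm.mem_support]
      constructor
      · intro h h7
        exact h (Perm.pow_apply_eq_self_of_apply_eq_self h7 m)
      · intro h h7
        exact hnd ((hfix x m h).1 h7)
    have hsum := Perm.sum_cycleType (σ ^ m)
    rw [hsupp, hrep, Multiset.sum_replicate, smul_eq_mul, ← ha] at hsum
    have hpos : 0 < a / d := Nat.div_pos (Nat.le_of_dvd (by omega) hda) hd0
    have hcard : Multiset.card (σ ^ m).cycleType = d := by
      refine Nat.eq_of_mul_eq_mul_right hpos ?_
      rw [hsum, had]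
    rw [hrep, hcard]

/-- PROOF. `Equiv.Perm.cycle_induction_on`: disjoint products are clear (`Disjoint.cycleType`, `Commute.mul_pow`, powers of disjoint permutations are disjoint). For a cycle of length `a`
every point of the support has minimal period `a` under `σ`, so `a / gcd a m` under `σ ^ m` (`Function.minimalPeriod_iterate_eq_div_gcd`); if `a ∣ m` then `σ ^ m = 1`, otherwise all cycles of
`σ ^ m` have the length `a / gcd a m` and the support is the one of `σ`, with `a` points: `gcd a m` cycles. -/
theorem ct_pow {n : ℕ} (σ : Perm (Fin n)) (m : ℕ) : (σ ^ m).cycleType = pw m σ.cycleType := by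
  induction σ using Perm.cycle_induction_on with
  | base_one => rw [one_pow, Perm.cycleType_one]; rfl
  | base_cycles σ hσ => exact ct_pow_cycle σ hσ m
  | induction_disjoint σ τ hd _ h1 h2 =>
    rw [hd.commute.mul_pow, (hd.pow_disjoint_pow m m).cycleType_mul, hd.cycleType_mul, h1, h2]
    unfold pw
    rw [Multiset.add_bind]
-- END ct_pow

-- BEGIN phi
/-- A copy of `S_k` on fixed points of `σ`. -/
theorem exists_phi {n k : ℕ} (σ : Perm (Fin n)) (h : σ.cycleType.sum + k ≤ n) :
    ∃ φ : Perm (Fin k) →* Perm (Fin n), ∀ τ, (φ τ).cycleType = τ.cycleType ∧ Perm.Disjoint σ (φ τ) := by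
  classical
  have h1 : Fintype.card (Fin k) ≤ Fintype.card {x : Fin n // σ x = x} := by
    have h2 : Fintype.card {x : Fin n // σ x = x} = n - σ.cycleType.sum := by
      rw [Perm.sum_cycleType, Fintype.card_subtype]
      have h3 : (Finset.univ.filter fun x : Fin n => σ x = x) = σ.supportᶜ := by
        ext x
        simp
      rw [h3, Finset.card_compl, Fintype.card_fin]
    rw [h2, Fintype.card_fin]
    omega
  obtain ⟨e⟩ := Function.Embedding.nonempty_of_card_le h1
  let ι : Fin k ↪ Fin n := e.trans (Function.Embedding.subtype _)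
  refine ⟨Perm.extendDomainHom (Equiv.ofInjective ι ι.injective), fun τ => ⟨?_, ?_⟩⟩
  · exact Perm.cycleType_extendDomain _
  · intro x
    by_cases hx : x ∈ Set.range ι
    · left
      obtain ⟨y, rfl⟩ := hx
      exact (e y).2
    · right
      exact Perm.extendDomain_apply_not_subtype _ _ hx
-- END phi

-- BEGIN zs
/-- PROOF. Take `τ` with cycle type `replicate k q` (`Equiv.Perm.exists_with_cycleType_iff`), `L` its list of cycle factors (`Equiv.Perm.cycleFactors`; or `truncCycleFactors`); by
`Equiv.Perm.cycleType_eq` it has `k` elements, all are cycles of length `q`, pairwise disjoint. `z i = L.getD i 1`. For the last claim `cycleType_eq` for the list of the powers: they are cycles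
with the same supports (`q` is prime). -/
theorem exists_zs (k : ℕ) {q : ℕ} (hq : q.Prime) : ∃ z : ℕ → Perm (Fin (k * q)),
    (∀ i < k, z i ^ q = 1) ∧ (∀ i < k, ∀ j < k, Commute (z i) (z j)) ∧ (∀ i < k, (z i).cycleType = {q}) ∧
      ∀ e : ℕ → ℕ, (∀ i < k, ¬ q ∣ e i) →
        ((List.range k).map fun i => z i ^ e i).prod.cycleType = Multiset.replicate k q := by
  classical
  obtain ⟨τ, hτ⟩ : ∃ τ : Perm (Fin (k * q)), τ.cycleType = Multiset.replicate k q := by
    rw [Equiv.Perm.exists_with_cycleType_iff]
    refine ⟨?_, ?_⟩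
    · rw [Multiset.sum_replicate, Fintype.card_fin, smul_eq_mul]
    · intro a ha
      rw [Multiset.eq_of_mem_replicate ha]
      exact hq.two_le
  have hcard : τ.cycleFactorsFinset.card = k := by
    have h1 := congrArg Multiset.card hτ
    rw [Multiset.card_replicate, Equiv.Perm.cycleType_def, Multiset.card_map] at h1
    exact h1
  have hmem : ∀ f ∈ τ.cycleFactorsFinset, f.IsCycle ∧ f.support.card = q := by
    intro f hf
    refine ⟨(Equiv.Perm.mem_cycleFactorsFinset_iff.1 hf).1, ?_⟩
    have h1 : f.support.card ∈ τ.cycleType := by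
      rw [Equiv.Perm.cycleType_def]
      exact Multiset.mem_map_of_mem _ hf
    rw [hτ] at h1
    exact Multiset.eq_of_mem_replicate h1
  have hL : τ.cycleFactorsFinset.toList.length = k := by rw [Finset.length_toList, hcard]
  let z : ℕ → Perm (Fin (k * q)) := fun i => τ.cycleFactorsFinset.toList.getD i 1
  have hzL : ∀ i (hi : i < k), z i = τ.cycleFactorsFinset.toList[i]'(by rw [hL]; exact hi) := by
    intro i hi
    exact List.getD_eq_getElem _ _ (by rw [hL]; exact hi)
  have hz : ∀ i < k, z i ∈ τ.cycleFactorsFinset := by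
    intro i hi
    rw [hzL i hi]
    exact Finset.mem_toList.1 (List.getElem_mem _)
  have hdis : ∀ i < k, ∀ j < k, i ≠ j → Perm.Disjoint (z i) (z j) := by
    intro i hi j hj hij
    refine τ.cycleFactorsFinset_pairwise_disjoint (hz i hi) (hz j hj) fun h => hij ?_
    rw [hzL i hi, hzL j hj] at h
    exact (List.Nodup.getElem_inj_iff (Finset.nodup_toList _)).1 h
  have hord : ∀ i < k, orderOf (z i) = q := by
    intro i hi
    obtain ⟨h1, h2⟩ := hmem _ (hz i hi)
    rw [h1.orderOf, h2]
  refine ⟨z, fun i hi => ?_, fun i hi j hj => ?_, fun i hi => ?_, fun e he => ?_⟩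
  · have h1 := pow_orderOf_eq_one (z i)
    rwa [hord i hi] at h1
  · by_cases hij : i = j
    · rw [hij]
    · exact (hdis i hi j hj hij).commute
  · obtain ⟨h1, h2⟩ := hmem _ (hz i hi)
    rw [h1.cycleType, h2]
  · have hco : ∀ i < k, (e i).Coprime (orderOf (z i)) := by
      intro i hi
      rw [hord i hi]
      exact ((hq.coprime_iff_not_dvd).2 (he i hi)).symm
    rw [Equiv.Perm.cycleType_eq ((List.range k).map fun i => z i ^ e i) rfl]
    · rw [List.map_map, Multiset.eq_replicate]
      refine ⟨?_, ?_⟩
      · rw [Multiset.coe_card, List.length_map, List.length_range]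
      · intro b hb
        rw [Multiset.mem_coe, List.mem_map] at hb
        obtain ⟨i, hi, rfl⟩ := hb
        have hi' := List.mem_range.1 hi
        show (z i ^ e i).support.card = q
        rw [Equiv.Perm.support_pow_coprime (hco i hi')]
        exact (hmem _ (hz i hi')).2
    · intro σ hσ
      rw [List.mem_map] at hσ
      obtain ⟨i, hi, rfl⟩ := hσ
      have hi' := List.mem_range.1 hi
      exact ((hmem _ (hz i hi')).1.pow_iff).2 (hco i hi')
    · rw [List.pairwise_map]
      refine (List.pairwise_lt_range (n := k)).imp_of_mem fun {i j} hi hj hij => ?_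
      exact (hdis i (List.mem_range.1 hi) j (List.mem_range.1 hj) (ne_of_lt hij)).pow_disjoint_pow _ _
-- END zs

-- BEGIN mc
private theorem mc_ct {q : ℕ} (l : List (Fin q)) (h1 : l.Nodup) (h2 : 2 ≤ l.length) :
    l.formPerm.cycleType = {l.length} := by
  have hc : l.formPerm.IsCycle := List.isCycle_formPerm h1 h2
  rw [hc.cycleType, List.support_formPerm_of_nodup l h1 (by rintro x rfl; simp at h2), List.toFinset_card_of_nodup h1]

set_option maxRecDepth 100000 in
/-- PROOF. `c = finRotate q` (or `x ↦ x + 1` on `ZMod q`), `m` the multiplication by the primitive root `g = 2, 3, 2` for `q = 5, 7, 11`. Everything is finite (`decide`; for `q = 11` perhaps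
with `Equiv.Perm.isCycle..` / an explicit list `List.formPerm`, `List.formPerm` has a `cycleType` lemma). -/
theorem exists_mc {q : ℕ} (hq : q = 5 ∨ q = 7 ∨ q = 11) : ∃ (c m : Perm (Fin q)) (g : ℕ), c.cycleType = {q} ∧
    m.cycleType = {q - 1} ∧ m * c = c ^ g * m ∧ ∀ j, 0 < j → j < q - 1 → ¬ g ^ j ≡ 1 [MOD q] := by
  rcases hq with rfl | rfl | rfl
  · refine ⟨List.formPerm [0, 1, 2, 3, 4], List.formPerm [1, 2, 4, 3], 2, mc_ct _ (by decide) (by decide),
      mc_ct _ (by decide) (by decide), by decide, ?_⟩
    intro j h1 h2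
    interval_cases j <;> decide
  · refine ⟨List.formPerm [0, 1, 2, 3, 4, 5, 6], List.formPerm [1, 3, 2, 6, 4, 5], 3, mc_ct _ (by decide) (by decide),
      mc_ct _ (by decide) (by decide), by decide, ?_⟩
    intro j h1 h2
    interval_cases j <;> decide
  · refine ⟨List.formPerm [0, 1, 2, 3, 4, 5, 6, 7, 8, 9, 10], List.formPerm [1, 2, 4, 8, 5, 10, 9, 7, 3, 6], 2,
      mc_ct _ (by decide) (by decide), mc_ct _ (by decide) (by decide), by decide, ?_⟩
    intro j h1 h2
    interval_cases j <;> decide
-- END mc

end Pool.Agent.NbS
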