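import Pool.Agent.NbS.Mod
import Pool.Agent.NbS.Prm

/-!
# The calculus of cycle types with fixed vectors
-/

set_option autoImplicit false
set_option linter.unusedSectionVars false

namespace Pool.Agent.NbS

open Equiv

variable {n : ℕ} {V : Type*} [AddCommGroup V] {ρ : Perm (Fin n) →* AddMonoid.End V} {p : ℕ}

theorem R0 {v : V} (hv : v ≠ 0) : FxT ρ 0 := by
  refine ⟨1, by simp, v, hv, ?_⟩
  rw [map_one]
  rfl

theorem RP {μ : Multiset ℕ} (h : FxT ρ μ) (m : ℕ) : FxT ρ (pw m μ) := by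
  obtain ⟨σ, hσ, v, hv, hf⟩ := h
  refine ⟨σ ^ m, by rw [ct_pow, hσ], v, hv, ?_⟩
  rw [map_pow]
  induction m with
  | zero => simp
  | succ k ih =>
      rw [pow_succ]
      show (ρ σ ^ k) (ρ σ v) = v
      rw [hf, ih]

-- BEGIN RC
/-- PROOF. Take `s` with the cycle type `l` (`Equiv.Perm.exists_with_cycleType_iff`), it is free (`hC`), `s ^ p ^ e` is free (`free_pow`) and has the cycle type `pw (p ^ e) l` (`ct_pow`);
a `σ` with the same cycle type is conjugate to it (`Equiv.Perm.isConj_iff_cycleType_eq`): if `ρ (g * t * g⁻¹) v = v` then `ρ g⁻¹ v` is fixed by `t`. -/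
theorem RC (hp : p.Prime) (hV : ∀ v : V, p • v = 0) (hC : CpFree ρ) {f : ℕ} (l : List ℕ) (e : ℕ) (hf : f ≤ 1)
    (hl : Cp n f l) {μ : Multiset ℕ} (hμ : μ = pw (p ^ e) (l : Multiset ℕ)) : ¬ FxT ρ μ := by
  rintro ⟨σ, hσ, v, hv, hfix⟩
  obtain ⟨s, hs⟩ := (Equiv.Perm.exists_with_cycleType_iff (α := Fin n) (m := (l : Multiset ℕ))).mpr
    ⟨by
      have h1 := hl.sum
      rw [Multiset.sum_coe, Fintype.card_fin]
      omega, fun a ha => hl.two a (Multiset.mem_coe.mp ha)⟩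
  have hfree := free_pow ρ hp hV s (hC f l hf hl s hs) e
  have hct : σ.cycleType = (s ^ p ^ e).cycleType := by rw [hσ, hμ, ct_pow, hs]
  obtain ⟨g, hg⟩ := isConj_iff.mp (Equiv.Perm.isConj_iff_cycleType_eq.mpr hct)
  have hgg : ∀ w : V, ρ g⁻¹ (ρ g w) = w := by
    intro w
    have h1 : (ρ g⁻¹ * ρ g) w = w := by
      rw [← map_mul, inv_mul_cancel, map_one]
      rfl
    exact h1
  have h1 : ρ g v = 0 := by
    apply hfree
    rw [← hg, map_mul, map_mul]
    show ρ g (ρ σ (ρ g⁻¹ (ρ g v))) = ρ g v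
    rw [hgg, hfix]
  apply hv
  rw [← hgg v, h1, map_zero]
-- END RC

-- BEGIN R3
/-- PROOF. `σ, v` from `h`; `exists_phi σ` (`k = q`), `exists_mc`; `T3` with `S = {σ}`, the images of `c, m` under `φ`. The product `φ c * σ` (disjoint) fixes the new vector and has the cycle
type `q ::ₘ μ`; similarly `m`. -/
theorem R3 (hp : p.Prime) (hV : ∀ v : V, p • v = 0) {μ : Multiset ℕ} (h : FxT ρ μ) (q : ℕ) (hq : q = 5 ∨ q = 7 ∨ q = 11)
    (hpq : q ≠ p) (hn : μ.sum + q ≤ n) : FxT ρ (q ::ₘ μ) ∨ FxT ρ ((q - 1) ::ₘ μ) := by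
  obtain ⟨σ, hσ, v, hv, hf⟩ := h
  obtain ⟨φ, hφ⟩ := exists_phi (k := q) σ (by rw [hσ]; exact hn)
  obtain ⟨c, m, g, hc, hm, hmc, hg⟩ := exists_mc hq
  have hq' : q.Prime := by rcases hq with h | h | h <;> subst h <;> norm_num
  have h3q : 3 ≤ q := by omega
  have hcq : φ c ^ q = 1 := by
    rw [← map_pow]
    have : c ^ q = 1 := by
      have h1 := Equiv.Perm.lcm_cycleType c
      rw [hc, Multiset.lcm_singleton] at h1
      have h2 := pow_orderOf_eq_one c
      rw [← h1] at h2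
      simpa using h2
    rw [this, map_one]
  have hmq : φ m ^ (q - 1) = 1 := by
    rw [← map_pow]
    have : m ^ (q - 1) = 1 := by
      have h1 := Equiv.Perm.lcm_cycleType m
      rw [hm, Multiset.lcm_singleton] at h1
      have h2 := pow_orderOf_eq_one m
      rw [← h1] at h2
      simpa using h2
    rw [this, map_one]
  have hmc' : φ m * φ c = φ c ^ g * φ m := by
    rw [← map_mul, hmc, map_mul, map_pow]
  have key : ∀ (τ : Perm (Fin q)) (a : ℕ), τ.cycleType = {a} → Fx ρ (insert (φ τ) {σ}) → FxT ρ (a ::ₘ μ) := by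
    intro τ a hτ hF
    obtain ⟨w, hw, hfw⟩ := hF
    refine ⟨σ * φ τ, ?_, w, hw, ?_⟩
    · rw [(hφ τ).2.cycleType_mul, (hφ τ).1, hσ, hτ, add_comm, Multiset.singleton_add]
    · rw [map_mul]
      show ρ σ (ρ (φ τ) w) = w
      rw [hfw (φ τ) (Set.mem_insert _ _), hfw σ (Set.mem_insert_of_mem _ (Set.mem_singleton σ))]
  rcases T3 ρ hp hq' h3q hpq hV (φ c) (φ m) hcq hmq hmc' hg (S := {σ})
      ⟨v, hv, fun s hs => by rw [Set.mem_singleton_iff.1 hs]; exact hf⟩
      (fun s hs => by rw [Set.mem_singleton_iff.1 hs]; exact (hφ c).2.commute.symm)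
      (fun s hs => by rw [Set.mem_singleton_iff.1 hs]; exact (hφ m).2.commute.symm) with h1 | h1
  · exact Or.inl (key c q hc h1)
  · exact Or.inr (key m (q - 1) hm h1)
-- END R3

-- BEGIN R5
/-- PROOF. `σ, v` from `h`; `exists_phi σ` with `k * q` points, `exists_zs k`, `T5` with `S = {σ}` and the elements `φ (z i)`; products with `σ` as in `R3`. -/
theorem R5 (hp : p.Prime) (hV : ∀ v : V, p • v = 0) {μ : Multiset ℕ} (h : FxT ρ μ) (q k : ℕ) (hq : q.Prime) (h3q : 3 ≤ q)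
    (hk : 2 ≤ k) (hpq : q ≠ p) (hn : μ.sum + k * q ≤ n) : FxT ρ (q ::ₘ μ) ∨ FxT ρ (Multiset.replicate k q + μ) := by
  obtain ⟨σ, hσ, v, hv, hf⟩ := h
  obtain ⟨φ, hφ⟩ := exists_phi (k := k * q) σ (by rw [hσ]; exact hn)
  obtain ⟨z, hz, hzz, hzt, hze⟩ := exists_zs k hq
  have key : ∀ (τ : Perm (Fin (k * q))) (ν : Multiset ℕ), τ.cycleType = ν → Fx ρ (insert (φ τ) {σ}) →
      FxT ρ (ν + μ) := by
    intro τ ν hτ hF
    obtain ⟨w, hw, hfw⟩ := hF
    refine ⟨σ * φ τ, ?_, w, hw, ?_⟩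
    · rw [(hφ τ).2.cycleType_mul, (hφ τ).1, hσ, hτ, add_comm]
    · rw [map_mul]
      show ρ σ (ρ (φ τ) w) = w
      rw [hfw (φ τ) (Set.mem_insert _ _), hfw σ (Set.mem_insert_of_mem _ (Set.mem_singleton σ))]
  rcases T5 ρ hp hq h3q hpq hV k hk (fun i => φ (z i))
      (fun i hi => by rw [← map_pow, hz i hi, map_one])
      (fun i hi j hj => (hzz i hi j hj).map φ)
      (S := {σ}) ⟨v, hv, fun s hs => by rw [Set.mem_singleton_iff.1 hs]; exact hf⟩
      (fun i _ s hs => by rw [Set.mem_singleton_iff.1 hs]; exact (hφ (z i)).2.commute.symm) with h1 | h1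
  · obtain ⟨i, hi, h2⟩ := h1
    left
    have := key (z i) {q} (hzt i hi) h2
    rwa [Multiset.singleton_add] at this
  · obtain ⟨e, he, h2⟩ := h1
    right
    refine key _ _ (hze e he) ?_
    have h3 : φ ((List.range k).map fun i => z i ^ e i).prod = ((List.range k).map fun i => φ (z i) ^ e i).prod := by
      rw [map_list_prod, List.map_map]
      congr 1
      apply List.map_congr_left
      intro i _
      simp
    rw [h3]
    exact h2
-- END R5

theorem R1 {v : V} (hv : v ≠ 0) (h2 : ¬ FxT ρ {2}) (σ : Perm (Fin n)) (hσ : Perm.sign σ = 1) : FxT ρ σ.cycleType := by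
  refine ⟨σ, rfl, v, hv, ?_⟩
  rw [sgn ρ ?_ σ v, hσ]
  · simp
  · intro a b hab w hw
    by_contra hw0
    exact h2 ⟨swap a b, by rw [Perm.IsCycle.cycleType (Perm.isCycle_swap hab), Perm.card_support_swap hab], w, hw0, hw⟩

end Pool.Agent.NbS
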