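import Pool.Agent.NbS.Cal

/-!
# The small cases
-/

set_option autoImplicit false

namespace Pool.Agent.NbS

open Equiv

theorem nm4_2 : NoMod 4 2 := by
  intro V _ ρ hV hC v
  by_contra hv
  have h := R0 (ρ := ρ) hv
  have hp := Nat.prime_two
  exact RC hp hV hC [4] 2 (f := 0) (by norm_num) ⟨by decide, by decide, by decide⟩ (by decide) h

theorem nm4_3 : NoMod 4 3 := by
  intro V _ ρ hV hC v
  by_contra hv
  have h := R0 (ρ := ρ) hv
  have hp := Nat.prime_three
  exact RC hp hV hC [3] 1 (f := 1) (by norm_num) ⟨by decide, by decide, by decide⟩ (by decide) h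

theorem nm5_2 : NoMod 5 2 := by
  intro V _ ρ hV hC v
  by_contra hv
  have h := R0 (ρ := ρ) hv
  have hp := Nat.prime_two
  rcases R3 hp hV h 5 (by norm_num) (by norm_num) (by decide) with h | h
  · exact RC hp hV hC [5] 0 (f := 0) (by norm_num) ⟨by decide, by decide, by decide⟩ (by decide) h
  · exact RC hp hV hC [4] 0 (f := 1) (by norm_num) ⟨by decide, by decide, by decide⟩ (by decide) h

theorem nm5_3 : NoMod 5 3 := by
  intro V _ ρ hV hC v
  by_contra hv
  have h := R0 (ρ := ρ) hv
  have hp := Nat.prime_three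
  rcases R3 hp hV h 5 (by norm_num) (by norm_num) (by decide) with h | h
  · exact RC hp hV hC [5] 0 (f := 0) (by norm_num) ⟨by decide, by decide, by decide⟩ (by decide) h
  · exact RC hp hV hC [4] 0 (f := 1) (by norm_num) ⟨by decide, by decide, by decide⟩ (by decide) h

theorem nm7_2 : NoMod 7 2 := by
  intro V _ ρ hV hC v
  by_contra hv
  have h := R0 (ρ := ρ) hv
  have hp := Nat.prime_two
  rcases R3 hp hV h 7 (by norm_num) (by norm_num) (by decide) with h | h
  · exact RC hp hV hC [7] 0 (f := 0) (by norm_num) ⟨by decide, by decide, by decide⟩ (by decide) h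
  · exact RC hp hV hC [6] 0 (f := 1) (by norm_num) ⟨by decide, by decide, by decide⟩ (by decide) h

theorem nm7_3 : NoMod 7 3 := by
  intro V _ ρ hV hC v
  by_contra hv
  have h := R0 (ρ := ρ) hv
  have hp := Nat.prime_three
  rcases R3 hp hV h 7 (by norm_num) (by norm_num) (by decide) with h | h
  · exact RC hp hV hC [7] 0 (f := 0) (by norm_num) ⟨by decide, by decide, by decide⟩ (by decide) h
  · exact RC hp hV hC [6] 0 (f := 1) (by norm_num) ⟨by decide, by decide, by decide⟩ (by decide) h

theorem nm8_2 : NoMod 8 2 := by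
  intro V _ ρ hV hC v
  by_contra hv
  have h := R0 (ρ := ρ) hv
  have hp := Nat.prime_two
  exact RC hp hV hC [8] 3 (f := 0) (by norm_num) ⟨by decide, by decide, by decide⟩ (by decide) h

theorem nm8_3 : NoMod 8 3 := by
  intro V _ ρ hV hC v
  by_contra hv
  have h := R0 (ρ := ρ) hv
  have hp := Nat.prime_three
  rcases R3 hp hV h 5 (by norm_num) (by norm_num) (by decide) with h | h
  · exact RC hp hV hC [5, 3] 1 (f := 0) (by norm_num) ⟨by decide, by decide, by decide⟩ (by decide) h
  · exact RC hp hV hC [4, 3] 1 (f := 1) (by norm_num) ⟨by decide, by decide, by decide⟩ (by decide) h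

theorem nm9_2 : NoMod 9 2 := by
  intro V _ ρ hV hC v
  by_contra hv
  have h := R0 (ρ := ρ) hv
  have hp := Nat.prime_two
  exact RC hp hV hC [8] 3 (f := 1) (by norm_num) ⟨by decide, by decide, by decide⟩ (by decide) h

theorem nm9_3 : NoMod 9 3 := by
  intro V _ ρ hV hC v
  by_contra hv
  have h := R0 (ρ := ρ) hv
  have hp := Nat.prime_three
  exact RC hp hV hC [9] 2 (f := 0) (by norm_num) ⟨by decide, by decide, by decide⟩ (by decide) h

theorem nm10_2 : NoMod 10 2 := by
  intro V _ ρ hV hC v
  by_contra hv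
  have h := R0 (ρ := ρ) hv
  have hp := Nat.prime_two
  rcases R5 hp hV h 5 2 (by norm_num) (by norm_num) (by norm_num) (by norm_num) (by decide) with h | h
  · exact RC hp hV hC [5, 4] 2 (f := 1) (by norm_num) ⟨by decide, by decide, by decide⟩ (by decide) h
  · exact RC hp hV hC [10] 1 (f := 0) (by norm_num) ⟨by decide, by decide, by decide⟩ (by decide) h

theorem nm10_3 : NoMod 10 3 := by
  intro V _ ρ hV hC v
  by_contra hv
  have h := R0 (ρ := ρ) hv
  have hp := Nat.prime_three
  exact RC hp hV hC [9] 2 (f := 1) (by norm_num) ⟨by decide, by decide, by decide⟩ (by decide) h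

theorem nm12_2 : NoMod 12 2 := by
  intro V _ ρ hV hC v
  by_contra hv
  have h := R0 (ρ := ρ) hv
  have hp := Nat.prime_two
  rcases R5 hp hV h 3 4 (by norm_num) (by norm_num) (by norm_num) (by norm_num) (by decide) with h | h
  · exact RC hp hV hC [8, 3] 3 (f := 1) (by norm_num) ⟨by decide, by decide, by decide⟩ (by decide) h
  · exact RC hp hV hC [12] 2 (f := 0) (by norm_num) ⟨by decide, by decide, by decide⟩ (by decide) h

theorem nm14_2 : NoMod 14 2 := by
  intro V _ ρ hV hC v
  by_contra hv
  have h := R0 (ρ := ρ) hv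
  have hp := Nat.prime_two
  rcases R5 hp hV h 7 2 (by norm_num) (by norm_num) (by norm_num) (by norm_num) (by decide) with h | h
  · rcases R5 hp hV h 3 2 (by norm_num) (by norm_num) (by norm_num) (by norm_num) (by decide) with h | h
    · exact RC hp hV hC [7, 4, 3] 2 (f := 0) (by norm_num) ⟨by decide, by decide, by decide⟩ (by decide) h
    · exact RC hp hV hC [7, 6] 1 (f := 1) (by norm_num) ⟨by decide, by decide, by decide⟩ (by decide) h
  · exact RC hp hV hC [14] 1 (f := 0) (by norm_num) ⟨by decide, by decide, by decide⟩ (by decide) h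

theorem nm14_3 : NoMod 14 3 := by
  intro V _ ρ hV hC v
  by_contra hv
  have h := R0 (ρ := ρ) hv
  have hp := Nat.prime_three
  rcases R3 hp hV h 5 (by norm_num) (by norm_num) (by decide) with h | h
  · exact RC hp hV hC [9, 5] 2 (f := 0) (by norm_num) ⟨by decide, by decide, by decide⟩ (by decide) h
  · exact RC hp hV hC [9, 4] 2 (f := 1) (by norm_num) ⟨by decide, by decide, by decide⟩ (by decide) h

theorem nm15_2 : NoMod 15 2 := by
  intro V _ ρ hV hC v
  by_contra hv
  have h := R0 (ρ := ρ) hv
  have hp := Nat.prime_two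
  rcases R5 hp hV h 7 2 (by norm_num) (by norm_num) (by norm_num) (by norm_num) (by decide) with h | h
  · exact RC hp hV hC [8, 7] 3 (f := 0) (by norm_num) ⟨by decide, by decide, by decide⟩ (by decide) h
  · exact RC hp hV hC [14] 1 (f := 1) (by norm_num) ⟨by decide, by decide, by decide⟩ (by decide) h

theorem nm15_3 : NoMod 15 3 := by
  intro V _ ρ hV hC v
  by_contra hv
  have h := R0 (ρ := ρ) hv
  have hp := Nat.prime_three
  rcases R5 hp hV h 5 3 (by norm_num) (by norm_num) (by norm_num) (by norm_num) (by decide) with h | h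
  · exact RC hp hV hC [9, 5] 2 (f := 1) (by norm_num) ⟨by decide, by decide, by decide⟩ (by decide) h
  · exact RC hp hV hC [15] 1 (f := 0) (by norm_num) ⟨by decide, by decide, by decide⟩ (by decide) h

theorem nm16_2 : NoMod 16 2 := by
  intro V _ ρ hV hC v
  by_contra hv
  have h := R0 (ρ := ρ) hv
  have hp := Nat.prime_two
  exact RC hp hV hC [16] 4 (f := 0) (by norm_num) ⟨by decide, by decide, by decide⟩ (by decide) h

theorem nm16_3 : NoMod 16 3 := by
  intro V _ ρ hV hC v
  by_contra hv
  have h := R0 (ρ := ρ) hv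
  have hp := Nat.prime_three
  rcases R5 hp hV h 5 3 (by norm_num) (by norm_num) (by norm_num) (by norm_num) (by decide) with h | h
  · rcases R3 hp hV h 11 (by norm_num) (by norm_num) (by decide) with h | h
    · exact RC hp hV hC [11, 5] 0 (f := 0) (by norm_num) ⟨by decide, by decide, by decide⟩ (by decide) h
    · exact RC hp hV hC [15] 1 (f := 1) (by norm_num) ⟨by decide, by decide, by decide⟩ (by decide) (RP h 2)
  · exact RC hp hV hC [15] 1 (f := 1) (by norm_num) ⟨by decide, by decide, by decide⟩ (by decide) h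

theorem nm20_2 : NoMod 20 2 := by
  intro V _ ρ hV hC v
  by_contra hv
  have h := R0 (ρ := ρ) hv
  have hp := Nat.prime_two
  rcases R5 hp hV h 5 4 (by norm_num) (by norm_num) (by norm_num) (by norm_num) (by decide) with h | h
  · rcases R5 hp hV h 7 2 (by norm_num) (by norm_num) (by norm_num) (by norm_num) (by decide) with h | h
    · exact RC hp hV hC [8, 7, 5] 3 (f := 0) (by norm_num) ⟨by decide, by decide, by decide⟩ (by decide) h
    · exact RC hp hV hC [14, 5] 1 (f := 1) (by norm_num) ⟨by decide, by decide, by decide⟩ (by decide) h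
  · exact RC hp hV hC [20] 2 (f := 0) (by norm_num) ⟨by decide, by decide, by decide⟩ (by decide) h

theorem nm20_3 : NoMod 20 3 := by
  intro V _ ρ hV hC v
  by_contra hv
  have h := R0 (ρ := ρ) hv
  have hp := Nat.prime_three
  rcases R3 hp hV h 11 (by norm_num) (by norm_num) (by decide) with h | h
  · exact RC hp hV hC [11, 9] 2 (f := 0) (by norm_num) ⟨by decide, by decide, by decide⟩ (by decide) h
  · exact RC hp hV hC [10, 9] 2 (f := 1) (by norm_num) ⟨by decide, by decide, by decide⟩ (by decide) h

theorem nm21_2 : NoMod 21 2 := by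
  intro V _ ρ hV hC v
  by_contra hv
  have h := R0 (ρ := ρ) hv
  have hp := Nat.prime_two
  rcases R5 hp hV h 5 4 (by norm_num) (by norm_num) (by norm_num) (by norm_num) (by decide) with h | h
  · exact RC hp hV hC [16, 5] 4 (f := 0) (by norm_num) ⟨by decide, by decide, by decide⟩ (by decide) h
  · exact RC hp hV hC [20] 2 (f := 1) (by norm_num) ⟨by decide, by decide, by decide⟩ (by decide) h

theorem nm21_3 : NoMod 21 3 := by
  intro V _ ρ hV hC v
  by_contra hv
  have h := R0 (ρ := ρ) hv
  have hp := Nat.prime_three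
  rcases R5 hp hV h 7 3 (by norm_num) (by norm_num) (by norm_num) (by norm_num) (by decide) with h | h
  · rcases R3 hp hV h 5 (by norm_num) (by norm_num) (by decide) with h | h
    · exact RC hp hV hC [9, 7, 5] 2 (f := 0) (by norm_num) ⟨by decide, by decide, by decide⟩ (by decide) h
    · exact RC hp hV hC [9, 7, 4] 2 (f := 1) (by norm_num) ⟨by decide, by decide, by decide⟩ (by decide) h
  · exact RC hp hV hC [21] 1 (f := 0) (by norm_num) ⟨by decide, by decide, by decide⟩ (by decide) h

theorem nm27_2 : NoMod 27 2 := by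
  intro V _ ρ hV hC v
  by_contra hv
  have h := R0 (ρ := ρ) hv
  have hp := Nat.prime_two
  rcases R5 hp hV h 13 2 (by norm_num) (by norm_num) (by norm_num) (by norm_num) (by decide) with h | h
  · rcases R5 hp hV h 7 2 (by norm_num) (by norm_num) (by norm_num) (by norm_num) (by decide) with h | h
    · rcases R5 hp hV h 3 2 (by norm_num) (by norm_num) (by norm_num) (by norm_num) (by decide) with h | h
      · exact RC hp hV hC [16, 7, 3] 4 (f := 1) (by norm_num) ⟨by decide, by decide, by decide⟩ (by decide) (RP h 13)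
      · exact RC hp hV hC [13, 7, 6] 1 (f := 1) (by norm_num) ⟨by decide, by decide, by decide⟩ (by decide) h
    · exact RC hp hV hC [14, 13] 1 (f := 0) (by norm_num) ⟨by decide, by decide, by decide⟩ (by decide) h
  · exact RC hp hV hC [26] 1 (f := 1) (by norm_num) ⟨by decide, by decide, by decide⟩ (by decide) h

theorem nm27_3 : NoMod 27 3 := by
  intro V _ ρ hV hC v
  by_contra hv
  have h := R0 (ρ := ρ) hv
  have hp := Nat.prime_three
  exact RC hp hV hC [27] 3 (f := 0) (by norm_num) ⟨by decide, by decide, by decide⟩ (by decide) h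

theorem nm33_2 : NoMod 33 2 := by
  intro V _ ρ hV hC v
  by_contra hv
  have h := R0 (ρ := ρ) hv
  have hp := Nat.prime_two
  exact RC hp hV hC [32] 5 (f := 1) (by norm_num) ⟨by decide, by decide, by decide⟩ (by decide) h

theorem nm33_3 : NoMod 33 3 := by
  intro V _ ρ hV hC v
  by_contra hv
  have h := R0 (ρ := ρ) hv
  have hp := Nat.prime_three
  rcases R5 hp hV h 11 3 (by norm_num) (by norm_num) (by norm_num) (by norm_num) (by decide) with h | h
  · rcases R5 hp hV h 7 3 (by norm_num) (by norm_num) (by norm_num) (by norm_num) (by decide) with h | h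
    · rcases R5 hp hV h 5 3 (by norm_num) (by norm_num) (by norm_num) (by norm_num) (by decide) with h | h
      · exact RC hp hV hC [27, 5] 3 (f := 1) (by norm_num) ⟨by decide, by decide, by decide⟩ (by decide) (RP h 77)
      · exact RC hp hV hC [15, 11, 7] 1 (f := 0) (by norm_num) ⟨by decide, by decide, by decide⟩ (by decide) h
    · exact RC hp hV hC [21, 11] 1 (f := 1) (by norm_num) ⟨by decide, by decide, by decide⟩ (by decide) h
  · exact RC hp hV hC [33] 1 (f := 0) (by norm_num) ⟨by decide, by decide, by decide⟩ (by decide) h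

theorem nm12_3 : NoMod 12 3 := by
  intro V _ ρ hV hC v
  by_contra hv
  have hp := Nat.prime_three
  obtain ⟨σ, hσ⟩ : ∃ σ : Perm (Fin 12), σ.cycleType = {11} :=
    (Perm.exists_with_cycleType_iff (Fin 12)).2 ⟨by decide, by decide⟩
  have h2 : ¬ FxT ρ {2} := RC hp hV hC [9, 2] 2 (f := 1) (by norm_num) ⟨by decide, by decide, by decide⟩ (by decide)
  have h := R1 hv h2 σ (by rw [Perm.sign_of_cycleType, hσ]; decide)
  rw [hσ] at h
  exact RC hp hV hC [11] 0 (f := 1) (by norm_num) ⟨by decide, by decide, by decide⟩ (by decide) h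

end Pool.Agent.NbS
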