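import Mathlib

/-!
# Groups with classes of distinct sizes which are nilpotent by symmetric (MP_3a125c_al): definitions
-/

set_option autoImplicit false

namespace Pool.Agent.NbS

open Equiv

/-- Distinct conjugacy classes have distinct cardinalities. -/
def Ah (G : Type*) [Group G] : Prop :=
  ∀ C D : ConjClasses G, Nat.card C.carrier = Nat.card D.carrier → C = D

/-- `l` is the list of the cycle lengths `≥ 2` of a permutation of `n` points with pairwise coprime cycle lengths `≥ 2`
and `f` fixed points. For `f ≤ 1` such a permutation is self-centralizing. -/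
structure Cp (n f : ℕ) (l : List ℕ) : Prop where
  cop : l.Pairwise Nat.Coprime
  two : ∀ a ∈ l, 2 ≤ a
  sum : l.sum + f = n

/-- The cycle lengths `≥ 2` of the power `σ ^ m` if `s` are those of `σ`. -/
def pw (m : ℕ) (s : Multiset ℕ) : Multiset ℕ :=
  s.bind fun a => if Nat.gcd a m = a then 0 else Multiset.replicate (Nat.gcd a m) (a / Nat.gcd a m)

section

variable {H V : Type*} [Group H] [AddCommGroup V]

/-- Some nonzero vector is fixed by all elements of `S`. -/
def Fx (ρ : H →* AddMonoid.End V) (S : Set H) : Prop := ∃ v : V, v ≠ 0 ∧ ∀ s ∈ S, ρ s v = v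

/-- `t` has no nonzero fixed vector. -/
def Free (ρ : H →* AddMonoid.End V) (t : H) : Prop := ∀ v : V, ρ t v = v → v = 0

end

/-- Some permutation with the cycle lengths `μ` has a nonzero fixed vector. -/
def FxT {n : ℕ} {V : Type*} [AddCommGroup V] (ρ : Perm (Fin n) →* AddMonoid.End V) (μ : Multiset ℕ) : Prop :=
  ∃ σ : Perm (Fin n), σ.cycleType = μ ∧ ∃ v : V, v ≠ 0 ∧ ρ σ v = v

/-- The permutations with pairwise coprime cycle lengths have no nonzero fixed vector. -/
def CpFree {n : ℕ} {V : Type*} [AddCommGroup V] (ρ : Perm (Fin n) →* AddMonoid.End V) : Prop :=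
  ∀ (f : ℕ) (l : List ℕ), f ≤ 1 → Cp n f l → ∀ σ : Perm (Fin n), σ.cycleType = (l : Multiset ℕ) → Free ρ σ

/-- There is no nonzero `F_p S_n`-module on which all permutations with pairwise coprime cycle lengths act without
nonzero fixed vectors. -/
def NoMod (n p : ℕ) : Prop :=
  ∀ (V : Type) [AddCommGroup V] (ρ : Perm (Fin n) →* AddMonoid.End V), (∀ v : V, p • v = 0) → CpFree ρ → ∀ v : V, v = 0

end Pool.Agent.NbS
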