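import Pool.Agent.NbS.Grp
import Pool.Agent.NbS.Cas

/-!
# The end
-/

set_option autoImplicit false

namespace Pool.Agent.NbS

open Equiv

/-- The exceptional degrees. -/
def L : List ℕ := [4, 5, 7, 8, 9, 10, 12, 14, 15, 16, 20, 21, 27, 33]

-- BEGIN numR
private theorem numR_two {a : ℕ} (h : a % 2 = 1) : Nat.Coprime a 2 :=
  ((Nat.Prime.coprime_iff_not_dvd Nat.prime_two).2 (by omega)).symm

private theorem numR_three {a : ℕ} (h : a % 3 ≠ 0) : Nat.Coprime a 3 :=
  ((Nat.Prime.coprime_iff_not_dvd Nat.prime_three).2 (by omega)).symm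

private theorem numR_five {a : ℕ} (h : a % 5 ≠ 0) : Nat.Coprime 5 a :=
  (Nat.Prime.coprime_iff_not_dvd Nat.prime_five).2 (by omega)

private theorem numR_cop {a : ℕ} (i j : ℕ) (h2 : a % 2 = 1) (h3 : a % 3 ≠ 0) : Nat.Coprime a (a + 2 ^ i * 3 ^ j) := by
  rw [Nat.coprime_self_add_right]
  exact Nat.Coprime.mul_right (Nat.Coprime.pow_right i (numR_two h2)) (Nat.Coprime.pow_right j (numR_three h3))

private theorem numR_pair {n : ℕ} (a i j : ℕ) (ha : 2 ≤ a) (h2 : a % 2 = 1) (h3 : a % 3 ≠ 0)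
    (h2' : (a + 2 ^ i * 3 ^ j) % 2 = 1) (h3' : (a + 2 ^ i * 3 ^ j) % 3 ≠ 0) (hn : a + (a + 2 ^ i * 3 ^ j) + 6 = n) :
    ∃ R : List ℕ, R.Pairwise Nat.Coprime ∧
    (∀ a ∈ R, 2 ≤ a ∧ Nat.Coprime a 2 ∧ Nat.Coprime a 3) ∧ R.sum + 6 = n := by
  refine ⟨[a, a + 2 ^ i * 3 ^ j], ?_, ?_, ?_⟩
  · rw [List.pairwise_pair]
    exact numR_cop i j h2 h3
  · intro b hb
    rcases List.mem_cons.1 hb with rfl | hb
    · exact ⟨ha, numR_two h2, numR_three h3⟩
    · rw [List.mem_singleton] at hb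
      subst hb
      exact ⟨by omega, numR_two h2', numR_three h3'⟩
  · simp only [List.sum_cons, List.sum_nil]
    omega

private theorem numR_trip {n : ℕ} (a i j : ℕ) (ha : 2 ≤ a) (h2 : a % 2 = 1) (h3 : a % 3 ≠ 0) (h5 : a % 5 ≠ 0)
    (h2' : (a + 2 ^ i * 3 ^ j) % 2 = 1) (h3' : (a + 2 ^ i * 3 ^ j) % 3 ≠ 0) (h5' : (a + 2 ^ i * 3 ^ j) % 5 ≠ 0)
    (hn : 5 + (a + (a + 2 ^ i * 3 ^ j)) + 6 = n) :
    ∃ R : List ℕ, R.Pairwise Nat.Coprime ∧
    (∀ a ∈ R, 2 ≤ a ∧ Nat.Coprime a 2 ∧ Nat.Coprime a 3) ∧ R.sum + 6 = n := by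
  refine ⟨[5, a, a + 2 ^ i * 3 ^ j], ?_, ?_, ?_⟩
  · rw [List.pairwise_cons, List.pairwise_pair]
    refine ⟨?_, numR_cop i j h2 h3⟩
    intro b hb
    rcases List.mem_cons.1 hb with rfl | hb
    · exact numR_five h5
    · rw [List.mem_singleton] at hb
      subst hb
      exact numR_five h5'
  · intro b hb
    rcases List.mem_cons.1 hb with rfl | hb
    · exact ⟨by norm_num, numR_two (by norm_num), numR_three (by norm_num)⟩
    rcases List.mem_cons.1 hb with rfl | hb
    · exact ⟨ha, numR_two h2, numR_three h3⟩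
    · rw [List.mem_singleton] at hb
      subst hb
      exact ⟨by omega, numR_two h2', numR_three h3'⟩
  · simp only [List.sum_cons, List.sum_nil]
    omega

/-- PROOF. `m = n - 6`. `m = 0`: `[]`. `m ≥ 5`, `m ≡ ±1` mod `6`: `[m]`. `m` even, `h = m / 2`: `[h - d, h + d]` with `d = 1` (`h ≡ 0` mod `6`), `d = 2` (`h ≡ 3`), `d = 3` (`h ≡ ±2`, `h ≥ 8`),
`d = 6` (`h ≡ ±1`, `h ≥ 11`): `h ± d` are prime to `6` and `gcd (h - d, h + d) ∣ 2 d` hence `1`. `m ≡ 3` mod `6`, `m ≥ 33`: `[5, h - d, h + d]`, `h = (m - 5) / 2 ≡ 2` mod `3`, `d = 3` or `9` (`h` even), `d = 6` or `12`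
(`h` odd), with `h - d, h + d` not divisible by `5`. -/
theorem numR {n : ℕ} (hn : 6 ≤ n) (hL : n ∉ L) : ∃ R : List ℕ, R.Pairwise Nat.Coprime ∧
    (∀ a ∈ R, 2 ≤ a ∧ Nat.Coprime a 2 ∧ Nat.Coprime a 3) ∧ R.sum + 6 = n := by
  have hL' : n ≠ 7 ∧ n ≠ 8 ∧ n ≠ 9 ∧ n ≠ 10 ∧ n ≠ 12 ∧ n ≠ 14 ∧ n ≠ 15 ∧ n ≠ 16 ∧ n ≠ 20 ∧ n ≠ 21 ∧ n ≠ 27 ∧ n ≠ 33 := by
    refine ⟨?_, ?_, ?_, ?_, ?_, ?_, ?_, ?_, ?_, ?_, ?_, ?_⟩ <;> · rintro rfl; exact hL (by decide)
  obtain ⟨m, rfl⟩ : ∃ m, n = m + 6 := ⟨n - 6, by omega⟩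
  clear hL
  rcases Nat.eq_zero_or_pos m with hm0 | hm0
  · subst hm0
    exact ⟨[], List.Pairwise.nil, by simp, rfl⟩
  by_cases hodd : m % 6 = 1 ∨ m % 6 = 5
  · refine ⟨[m], List.pairwise_singleton _ _, ?_, ?_⟩
    · intro b hb
      rw [List.mem_singleton] at hb
      subst hb
      exact ⟨by omega, numR_two (by omega), numR_three (by omega)⟩
    · simp
  by_cases hev : m % 2 = 0
  · obtain ⟨h, rfl⟩ : ∃ h, m = 2 * h := ⟨m / 2, by omega⟩
    have h67 : 6 ≤ h ∧ h ≠ 7 := by omega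
    clear hL' hodd hev
    by_cases h0 : h % 6 = 0
    · exact numR_pair (h - 1) 1 0 (by omega) (by omega) (by omega) (by omega) (by omega) (by omega)
    by_cases h3 : h % 6 = 3
    · exact numR_pair (h - 2) 2 0 (by omega) (by omega) (by omega) (by omega) (by omega) (by omega)
    by_cases h2 : h % 6 = 2 ∨ h % 6 = 4
    · exact numR_pair (h - 3) 1 1 (by omega) (by omega) (by omega) (by omega) (by omega) (by omega)
    · exact numR_pair (h - 6) 2 1 (by omega) (by omega) (by omega) (by omega) (by omega) (by omega)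
  · have hm33 : 33 ≤ m ∧ m % 6 = 3 := by omega
    clear hL' hodd hev hm0 hn
    obtain ⟨h, rfl⟩ : ∃ h, m = 2 * h + 5 := ⟨(m - 5) / 2, by omega⟩
    have h14 : 14 ≤ h ∧ h % 3 = 2 := by omega
    clear hm33
    by_cases hh : h % 2 = 0
    · by_cases h5 : h % 5 = 2 ∨ h % 5 = 3
      · exact numR_trip (h - 9) 1 2 (by omega) (by omega) (by omega) (by omega) (by omega) (by omega) (by omega) (by omega)
      · exact numR_trip (h - 3) 1 1 (by omega) (by omega) (by omega) (by omega) (by omega) (by omega) (by omega) (by omega)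
    · by_cases h5 : h % 5 = 1 ∨ h % 5 = 4
      · exact numR_trip (h - 12) 3 1 (by omega) (by omega) (by omega) (by omega) (by omega) (by omega) (by omega) (by omega)
      · exact numR_trip (h - 6) 2 1 (by omega) (by omega) (by omega) (by omega) (by omega) (by omega) (by omega) (by omega)
-- END numR

theorem numA {n : ℕ} (hn : 6 ≤ n) (hL : n ∉ L) : ∃ (f₁ f₂ : ℕ) (l₁ l₂ : List ℕ), f₁ ≤ 1 ∧ f₂ ≤ 1 ∧ Cp n f₁ l₁ ∧ Cp n f₂ l₂ ∧
    f₁.factorial * l₁.prod = f₂.factorial * l₂.prod ∧ (l₁ : Multiset ℕ) ≠ (l₂ : Multiset ℕ) := by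
  obtain ⟨R, h1, h2, h3⟩ := numR hn hL
  refine ⟨0, 1, 6 :: R, 3 :: 2 :: R, by norm_num, le_rfl, ⟨?_, ?_, ?_⟩, ⟨?_, ?_, ?_⟩, ?_, ?_⟩
  · refine List.pairwise_cons.2 ⟨fun a ha => ?_, h1⟩
    have h := h2 a ha
    exact (Nat.Coprime.mul_left h.2.1.symm h.2.2.symm : Nat.Coprime (2 * 3) a)
  · intro a ha
    rcases List.mem_cons.1 ha with rfl | ha
    · norm_num
    · exact (h2 a ha).1
  · simp only [List.sum_cons]; omega
  · refine List.pairwise_cons.2 ⟨fun a ha => ?_, List.pairwise_cons.2 ⟨fun a ha => (h2 a ha).2.1.symm, h1⟩⟩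
    rcases List.mem_cons.1 ha with rfl | ha
    · norm_num
    · exact (h2 a ha).2.2.symm
  · intro a ha
    rcases List.mem_cons.1 ha with rfl | ha
    · norm_num
    · rcases List.mem_cons.1 ha with rfl | ha
      · norm_num
      · exact (h2 a ha).1
  · simp only [List.sum_cons]; omega
  · simp only [List.prod_cons, Nat.factorial]; ring
  · intro h
    have := congrArg Multiset.card h
    simp at this

theorem numB {n : ℕ} (hL : n ∈ L) : ∃ (f₁ f₂ : ℕ) (l₁ l₂ : List ℕ), f₁ ≤ 2 ∧ f₂ ≤ 2 ∧ Cp n f₁ l₁ ∧ Cp n f₂ l₂ ∧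
    f₁.factorial * l₁.prod = f₂.factorial * l₂.prod ∧ (l₁ : Multiset ℕ) ≠ (l₂ : Multiset ℕ) := by
  fin_cases hL
  · exact ⟨0, 2, [4], [2], by decide, by decide, ⟨by decide, by decide, by decide⟩, ⟨by decide, by decide, by decide⟩, by decide, by decide⟩
  · exact ⟨0, 2, [3, 2], [3], by decide, by decide, ⟨by decide, by decide, by decide⟩, ⟨by decide, by decide, by decide⟩, by decide, by decide⟩
  · exact ⟨0, 2, [5, 2], [5], by decide, by decide, ⟨by decide, by decide, by decide⟩, ⟨by decide, by decide, by decide⟩, by decide, by decide⟩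
  · exact ⟨1, 2, [4, 3], [6], by decide, by decide, ⟨by decide, by decide, by decide⟩, ⟨by decide, by decide, by decide⟩, by decide, by decide⟩
  · exact ⟨0, 2, [7, 2], [7], by decide, by decide, ⟨by decide, by decide, by decide⟩, ⟨by decide, by decide, by decide⟩, by decide, by decide⟩
  · exact ⟨0, 2, [5, 3, 2], [5, 3], by decide, by decide, ⟨by decide, by decide, by decide⟩, ⟨by decide, by decide, by decide⟩, by decide, by decide⟩
  · exact ⟨0, 2, [7, 3, 2], [7, 3], by decide, by decide, ⟨by decide, by decide, by decide⟩, ⟨by decide, by decide, by decide⟩, by decide, by decide⟩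
  · exact ⟨0, 2, [7, 5, 2], [7, 5], by decide, by decide, ⟨by decide, by decide, by decide⟩, ⟨by decide, by decide, by decide⟩, by decide, by decide⟩
  · exact ⟨0, 2, [13, 2], [13], by decide, by decide, ⟨by decide, by decide, by decide⟩, ⟨by decide, by decide, by decide⟩, by decide, by decide⟩
  · exact ⟨0, 2, [11, 3, 2], [11, 3], by decide, by decide, ⟨by decide, by decide, by decide⟩, ⟨by decide, by decide, by decide⟩, by decide, by decide⟩
  · exact ⟨0, 2, [13, 5, 2], [13, 5], by decide, by decide, ⟨by decide, by decide, by decide⟩, ⟨by decide, by decide, by decide⟩, by decide, by decide⟩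
  · exact ⟨0, 2, [19, 2], [19], by decide, by decide, ⟨by decide, by decide, by decide⟩, ⟨by decide, by decide, by decide⟩, by decide, by decide⟩
  · exact ⟨0, 2, [25, 2], [25], by decide, by decide, ⟨by decide, by decide, by decide⟩, ⟨by decide, by decide, by decide⟩, by decide, by decide⟩
  · exact ⟨0, 2, [31, 2], [31], by decide, by decide, ⟨by decide, by decide, by decide⟩, ⟨by decide, by decide, by decide⟩, by decide, by decide⟩

theorem noMod {n : ℕ} (hL : n ∈ L) : NoMod n 2 ∧ NoMod n 3 := by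
  fin_cases hL
  · exact ⟨nm4_2, nm4_3⟩
  · exact ⟨nm5_2, nm5_3⟩
  · exact ⟨nm7_2, nm7_3⟩
  · exact ⟨nm8_2, nm8_3⟩
  · exact ⟨nm9_2, nm9_3⟩
  · exact ⟨nm10_2, nm10_3⟩
  · exact ⟨nm12_2, nm12_3⟩
  · exact ⟨nm14_2, nm14_3⟩
  · exact ⟨nm15_2, nm15_3⟩
  · exact ⟨nm16_2, nm16_3⟩
  · exact ⟨nm20_2, nm20_3⟩
  · exact ⟨nm21_2, nm21_3⟩
  · exact ⟨nm27_2, nm27_3⟩
  · exact ⟨nm33_2, nm33_3⟩

/-- The order of the centralizer over a permutation of coprime type. -/
theorem cent_over {G : Type} [Group G] [Finite G] (hG : Ah G) {n : ℕ} (π : G →* Perm (Fin n))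
    (hπ : Function.Surjective π) [Group.IsNilpotent π.ker] {f : ℕ} {l : List ℕ} (hl : Cp n f l) (hf : f ≤ 2)
    (h23 : f ≤ 1 ∨ ((∀ v, π v = 1 → v ^ 2 = 1 → v = 1) ∧ ∀ v, π v = 1 → v ^ 3 = 1 → v = 1)) :
    ∃ x : G, (π x).cycleType = (l : Multiset ℕ) ∧ Nat.card (Subgroup.centralizer {x}) = f.factorial * l.prod ∧
      ∀ v ∈ π.ker, x * v = v * x → v = 1 := by
  obtain ⟨σ, hσ⟩ : ∃ σ : Perm (Fin n), σ.cycleType = (l : Multiset ℕ) := by
    refine (Perm.exists_with_cycleType_iff (Fin n)).2 ⟨?_, fun a ha => hl.two a (by simpa using ha)⟩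
    have := hl.sum
    simp only [Fintype.card_fin, Multiset.sum_coe]
    omega
  obtain ⟨x, hx⟩ := hπ σ
  obtain ⟨hc, ho⟩ := cent_cp hl hσ
  have hfr : f.factorial = 1 ∧ f ≤ 1 ∨ f.factorial = 2 := by
    interval_cases f
    · left; decide
    · left; decide
    · right; decide
  have hfree : ∀ v ∈ π.ker, x * v = v * x → v = 1 := by
    refine fpfN hG π hπ (r := f.factorial) (hfr.imp (fun h => h.1) id) x ?_ ?_
    · rw [hx, hc, ho]
    · rcases h23 with h | h
      · left
        interval_cases f <;> decide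
      · exact Or.inr h
  refine ⟨x, by rw [hx, hσ], ?_, hfree⟩
  rw [full π hπ x hfree, hx, hc]

/-- Two coprime types with centralizers of the same order. -/
theorem pair {G : Type} [Group G] [Finite G] (hG : Ah G) {n : ℕ} (π : G →* Perm (Fin n))
    (hπ : Function.Surjective π) [Group.IsNilpotent π.ker] {f₁ f₂ : ℕ} {l₁ l₂ : List ℕ} (h₁ : Cp n f₁ l₁) (h₂ : Cp n f₂ l₂)
    (hf₁ : f₁ ≤ 2) (hf₂ : f₂ ≤ 2)
    (h23 : (f₁ ≤ 1 ∧ f₂ ≤ 1) ∨ ((∀ v, π v = 1 → v ^ 2 = 1 → v = 1) ∧ ∀ v, π v = 1 → v ^ 3 = 1 → v = 1))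
    (he : f₁.factorial * l₁.prod = f₂.factorial * l₂.prod) : (l₁ : Multiset ℕ) = (l₂ : Multiset ℕ) := by
  obtain ⟨x, hx, hcx, -⟩ := cent_over hG π hπ h₁ hf₁ (h23.imp (fun h => h.1) id)
  obtain ⟨y, hy, hcy, -⟩ := cent_over hG π hπ h₂ hf₂ (h23.imp (fun h => h.2) id)
  have hxy := ah_conj hG x y (by rw [hcx, hcy, he])
  have := π.map_isConj hxy
  rw [← hx, ← hy]
  exact Perm.isConj_iff_cycleType_eq.1 this

/-- No `p`-part for the pairs of the table. -/
theorem no_p {G : Type} [Group G] [Finite G] (hG : Ah G) {n p : ℕ} (hp : p.Prime) (hN : NoMod n p) (π : G →* Perm (Fin n))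
    (hπ : Function.Surjective π) [Group.IsNilpotent π.ker] : ∀ v, π v = 1 → v ^ p = 1 → v = 1 := by
  intro v₀ h1 h2
  by_contra h3
  obtain ⟨V, _, ρ, hV, ⟨w, hw⟩, hF⟩ := exists_rho π hπ hp v₀ h1 h2 h3
  refine hw (hN V ρ hV ?_ w)
  intro f l hf hl σ hσ
  obtain ⟨x, hx, -, hfree⟩ := cent_over hG π hπ hl (by omega) (Or.inl hf)
  have h := hF x hfree
  obtain ⟨g, hg⟩ := isConj_iff.1 (Perm.isConj_iff_cycleType_eq.2 (hx.trans hσ.symm))
  intro u hu
  have h4 : ρ (π x) (ρ g⁻¹ u) = ρ g⁻¹ u := by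
    have h5 : π x * g⁻¹ = g⁻¹ * σ := by rw [← hg]; group
    have h6 := congrArg (fun t => ρ t u) h5
    simp only [map_mul] at h6
    calc ρ (π x) (ρ g⁻¹ u) = ρ g⁻¹ (ρ σ u) := h6
      _ = ρ g⁻¹ u := by rw [hu]
  have h7 := h _ h4
  have h8 : ρ g (ρ g⁻¹ u) = u := by
    have : (ρ g * ρ g⁻¹) u = u := by rw [← map_mul, mul_inv_cancel, map_one]; rfl
    exact this
  rw [← h8, h7, map_zero]

theorem no_four {G : Type} [Group G] [Finite G] (hG : Ah G) {n : ℕ} (hn : 4 ≤ n) (π : G →* Perm (Fin n))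
    (hπ : Function.Surjective π) [Group.IsNilpotent π.ker] : False := by
  by_cases hL : n ∈ L
  · obtain ⟨f₁, f₂, l₁, l₂, hf₁, hf₂, h₁, h₂, he, hne⟩ := numB hL
    have h := noMod hL
    exact hne (pair hG π hπ h₁ h₂ hf₁ hf₂ (Or.inr ⟨no_p hG Nat.prime_two h.1 π hπ, no_p hG Nat.prime_three h.2 π hπ⟩) he)
  · have h6 : 6 ≤ n := by
      have h4 : n ≠ 4 := by rintro rfl; exact hL (by decide)
      have h5 : n ≠ 5 := by rintro rfl; exact hL (by decide)
      omega
    obtain ⟨f₁, f₂, l₁, l₂, hf₁, hf₂, h₁, h₂, he, hne⟩ := numA h6 hL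
    exact hne (pair hG π hπ h₁ h₂ (by omega) (by omega) (Or.inl ⟨hf₁, hf₂⟩) he)

-- BEGIN inv
/-- PROOF. The map `v ↦ v⁻¹ * (x v x⁻¹)` of the finite group `ker π` is injective, hence surjective, and `x² ∈ ker` commutes with `x`, so `x ^ 2 = 1`: conjugation by `x` is a fixed point free
involution (`MonoidHom.FixedPointFree.coe_eq_inv_of_involutive` in Mathlib.GroupTheory.FixedPointFree). -/
theorem inv_of {G H : Type*} [Group G] [Finite G] [Group H] (π : G →* H) (x : G) (hx : π x ^ 2 = 1)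
    (h : ∀ v ∈ π.ker, x * v = v * x → v = 1) : x ^ 2 = 1 ∧ ∀ v ∈ π.ker, x * v * x⁻¹ = v⁻¹ := by
  have h1 : x ^ 2 = 1 := h _ (by rw [MonoidHom.mem_ker, map_pow, hx]) (by rw [← pow_succ', ← pow_succ])
  refine ⟨h1, fun v hv => ?_⟩
  let φ : π.ker →* π.ker := (MulAut.conjNormal x : MulAut π.ker).toMonoidHom
  have hφ : ∀ w : π.ker, ((φ w : π.ker) : G) = x * w * x⁻¹ := fun w => MulAut.conjNormal_apply x w
  have hf : MonoidHom.FixedPointFree φ := by
    intro w hw
    apply Subtype.ext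
    refine h w.1 w.2 ?_
    have h2 := congrArg Subtype.val hw
    rw [hφ, mul_inv_eq_iff_eq_mul] at h2
    exact h2
  have hi : Function.Involutive φ := by
    intro w
    apply Subtype.ext
    rw [hφ, hφ]
    have h3 : x * x = 1 := by rw [← sq, h1]
    calc x * (x * (w : G) * x⁻¹) * x⁻¹ = (x * x) * (w : G) * (x * x)⁻¹ := by group
      _ = w := by rw [h3, one_mul, inv_one, mul_one]
  have h4 := hf.coe_eq_inv_of_involutive hi
  have h5 := congrArg Subtype.val (congrFun h4 ⟨v, hv⟩)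
  rw [hφ] at h5
  exact h5
-- END inv

-- BEGIN n3
/-- PROOF. `cent_over` for `[2]`, `f = 1` gives `x` over a transposition, acting freely on `N = ker π`; a conjugate `y = g x g⁻¹` lies over another transposition and also acts freely
(`N` is normal). By `inv_of` both invert `N`, so `x * y` centralizes `N`. `π (x * y)` has cycle type `{3}`; by `cent_over` for `[3]`, `f = 0`, some `z` over an element of the same cycle type acts
freely, so `x y` (conjugate to an element of `z N`.. or: apply `fpfN` to `x * y` directly, with `cent_cp`) acts freely: `N = 1`. -/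
theorem n3 {G : Type} [Group G] [Finite G] (hG : Ah G) (π : G →* Perm (Fin 3)) (hπ : Function.Surjective π)
    [Group.IsNilpotent π.ker] : Nonempty (G ≃* Perm (Fin 3)) := by
  obtain ⟨x, hx, -, hfree⟩ := cent_over hG π hπ (f := 1) (l := [2]) ⟨by decide, by decide, by decide⟩ (by norm_num)
    (Or.inl le_rfl)
  have ho : orderOf (π x) = 2 := by
    have h := (cent_cp (n := 3) (f := 1) (l := [2]) ⟨by decide, by decide, by decide⟩ hx).2
    simpa using h
  have h2 : π x ^ 2 = 1 := by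
    rw [← ho]
    exact pow_orderOf_eq_one _
  have h1 : π x ≠ 1 := by
    intro h
    rw [h, orderOf_one] at ho
    exact absurd ho (by norm_num)
  obtain ⟨-, hinv⟩ := inv_of π x h2 hfree
  have hdec : ∀ σ : Perm (Fin 3), σ ^ 2 = 1 → σ ≠ 1 →
      ∃ τ : Perm (Fin 3), (σ * (τ * σ * τ⁻¹)) ^ 3 = 1 ∧ σ * (τ * σ * τ⁻¹) ≠ 1 := by
    intro σ h2 h1
    refine ⟨finRotate 3, ?_⟩
    revert σ
    set_option maxRecDepth 100000 in decide
  obtain ⟨τ, h3, h4⟩ := hdec (π x) h2 h1
  obtain ⟨g, rfl⟩ := hπ τ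
  have hw : π (x * (g * x * g⁻¹)) = π x * (π g * π x * (π g)⁻¹) := by
    simp only [map_mul, map_inv]
  have ho3 : orderOf (π (x * (g * x * g⁻¹))) = 3 := by
    rw [hw]
    exact orderOf_eq_prime h3 h4
  have hct : (π (x * (g * x * g⁻¹))).cycleType = (([3] : List ℕ) : Multiset ℕ) := by
    have hcy : (π (x * (g * x * g⁻¹))).IsCycle := by
      apply Equiv.Perm.isCycle_of_prime_order''
      · rw [Fintype.card_fin]
        exact Nat.prime_three
      · rw [Fintype.card_fin, ho3]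
    rw [hcy.cycleType, ← hcy.orderOf, ho3]
    rfl
  have hcc := cent_cp (n := 3) (f := 0) (l := [3]) ⟨by decide, by decide, by decide⟩ hct
  have hfw : ∀ v ∈ π.ker, (x * (g * x * g⁻¹)) * v = v * (x * (g * x * g⁻¹)) → v = 1 := by
    refine fpfN hG π hπ (r := 1) (Or.inl rfl) _ ?_ (Or.inl rfl)
    rw [hcc.1, ho3]
    decide
  have hker : ∀ v ∈ π.ker, v = 1 := by
    intro v hv
    apply hfw v hv
    have hn : g⁻¹ * v * g ∈ π.ker := by
      rw [MonoidHom.mem_ker] at hv ⊢
      rw [map_mul, map_mul, hv, mul_one, map_inv, inv_mul_cancel]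
    have e1 := hinv _ hn
    have e2 := hinv _ (π.ker.inv_mem hv)
    have e3 : (g * x * g⁻¹) * v * (g * x * g⁻¹)⁻¹ = v⁻¹ := by
      calc (g * x * g⁻¹) * v * (g * x * g⁻¹)⁻¹ = g * (x * (g⁻¹ * v * g) * x⁻¹) * g⁻¹ := by group
        _ = v⁻¹ := by
          rw [e1]
          group
    have e4 : (x * (g * x * g⁻¹)) * v * (x * (g * x * g⁻¹))⁻¹ = v := by
      calc (x * (g * x * g⁻¹)) * v * (x * (g * x * g⁻¹))⁻¹ = x * ((g * x * g⁻¹) * v * (g * x * g⁻¹)⁻¹) * x⁻¹ := by group
        _ = v := by rw [e3, e2, inv_inv]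
    exact mul_inv_eq_iff_eq_mul.1 e4
  exact ⟨MulEquiv.ofBijective π ⟨(injective_iff_map_eq_one π).2 fun v hv => hker v hv, hπ⟩⟩
-- END n3

-- BEGIN n2
private theorem n2_fin {G : Type} [Group G] [Finite G] (x v : G) (hx2 : x ^ 2 = 1) (hx1 : x ≠ 1) (hG6 : Nat.card G = 6)
    (hv2 : v ^ 2 ≠ 1) (hxv : x * v * x⁻¹ = v⁻¹) (hvx : v ^ 2 * x ≠ 1) : Nonempty (G ≃* Perm (Fin 3)) := by
  have ho : orderOf x = 2 := orderOf_eq_prime hx2 hx1
  have hcard : Nat.card (Subgroup.zpowers x) = 2 := by rw [Nat.card_zpowers, ho]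
  have hq : Nat.card (G ⧸ Subgroup.zpowers x) = 3 := by
    have h := Subgroup.card_eq_card_quotient_mul_card_subgroup (Subgroup.zpowers x)
    rw [hG6, hcard] at h
    omega
  have hmem : ∀ g ∈ Subgroup.zpowers x, g = 1 ∨ g = x := by
    intro g hg
    obtain ⟨k, rfl⟩ := Subgroup.mem_zpowers_iff.1 hg
    rcases Int.even_or_odd' k with ⟨j, rfl | rfl⟩
    · left
      rw [zpow_mul, zpow_ofNat, hx2, one_zpow]
    · right
      rw [zpow_add, zpow_mul, zpow_ofNat, hx2, one_zpow, one_mul, zpow_one]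
  have hinj : Function.Injective (MulAction.toPermHom G (G ⧸ Subgroup.zpowers x)) := by
    rw [injective_iff_map_eq_one]
    intro g hg
    have h1 : g ∈ (Subgroup.zpowers x).normalCore := by
      rw [Subgroup.normalCore_eq_ker]
      exact hg
    rcases hmem g (Subgroup.normalCore_le _ h1) with h | h
    · exact h
    · exfalso
      subst h
      have h2 : v * g * v⁻¹ ∈ (Subgroup.zpowers g).normalCore :=
        (Subgroup.normalCore_normal (Subgroup.zpowers g)).conj_mem g h1 v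
      have h3 : v * g * v⁻¹ = v ^ 2 * g := by
        have h4 : g * v⁻¹ = v * g := by
          have h6 : v = g * v⁻¹ * g⁻¹ := by
            calc v = (g * v * g⁻¹)⁻¹ := by rw [hxv, inv_inv]
              _ = g * v⁻¹ * g⁻¹ := by group
          calc g * v⁻¹ = (g * v⁻¹ * g⁻¹) * g := by group
            _ = v * g := by rw [← h6]
        rw [mul_assoc, h4, ← mul_assoc, pow_two]
      rw [h3] at h2
      rcases hmem _ (Subgroup.normalCore_le _ h2) with h | h
      · exact hvx h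
      · exact hv2 (mul_eq_right.1 h)
  have : Finite (G ⧸ Subgroup.zpowers x) := Quotient.finite _
  let e : (G ⧸ Subgroup.zpowers x) ≃ Fin 3 := Finite.equivFinOfCardEq hq
  let φ : G →* Perm (Fin 3) := (e.permCongrHom.toMonoidHom).comp (MulAction.toPermHom G (G ⧸ Subgroup.zpowers x))
  have hφ : Function.Injective φ := e.permCongrHom.injective.comp hinj
  have hb : Function.Bijective φ := by
    refine (Nat.bijective_iff_injective_and_card φ).2 ⟨hφ, ?_⟩
    rw [hG6, Nat.card_eq_fintype_card, Fintype.card_perm, Fintype.card_fin]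
    rfl
  exact ⟨MulEquiv.ofBijective φ hb⟩

/-- PROOF. `x` over the transposition acts freely on `N = ker π` (`cent_over` for `[2]`, `f = 0`), `inv_of`: `x ^ 2 = 1` and `x` inverts `N`, so `N` is abelian and the class of `v ∈ N`, `v ≠ 1`, is
`{v, v⁻¹}` with `v ≠ v⁻¹` (otherwise `x` commutes with `v`). So by `hG` all `v ≠ 1` in `N` are in one class, `|N| ≤ 3`. `|N| = 1`: the classes of `1` and `x` have size `1`. `|N| = 2` is impossible
(`v = v⁻¹`). `|N| = 3`: `|G| = 6`, and `G` acts faithfully on the three cosets of `{1, x}` (or on the three involutions). -/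
theorem n2 {G : Type} [Group G] [Finite G] (hG : Ah G) (π : G →* Perm (Fin 2)) (hπ : Function.Surjective π)
    [Group.IsNilpotent π.ker] : Nonempty (G ≃* Perm (Fin 3)) := by
  have hCp : Cp 2 0 [2] := ⟨List.pairwise_singleton _ _, by intro a ha; rw [List.mem_singleton] at ha; omega, by simp⟩
  obtain ⟨x, hx, hcx, hfree⟩ := cent_over hG π hπ hCp (by norm_num) (Or.inl (by norm_num))
  have hP2 : ∀ s : Perm (Fin 2), s ^ 2 = 1 := by decide
  obtain ⟨hx2, hinv⟩ := inv_of π x (hP2 _) hfree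
  have hπx : π x ≠ 1 := by
    intro h
    rw [h, Perm.cycleType_one] at hx
    have := congrArg Multiset.card hx
    simp at this
  have hx1 : x ≠ 1 := fun h => hπx (by rw [h, map_one])
  have hcomm : ∀ a ∈ π.ker, ∀ b ∈ π.ker, a * b = b * a := by
    intro a ha b hb
    have h1 := hinv (b⁻¹ * a⁻¹) (mul_mem (inv_mem hb) (inv_mem ha))
    have h2 : x * (b⁻¹ * a⁻¹) * x⁻¹ = (x * b⁻¹ * x⁻¹) * (x * a⁻¹ * x⁻¹) := by group
    rw [h2, hinv _ (inv_mem hb), hinv _ (inv_mem ha), inv_inv, inv_inv, mul_inv_rev, inv_inv, inv_inv] at h1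
    exact h1.symm
  have hd : ∀ g : G, g ∈ π.ker ∨ ∃ n ∈ π.ker, g = x * n := by
    intro g
    by_cases hg : π g = 1
    · exact Or.inl hg
    · right
      refine ⟨x⁻¹ * g, ?_, by group⟩
      have h1 : ∀ s t : Perm (Fin 2), s ≠ 1 → t ≠ 1 → s⁻¹ * t = 1 := by decide
      rw [MonoidHom.mem_ker, map_mul, map_inv]
      exact h1 _ _ hπx hg
  have hvv : ∀ v ∈ π.ker, v ≠ 1 → v⁻¹ ≠ v := by
    intro v hv hv1 h
    apply hv1
    apply hfree v hv
    have := hinv v hv
    rw [h] at this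
    exact mul_inv_eq_iff_eq_mul.1 this
  have hcent : ∀ v ∈ π.ker, v ≠ 1 → Subgroup.centralizer {v} = π.ker := by
    intro v hv hv1
    ext g
    rw [Subgroup.mem_centralizer_singleton_iff]
    constructor
    · intro h
      rcases hd g with hg | ⟨n, hn, rfl⟩
      · exact hg
      · exfalso
        apply hvv v hv hv1
        have h1 : x * n * v * (x * n)⁻¹ = v := by rw [h]; group
        have h2 : x * n * v * (x * n)⁻¹ = x * (n * v * n⁻¹) * x⁻¹ := by group
        rw [h2, hcomm n hn v hv, mul_inv_cancel_right, hinv v hv] at h1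
        exact h1
    · intro hg
      exact hcomm g hg v hv
  have hconj : ∀ v ∈ π.ker, v ≠ 1 → ∀ w ∈ π.ker, w ≠ 1 → w = v ∨ w = v⁻¹ := by
    intro v hv hv1 w hw hw1
    obtain ⟨g, hg⟩ := isConj_iff.1 (ah_conj hG v w (by rw [hcent v hv hv1, hcent w hw hw1]))
    rcases hd g with hg' | ⟨n, hn, rfl⟩
    · left
      rw [← hg, hcomm g hg' v hv, mul_inv_cancel_right]
    · right
      rw [← hg]
      have h2 : x * n * v * (x * n)⁻¹ = x * (n * v * n⁻¹) * x⁻¹ := by group
      rw [h2, hcomm n hn v hv, mul_inv_cancel_right, hinv v hv]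
  have hidx : π.ker.index = 2 := by
    rw [Subgroup.index_ker, MonoidHom.range_eq_top.2 hπ, Subgroup.card_top, Nat.card_eq_fintype_card, Fintype.card_perm,
      Fintype.card_fin]
    rfl
  have hcG : Nat.card π.ker * 2 = Nat.card G := by
    have h := Subgroup.card_mul_index π.ker
    rwa [hidx] at h
  by_cases hN : ∃ v ∈ π.ker, v ≠ 1
  · obtain ⟨v, hv, hv1⟩ := hN
    have hset : (π.ker : Set G) = {1, v, v⁻¹} := by
      ext w
      simp only [Set.mem_insert_iff, Set.mem_singleton_iff, SetLike.mem_coe]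
      constructor
      · intro hw
        by_cases hw1 : w = 1
        · exact Or.inl hw1
        · exact Or.inr (hconj v hv hv1 w hw hw1)
      · rintro (rfl | rfl | rfl)
        · exact one_mem _
        · exact hv
        · exact inv_mem hv
    have hc3 : Nat.card π.ker = 3 := by
      have h1 : (π.ker : Set G).ncard = 3 := by
        rw [hset]
        exact Set.ncard_eq_three.2 ⟨1, v, v⁻¹, (Ne.symm hv1), fun h => hv1 (inv_eq_one.1 h.symm), (hvv v hv hv1).symm, rfl⟩
      rw [← h1]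
      rfl
    refine n2_fin x v hx2 hx1 (by omega) ?_ (hinv v hv) ?_
    · intro h
      apply hvv v hv hv1
      rw [pow_two] at h
      exact (eq_inv_of_mul_eq_one_left h).symm
    · intro h
      have h1 : π (v ^ 2 * x) = 1 := by rw [h, map_one]
      rw [map_mul, map_pow, (MonoidHom.mem_ker).1 hv, one_pow, one_mul] at h1
      exact hπx h1
  · exfalso
    push Not at hN
    have hbot : π.ker = ⊥ := (Subgroup.eq_bot_iff_forall _).2 hN
    have hc1 : Nat.card π.ker = 1 := by rw [hbot]; simp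
    have hc2 : Nat.card G = 2 := by omega
    have h1 : Nat.card (Subgroup.centralizer {(1 : G)}) = Nat.card (Subgroup.centralizer {x}) := by
      rw [hcx]
      have : Subgroup.centralizer {(1 : G)} = ⊤ := by
        ext g
        rw [Subgroup.mem_centralizer_singleton_iff]
        simp
      rw [this, Subgroup.card_top, hc2]
      simp
    obtain ⟨g, hg⟩ := isConj_iff.1 (ah_conj hG 1 x h1)
    exact hx1 (by rw [← hg]; group)
-- END n2

-- BEGIN n1
/-- PROOF. The classes of central elements have size `1`, so the centre is trivial; a nontrivial nilpotent group has a nontrivial centre. -/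
theorem n1 {G : Type*} [Group G] [Finite G] (hG : Ah G) [Group.IsNilpotent G] : Nat.card G = 1 := by
  by_contra hne
  haveI hnt : Nontrivial G := by
    by_contra hs
    rw [not_nontrivial_iff_subsingleton] at hs
    haveI := hs
    exact hne (Nat.card_of_subsingleton (1 : G))
  have hz : Subgroup.center G ≠ ⊥ := Group.IsNilpotent.center_ne_bot G
  obtain ⟨z, hzc, hz1⟩ := (Subgroup.ne_bot_iff_exists_ne_one.1 hz) |>.elim
    (fun z h => (⟨z.1, z.2, fun h1 => h (Subtype.ext h1)⟩ : ∃ z : G, z ∈ Subgroup.center G ∧ z ≠ 1))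
  have key : ∀ c : G, c ∈ Subgroup.center G → Nat.card (ConjClasses.mk c).carrier = 1 := by
    intro c hc
    have : (ConjClasses.mk c).carrier = {c} := by
      ext d
      rw [ConjClasses.mem_carrier_iff_mk_eq, ConjClasses.mk_eq_mk_iff_isConj, Set.mem_singleton_iff]
      constructor
      · intro h
        obtain ⟨g, hg⟩ := isConj_iff.1 h.symm
        rw [← hg, Subgroup.mem_center_iff.1 hc g, mul_inv_cancel_right]
      · rintro rfl
        exact IsConj.refl _
    rw [this]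
    exact Nat.card_unique
  have h := hG (ConjClasses.mk z) (ConjClasses.mk 1)
    ((key z hzc).trans (key 1 (Subgroup.one_mem _)).symm)
  rw [ConjClasses.mk_eq_mk_iff_isConj, isConj_one_left] at h
  exact hz1 h
-- END n1

-- BEGIN selfc
/-- PROOF. `π = QuotientGroup.mk' N`. Lifts `x, y` of `s, t`: `fpfN` with `r = 1`, `full`, `ah_conj`, map the conjugacy down. (`Nat.card (zpowers s) = orderOf s`.) -/
theorem selfc {G : Type*} [Group G] [Finite G] (hG : Ah G) (N : Subgroup G) [N.Normal] [Group.IsNilpotent N] (s t : G ⧸ N)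
    (hs : Subgroup.centralizer {s} = Subgroup.zpowers s) (ht : Subgroup.centralizer {t} = Subgroup.zpowers t)
    (h : orderOf s = orderOf t) : IsConj s t := by
  have hker : (QuotientGroup.mk' N).ker = N := QuotientGroup.ker_mk' N
  have hnil : Group.IsNilpotent (QuotientGroup.mk' N).ker :=
    (Group.isNilpotent_congr (MulEquiv.subgroupCongr hker)).2 inferInstance
  have hsur : Function.Surjective (QuotientGroup.mk' N) := QuotientGroup.mk'_surjective N
  have key : ∀ s : G ⧸ N, Subgroup.centralizer {s} = Subgroup.zpowers s →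
      ∃ x : G, QuotientGroup.mk' N x = s ∧ Nat.card (Subgroup.centralizer {x}) = orderOf s := by
    intro s hs
    obtain ⟨x, hx⟩ := hsur s
    refine ⟨x, hx, ?_⟩
    have hc : Nat.card (Subgroup.centralizer {QuotientGroup.mk' N x}) = 1 * orderOf (QuotientGroup.mk' N x) := by
      rw [hx, hs, one_mul, Nat.card_zpowers]
    have hf := fpfN hG (QuotientGroup.mk' N) hsur (r := 1) (Or.inl rfl) x hc (Or.inl rfl)
    rw [full (QuotientGroup.mk' N) hsur x hf, hc, one_mul, hx]
  obtain ⟨x, hx, hcx⟩ := key s hs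
  obtain ⟨y, hy, hcy⟩ := key t ht
  have hxy := ah_conj hG x y (by rw [hcx, hcy, h])
  have := (QuotientGroup.mk' N).map_isConj hxy
  rwa [hx, hy] at this
-- END selfc

theorem main {G : Type} [Group G] [Finite G] (hG : Ah G) (N : Subgroup G) [N.Normal] [hN : Group.IsNilpotent N] (n : ℕ)
    (e : G ⧸ N ≃* Perm (Fin n)) : Nat.card G = 1 ∨ Nonempty (G ≃* Perm (Fin 3)) := by
  have key : ∃ π : G →* Perm (Fin n), Function.Surjective π ∧ π.ker = N := by
    refine ⟨e.toMonoidHom.comp (QuotientGroup.mk' N), ?_, ?_⟩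
    · exact e.surjective.comp (QuotientGroup.mk'_surjective N)
    · ext g
      rw [MonoidHom.mem_ker]
      show e (QuotientGroup.mk' N g) = 1 ↔ g ∈ N
      rw [map_eq_one_iff e e.injective]
      exact QuotientGroup.eq_one_iff g
  obtain ⟨π, hπ, hker⟩ := key
  subst hker
  rcases Nat.lt_or_ge n 4 with hn | hn
  · interval_cases n
    · left
      have hG' : Group.IsNilpotent G := by
        have h1 : (⊤ : Subgroup G) ≤ π.ker := fun g _ => Subsingleton.elim _ _
        have e1 : π.ker ≃* G := (MulEquiv.subgroupCongr (top_le_iff.1 h1)).trans Subgroup.topEquiv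
        exact Group.isNilpotent_congr e1 |>.1 hN
      exact n1 hG
    · left
      have hG' : Group.IsNilpotent G := by
        have h1 : (⊤ : Subgroup G) ≤ π.ker := fun g _ => Subsingleton.elim _ _
        have e1 : π.ker ≃* G := (MulEquiv.subgroupCongr (top_le_iff.1 h1)).trans Subgroup.topEquiv
        exact Group.isNilpotent_congr e1 |>.1 hN
      exact n1 hG
    · exact Or.inr (n2 hG π hπ)
    · exact Or.inr (n3 hG π hπ)
  · exact (no_four hG hn π hπ).elim

end Pool.Agent.NbS
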