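import Pool.Agent.NbS.Defs

/-!
# The group theoretic part
-/

set_option autoImplicit false
set_option linter.unusedSectionVars false

namespace Pool.Agent.NbS

open Equiv

-- BEGIN ah_conj
/-- PROOF. The class of `x` is the orbit under conjugation, its size times the order of the centralizer is `|G|`
(`MulAction.card_orbit_mul_card_stabilizer_eq_card_group` for `ConjAct G`, or `Group.card_conjAct..`,
`ConjClasses.card_carrier` / `Subgroup.nat_card_centralizer_nat_card_stabilizer`; search Mathlib). -/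
theorem ah_conj {G : Type*} [Group G] [Finite G] (hG : Ah G) (x y : G)
    (h : Nat.card (Subgroup.centralizer {x}) = Nat.card (Subgroup.centralizer {y})) : IsConj x y := by
  have key : ∀ z : G, Nat.card (ConjClasses.mk z).carrier * Nat.card (Subgroup.centralizer {z}) = Nat.card G := by
    intro z
    rw [Subgroup.nat_card_centralizer_nat_card_stabilizer, ← ConjAct.orbit_eq_carrier_conjClasses, ← Nat.card_prod]
    exact Nat.card_congr ((MulAction.orbitProdStabilizerEquivGroup (ConjAct G) z).trans ConjAct.ofConjAct.toEquiv)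
  apply ConjClasses.mk_eq_mk_iff_isConj.1
  apply hG
  have h1 := (key x).trans (key y).symm
  rw [h] at h1
  exact Nat.eq_of_mul_eq_mul_right Nat.card_pos h1
-- END ah_conj

-- BEGIN pig
private theorem pig_geom (p a : ℕ) (hp : 1 ≤ p) :
    ∑ j ∈ Finset.range a, (p - 1) * p ^ j + 1 = p ^ a := by
  induction a with
  | zero => simp
  | succ a ih =>
    rw [Finset.sum_range_succ, pow_succ]
    obtain ⟨q, rfl⟩ : ∃ q, p = q + 1 := ⟨p - 1, by omega⟩
    have h1 : (q + 1 - 1) = q := by omega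
    rw [h1] at ih ⊢
    nlinarith [ih]

/-- PROOF. `|P| = p ^ a`. Every orbit has size `p ^ j`, `j < a` (the stabilizer is not trivial). If for each `j < a` there were at most
`p - 1` orbits of size `p ^ j`, then `|Ω| ≤ (p - 1) ∑_{j < a} p ^ j = p ^ a - 1`. So `p` orbits have the same size, their
stabilizers have the same order. (Partition of `Ω` in orbits: `MulAction.selfEquivSigmaOrbits`; pigeonhole over `j`.) -/
theorem pig {P Ω : Type*} [Group P] [Finite P] [Finite Ω] [MulAction P Ω] {p : ℕ} [Fact p.Prime]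
    (hP : IsPGroup p P) (hc : Nat.card Ω = Nat.card P) (hs : ∀ w : Ω, MulAction.stabilizer P w ≠ ⊥) :
    ∃ f : Fin p → Ω, (∀ i j, i ≠ j → f i ∉ MulAction.orbit P (f j)) ∧
      ∀ i j, Nat.card (MulAction.stabilizer P (f i)) = Nat.card (MulAction.stabilizer P (f j)) := by
  classical
  have hp : p.Prime := Fact.out
  obtain ⟨a, ha⟩ := IsPGroup.iff_card.mp hP
  haveI : Finite (MulAction.orbitRel.Quotient P Ω) := Quotient.finite _
  haveI : Fintype (MulAction.orbitRel.Quotient P Ω) := Fintype.ofFinite _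
  have hmul : ∀ w : Ω, Nat.card (MulAction.orbit P w) * Nat.card (MulAction.stabilizer P w) = p ^ a := by
    intro w
    rw [← ha, ← Nat.card_congr (MulAction.orbitProdStabilizerEquivGroup P w), Nat.card_prod]
  have hj : ∀ w : Ω, ∃ j, j < a ∧ Nat.card (MulAction.orbit P w) = p ^ j := by
    intro w
    have h1 := hmul w
    obtain ⟨j, hja, hj⟩ := (Nat.dvd_prime_pow hp).mp (Dvd.intro _ h1)
    refine ⟨j, lt_of_le_of_ne hja ?_, hj⟩
    rintro rfl
    rw [hj] at h1
    have h2 : Nat.card (MulAction.stabilizer P w) = 1 :=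
      Nat.eq_of_mul_eq_mul_left (pow_pos hp.pos _) (by rw [h1, mul_one])
    exact hs w ((Subgroup.card_eq_one).mp h2)
  choose J hJ1 hJ2 using fun q : MulAction.orbitRel.Quotient P Ω => hj q.out
  have hsum : ∑ q : MulAction.orbitRel.Quotient P Ω, p ^ J q = p ^ a := by
    rw [← ha, ← hc, Nat.card_congr (MulAction.selfEquivSigmaOrbits P Ω), Nat.card_sigma]
    exact Finset.sum_congr rfl fun q _ => (hJ2 q).symm
  have hex : ∃ j, p ≤ (Finset.univ.filter fun q : MulAction.orbitRel.Quotient P Ω => J q = j).card := by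
    by_contra hcon
    push Not at hcon
    have h1 : ∑ q : MulAction.orbitRel.Quotient P Ω, p ^ J q =
        ∑ j ∈ Finset.range a, ∑ q ∈ Finset.univ.filter (fun q : MulAction.orbitRel.Quotient P Ω => J q = j), p ^ J q :=
      (Finset.sum_fiberwise_of_maps_to (fun q _ => Finset.mem_range.mpr (hJ1 q)) _).symm
    have h2 : ∑ j ∈ Finset.range a, ∑ q ∈ Finset.univ.filter (fun q : MulAction.orbitRel.Quotient P Ω => J q = j), p ^ J q
        ≤ ∑ j ∈ Finset.range a, (p - 1) * p ^ j := by
      refine Finset.sum_le_sum fun j _ => ?_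
      have h3 : ∑ q ∈ Finset.univ.filter (fun q : MulAction.orbitRel.Quotient P Ω => J q = j), p ^ J q =
          (Finset.univ.filter (fun q : MulAction.orbitRel.Quotient P Ω => J q = j)).card * p ^ j := by
        rw [← smul_eq_mul, ← Finset.sum_const]
        exact Finset.sum_congr rfl fun q hq => by rw [(Finset.mem_filter.mp hq).2]
      rw [h3]
      exact Nat.mul_le_mul_right _ (by have := hcon j; omega)
    have h4 := pig_geom p a hp.one_lt.le
    rw [← h1, hsum] at h2
    omega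
  obtain ⟨j, hjc⟩ := hex
  have hemb : Nonempty (Fin p ↪ {q // q ∈ Finset.univ.filter fun q : MulAction.orbitRel.Quotient P Ω => J q = j}) :=
    Function.Embedding.nonempty_of_card_le (by rw [Fintype.card_fin, Fintype.card_coe]; exact hjc)
  obtain ⟨g⟩ := hemb
  refine ⟨fun i => (g i).1.out, ?_, ?_⟩
  · intro i k hik hmem
    apply hik
    apply g.injective
    apply Subtype.ext
    have h5 : (Quotient.mk (MulAction.orbitRel P Ω) (g i).1.out) = Quotient.mk (MulAction.orbitRel P Ω) (g k).1.out :=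
      Quotient.sound ((MulAction.orbitRel_apply).mpr hmem)
    have h6 := Quotient.out_eq (g i).1
    have h7 := Quotient.out_eq (g k).1
    exact h6.symm.trans (h5.trans h7)
  · have h8 : ∀ i, Nat.card (MulAction.orbit P (g i).1.out) = p ^ j := by
      intro i
      rw [hJ2, (Finset.mem_filter.mp (g i).2).2]
    intro i k
    have h9 := hmul (g i).1.out
    have h10 := hmul (g k).1.out
    rw [h8] at h9 h10
    exact Nat.eq_of_mul_eq_mul_left (pow_pos hp.pos j) (h9.trans h10.symm)
-- END pig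

-- BEGIN nil
private theorem nil_aux {M : Type*} [Group M] {f : M} {m n : ℕ} (h1 : f ^ m = 1) (h2 : f ^ n = 1)
    (h : m.Coprime n) : f = 1 := by
  have h3 : orderOf f ∣ Nat.gcd m n := Nat.dvd_gcd (orderOf_dvd_of_pow_eq_one h1) (orderOf_dvd_of_pow_eq_one h2)
  rw [h] at h3
  exact orderOf_eq_one_iff.1 (Nat.dvd_one.1 h3)

/-- PROOF. `isNilpotent_of_finite_tfae`: the Sylow subgroups are normal and `N` is their product (`Sylow.directProductOfNormal`);
`P` is the Sylow `p`-subgroup, `Q` the kernel of the projection to it (or: the elements of order prime to `p`). -/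
theorem nil {N : Type*} [Group N] [Finite N] [Group.IsNilpotent N] (p : ℕ) [Fact p.Prime] :
    ∃ P Q : Subgroup N, (∀ v, v ∈ P ↔ ∃ k : ℕ, v ^ p ^ k = 1) ∧ (∀ v, v ∈ Q ↔ (orderOf v).Coprime p) ∧
      (∀ a ∈ P, ∀ b ∈ Q, a * b = b * a) ∧ ∀ n, ∃ a ∈ P, ∃ b ∈ Q, n = a * b := by
  classical
  have hp : p.Prime := Fact.out
  obtain ⟨e⟩ : Nonempty ((∀ q : (Nat.card N).primeFactors, ∀ S : Sylow q N, (↑S : Subgroup N)) ≃* N) :=
    (Group.isNilpotent_of_finite_tfae (G := N)).out 0 4 rfl rfl |>.mp inferInstance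
  -- orders of the components
  have hcomp : ∀ (f : ∀ q : (Nat.card N).primeFactors, ∀ S : Sylow q N, (↑S : Subgroup N))
      (q : (Nat.card N).primeFactors) (S : Sylow q N), f q S ^ ((q : ℕ) ^ (Nat.card N).factorization q) = 1 := by
    intro f q S
    have : Fact (q : ℕ).Prime := ⟨Nat.prime_of_mem_primeFactors q.2⟩
    have h := S.card_eq_multiplicity
    rw [← h]
    exact pow_card_eq_one'
  let P' : Subgroup (∀ q : (Nat.card N).primeFactors, ∀ S : Sylow q N, (↑S : Subgroup N)) :=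
    { carrier := {f | ∀ (q : (Nat.card N).primeFactors) (S : Sylow q N), (q : ℕ) ≠ p → f q S = 1}
      mul_mem' := by
        intro a b ha hb q S hq
        rw [Pi.mul_apply, Pi.mul_apply, ha q S hq, hb q S hq, mul_one]
      one_mem' := by
        intro q S hq
        rfl
      inv_mem' := by
        intro a ha q S hq
        rw [Pi.inv_apply, Pi.inv_apply, ha q S hq, inv_one] }
  let Q' : Subgroup (∀ q : (Nat.card N).primeFactors, ∀ S : Sylow q N, (↑S : Subgroup N)) :=
    { carrier := {f | ∀ (q : (Nat.card N).primeFactors) (S : Sylow q N), (q : ℕ) = p → f q S = 1}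
      mul_mem' := by
        intro a b ha hb q S hq
        rw [Pi.mul_apply, Pi.mul_apply, ha q S hq, hb q S hq, mul_one]
      one_mem' := by
        intro q S hq
        rfl
      inv_mem' := by
        intro a ha q S hq
        rw [Pi.inv_apply, Pi.inv_apply, ha q S hq, inv_one] }
  have hP' : ∀ f, f ∈ P' ↔ ∃ k : ℕ, f ^ p ^ k = 1 := by
    intro f
    constructor
    · intro hf
      refine ⟨(Nat.card N).factorization p, ?_⟩
      funext q S
      rw [Pi.pow_apply, Pi.pow_apply]
      by_cases hq : (q : ℕ) = p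
      · have h := hcomp f q S
        have e1 : (q : ℕ) ^ (Nat.card N).factorization q = p ^ (Nat.card N).factorization p := by rw [hq]
        rw [e1] at h
        exact h
      · have h := hf q S hq
        rw [h]
        exact one_pow _
    · rintro ⟨k, hk⟩ q S hq
      have h := congrFun (congrFun hk q) S
      rw [Pi.pow_apply, Pi.pow_apply] at h
      exact nil_aux h (hcomp f q S) (Nat.Coprime.pow _ _
        ((Nat.coprime_primes hp (Nat.prime_of_mem_primeFactors q.2)).2 (Ne.symm hq)))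
  have hQ' : ∀ f, f ∈ Q' ↔ (orderOf f).Coprime p := by
    intro f
    constructor
    · intro hf
      rw [Nat.coprime_comm, Nat.Prime.coprime_iff_not_dvd hp]
      intro hd
      obtain ⟨m, hm⟩ := hd
      have hm0 : 0 < m := by
        rcases Nat.eq_zero_or_pos m with h | h
        · rw [h, mul_zero] at hm
          exact absurd hm (orderOf_pos f).ne'
        · exact h
      have h1 : (f ^ m) ^ p = 1 := by
        rw [← pow_mul, mul_comm, ← hm]
        exact pow_orderOf_eq_one f
      have h2 : f ^ m = 1 := by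
        funext q S
        by_cases hq : (q : ℕ) = p
        · rw [Pi.pow_apply, Pi.pow_apply]
          have h := hf q S hq
          rw [h]
          exact one_pow _
        · have h3 := congrFun (congrFun h1 q) S
          rw [Pi.pow_apply, Pi.pow_apply] at h3
          exact nil_aux h3 (hcomp (f ^ m) q S) (Nat.Coprime.pow_right _
            ((Nat.coprime_primes hp (Nat.prime_of_mem_primeFactors q.2)).2 (Ne.symm hq)))
      have h3 := Nat.le_of_dvd hm0 (orderOf_dvd_of_pow_eq_one h2)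
      rw [hm] at h3
      have h4 : m < p * m := by
        have := hp.two_le
        nlinarith
      omega
    · intro hf q S hq
      have h1 := congrFun (congrFun (pow_orderOf_eq_one f) q) S
      rw [Pi.pow_apply, Pi.pow_apply] at h1
      refine nil_aux h1 (hcomp f q S) (Nat.Coprime.pow_right _ ?_)
      rw [hq]
      exact hf
  refine ⟨P'.comap e.symm.toMonoidHom, Q'.comap e.symm.toMonoidHom, ?_, ?_, ?_, ?_⟩
  · intro v
    rw [Subgroup.mem_comap, hP']
    constructor
    · rintro ⟨k, hk⟩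
      refine ⟨k, ?_⟩
      apply e.symm.injective
      rw [map_pow, map_one]
      exact hk
    · rintro ⟨k, hk⟩
      refine ⟨k, ?_⟩
      have h := congrArg e.symm hk
      rw [map_pow, map_one] at h
      exact h
  · intro v
    rw [Subgroup.mem_comap, hQ']
    have h : orderOf (e.symm.toMonoidHom v) = orderOf v := MulEquiv.orderOf_eq e.symm v
    rw [h]
  · intro a ha b hb
    rw [Subgroup.mem_comap] at ha hb
    apply e.symm.injective
    rw [map_mul, map_mul]
    funext q S
    rw [Pi.mul_apply, Pi.mul_apply, Pi.mul_apply, Pi.mul_apply]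
    by_cases hq : (q : ℕ) = p
    · have h : (e.symm b) q S = 1 := hb q S hq
      rw [h, mul_one, one_mul]
    · have h : (e.symm a) q S = 1 := ha q S hq
      rw [h, mul_one, one_mul]
  · intro n
    refine ⟨e (fun (q : (Nat.card N).primeFactors) (S : Sylow q N) => if (q : ℕ) = p then e.symm n q S else 1), ?_,
      e (fun (q : (Nat.card N).primeFactors) (S : Sylow q N) => if (q : ℕ) = p then 1 else e.symm n q S), ?_, ?_⟩
    · rw [Subgroup.mem_comap]
      intro q S hq
      have h : e.symm.toMonoidHom (e (fun (q : (Nat.card N).primeFactors) (S : Sylow q N) => if (q : ℕ) = p then e.symm n q S else 1)) =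
          fun (q : (Nat.card N).primeFactors) (S : Sylow q N) => if (q : ℕ) = p then e.symm n q S else 1 := e.symm_apply_apply _
      rw [h]
      exact if_neg hq
    · rw [Subgroup.mem_comap]
      intro q S hq
      have h : e.symm.toMonoidHom (e (fun (q : (Nat.card N).primeFactors) (S : Sylow q N) => if (q : ℕ) = p then 1 else e.symm n q S)) =
          fun (q : (Nat.card N).primeFactors) (S : Sylow q N) => if (q : ℕ) = p then 1 else e.symm n q S := e.symm_apply_apply _
      rw [h]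
      exact if_pos hq
    · rw [← map_mul]
      apply e.symm.injective
      rw [e.symm_apply_apply]
      funext q S
      rw [Pi.mul_apply, Pi.mul_apply]
      by_cases hq : (q : ℕ) = p
      · rw [if_pos hq, if_pos hq, mul_one]
      · rw [if_neg hq, if_neg hq, one_mul]
-- END nil

/-- The decomposition of the nilpotent normal subgroup `ker π` into its `p`-part and its `p'`-part. -/
structure Spl {G H : Type*} [Group G] [Group H] (π : G →* H) (p : ℕ) where
  P : Subgroup G
  Q : Subgroup G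
  nP : P.Normal
  nQ : Q.Normal
  lP : P ≤ π.ker
  lQ : Q ≤ π.ker
  pP : IsPGroup p P
  mP : ∀ v, π v = 1 → v ^ p = 1 → v ∈ P
  com : ∀ a ∈ P, ∀ b ∈ Q, a * b = b * a
  dec : ∀ n ∈ π.ker, ∃ a ∈ P, ∃ b ∈ Q, n = a * b
  dis : ∀ v ∈ P, v ∈ Q → v = 1

-- BEGIN spl
/-- PROOF. `nil` for `N = π.ker`, `P` and `Q` mapped to `G` (`Subgroup.map π.ker.subtype`); they are normal in `G` by the description of their
elements (conjugation keeps orders). -/
theorem exists_spl {G H : Type*} [Group G] [Finite G] [Group H] (π : G →* H) [Group.IsNilpotent π.ker]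
    (p : ℕ) [Fact p.Prime] : Nonempty (Spl π p) := by
  have hp : p.Prime := Fact.out
  obtain ⟨P, Q, hP, hQ, hcom, hdec⟩ := nil (N := π.ker) p
  have hP1 : ∀ v, v ∈ P.map π.ker.subtype ↔ π v = 1 ∧ ∃ k : ℕ, v ^ p ^ k = 1 := by
    intro v
    rw [Subgroup.mem_map]
    constructor
    · rintro ⟨x, hx, rfl⟩
      refine ⟨x.2, ?_⟩
      obtain ⟨k, hk⟩ := (hP x).1 hx
      exact ⟨k, congrArg Subtype.val hk⟩
    · rintro ⟨h1, k, hk⟩
      refine ⟨⟨v, h1⟩, (hP _).2 ⟨k, Subtype.ext hk⟩, rfl⟩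
  have hQ1 : ∀ v, v ∈ Q.map π.ker.subtype ↔ π v = 1 ∧ (orderOf v).Coprime p := by
    intro v
    rw [Subgroup.mem_map]
    constructor
    · rintro ⟨x, hx, rfl⟩
      refine ⟨x.2, ?_⟩
      have h := (hQ x).1 hx
      have h2 : orderOf (π.ker.subtype x) = orderOf x := Subgroup.orderOf_coe x
      rw [h2]
      exact h
    · rintro ⟨h1, h2⟩
      refine ⟨⟨v, h1⟩, (hQ _).2 ?_, rfl⟩
      have h3 : orderOf (⟨v, h1⟩ : π.ker) = orderOf v := Subgroup.orderOf_mk v h1
      rw [h3]
      exact h2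
  have hker : ∀ v g : G, π v = 1 → π (g * v * g⁻¹) = 1 := by
    intro v g hv
    rw [map_mul, map_mul, hv, mul_one, map_inv, mul_inv_cancel]
  refine ⟨⟨P.map π.ker.subtype, Q.map π.ker.subtype, ⟨?_⟩, ⟨?_⟩, ?_, ?_, ?_, ?_, ?_, ?_, ?_⟩⟩
  · intro v hv g
    rw [hP1] at hv ⊢
    obtain ⟨h1, k, hk⟩ := hv
    refine ⟨hker v g h1, k, ?_⟩
    rw [conj_pow, hk, mul_one, mul_inv_cancel]
  · intro v hv g
    rw [hQ1] at hv ⊢
    refine ⟨hker v g hv.1, ?_⟩
    have h2 : orderOf (MulAut.conj g v) = orderOf v := MulEquiv.orderOf_eq (MulAut.conj g) v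
    rw [MulAut.conj_apply] at h2
    rw [h2]
    exact hv.2
  · intro v hv
    exact ((hP1 v).1 hv).1
  · intro v hv
    exact ((hQ1 v).1 hv).1
  · rintro ⟨v, hv⟩
    obtain ⟨k, hk⟩ := ((hP1 v).1 hv).2
    exact ⟨k, Subtype.ext hk⟩
  · intro v h1 h2
    exact (hP1 v).2 ⟨h1, 1, by rw [pow_one]; exact h2⟩
  · intro a ha b hb
    rw [Subgroup.mem_map] at ha hb
    obtain ⟨x, hx, rfl⟩ := ha
    obtain ⟨y, hy, rfl⟩ := hb
    rw [← map_mul, hcom x hx y hy, map_mul]
  · intro n hn
    obtain ⟨a, ha, b, hb, hab⟩ := hdec ⟨n, hn⟩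
    exact ⟨a, Subgroup.mem_map_of_mem _ ha, b, Subgroup.mem_map_of_mem _ hb, congrArg Subtype.val hab⟩
  · intro v h1 h2
    obtain ⟨-, k, hk⟩ := (hP1 v).1 h1
    have h3 := ((hQ1 v).1 h2).2
    have h4 : orderOf v ∣ p ^ k := orderOf_dvd_of_pow_eq_one hk
    exact orderOf_eq_one_iff.1 (Nat.Coprime.eq_one_of_dvd (Nat.Coprime.pow_right k h3) h4)
-- END spl

section

variable {G H : Type*} [Group G] [Finite G] [Group H] (π : G →* H)

-- BEGIN card_cent
/-- PROOF. First isomorphism theorem for the restriction of `π` to the centralizer `C`: `|C| = |C ⊓ ker| |π C|`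
(`Subgroup.card_range_mul_card_ker`.. for `π.comp C.subtype`). -/
theorem card_cent (y : G) : Nat.card (Subgroup.centralizer {y}) =
    Nat.card (Subgroup.centralizer {y} ⊓ π.ker : Subgroup G) * Nat.card ((Subgroup.centralizer {y}).map π) := by
  have h1 := Subgroup.card_mul_index (π.comp (Subgroup.centralizer {y}).subtype).ker
  have h2 : (π.comp (Subgroup.centralizer {y}).subtype).range = (Subgroup.centralizer {y}).map π := by
    rw [MonoidHom.range_comp, Subgroup.range_subtype]
  have h3 : (π.comp (Subgroup.centralizer {y}).subtype).ker =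
      (Subgroup.centralizer {y} ⊓ π.ker).subgroupOf (Subgroup.centralizer {y}) := by
    rw [Subgroup.inf_subgroupOf_left]
    rfl
  rw [Subgroup.index_ker, h2, h3,
    Nat.card_congr (Subgroup.subgroupOfEquivOfLe (inf_le_left : Subgroup.centralizer {y} ⊓ π.ker ≤ _)).toEquiv] at h1
  exact h1.symm
-- END card_cent

-- BEGIN im_cent
/-- PROOF. `M = π C_G(y)` lies between `zpowers (π y)` (of order `o`) and `centralizer {π y}` (of order `r o`): Lagrange. -/
theorem im_cent [Finite H] {r : ℕ} (hr : r = 1 ∨ r = 2) (y : G)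
    (hy : Nat.card (Subgroup.centralizer {π y}) = r * orderOf (π y)) :
    Nat.card ((Subgroup.centralizer {y}).map π) = orderOf (π y) ∨
      r = 2 ∧ Nat.card ((Subgroup.centralizer {y}).map π) = 2 * orderOf (π y) := by
  have h1 : Subgroup.zpowers (π y) ≤ (Subgroup.centralizer {y}).map π := by
    rw [Subgroup.zpowers_le]
    exact ⟨y, Subgroup.mem_centralizer_singleton_iff.2 rfl, rfl⟩
  have h2 : (Subgroup.centralizer {y}).map π ≤ Subgroup.centralizer {π y} := by
    rintro _ ⟨x, hx, rfl⟩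
    rw [Subgroup.mem_centralizer_singleton_iff, ← map_mul, ← map_mul]
    exact congrArg π (Subgroup.mem_centralizer_singleton_iff.1 hx)
  have h3 := Subgroup.card_dvd_of_le h1
  have h4 := Subgroup.card_dvd_of_le h2
  rw [Nat.card_zpowers] at h3
  rw [hy] at h4
  obtain ⟨t, ht⟩ := h3
  have ho : 0 < orderOf (π y) := orderOf_pos _
  rw [ht, mul_comm r] at h4
  have h5 : t ∣ r := Nat.dvd_of_mul_dvd_mul_left ho h4
  rcases hr with rfl | rfl
  · left
    rw [ht, Nat.dvd_one.1 h5, mul_one]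
  · rcases (Nat.dvd_prime Nat.prime_two).1 h5 with h | h
    · left
      rw [ht, h, mul_one]
    · right
      exact ⟨rfl, by rw [ht, h, mul_comm]⟩
-- END im_cent

-- BEGIN full
/-- PROOF. `N = ker π` acts on the coset `x N` by conjugation with trivial stabilizer, so the coset is one orbit. So for `h = π g` which centralizes
`π x` there is `n ∈ N` with `g x g⁻¹ = n x n⁻¹`, `n⁻¹ g` centralizes `x`; so `π` maps the centralizer of `x` onto the one of `π x`; `card_cent`. -/
theorem full (hπ : Function.Surjective π) (x : G) (h : ∀ v ∈ π.ker, x * v = v * x → v = 1) :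
    Nat.card (Subgroup.centralizer {x}) = Nat.card (Subgroup.centralizer {π x}) := by
  have h1 : (Subgroup.centralizer {x} ⊓ π.ker : Subgroup G) = ⊥ := by
    rw [eq_bot_iff]
    intro v hv
    rw [Subgroup.mem_inf, Subgroup.mem_centralizer_singleton_iff] at hv
    exact Subgroup.mem_bot.2 (h v hv.2 (by first | exact hv.1 | exact hv.1.symm))
  have h2 : (Subgroup.centralizer {x}).map π = Subgroup.centralizer {π x} := by
    ext k
    constructor
    · rintro ⟨g, hg, rfl⟩
      have hg' : g ∈ Subgroup.centralizer {x} := hg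
      rw [Subgroup.mem_centralizer_singleton_iff] at hg' ⊢
      rw [← map_mul, hg', map_mul]
    · intro hk
      rw [Subgroup.mem_centralizer_singleton_iff] at hk
      obtain ⟨g, rfl⟩ := hπ k
      have hf : ∀ n : π.ker, x⁻¹ * (n : G) * x * (n : G)⁻¹ ∈ π.ker := by
        intro n
        have hn : π n = 1 := n.2
        rw [MonoidHom.mem_ker, map_mul, map_mul, map_mul, map_inv, map_inv, hn]
        group
      have hinj : Function.Injective fun n : π.ker => (⟨x⁻¹ * (n : G) * x * (n : G)⁻¹, hf n⟩ : π.ker) := by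
        intro n m hnm
        have e : x⁻¹ * (n : G) * x * (n : G)⁻¹ = x⁻¹ * (m : G) * x * (m : G)⁻¹ := congrArg Subtype.val hnm
        have e2 : (n : G) * x * (n : G)⁻¹ = (m : G) * x * (m : G)⁻¹ := by
          have := congrArg (fun z => x * z) e
          simpa [mul_assoc] using this
        have e3 : x * ((m : G)⁻¹ * n) = ((m : G)⁻¹ * n) * x := by
          have := congrArg (fun z => (m : G)⁻¹ * z * n) e2
          simp only [mul_assoc, inv_mul_cancel, inv_mul_cancel_left, mul_one] at this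
          simpa [mul_assoc] using this.symm
        have e4 := h _ (π.ker.mul_mem (π.ker.inv_mem m.2) n.2) e3
        exact Subtype.ext (inv_mul_eq_one.1 e4).symm
      have hsur := Finite.surjective_of_injective hinj
      have hg : x⁻¹ * g * x * g⁻¹ ∈ π.ker := by
        rw [MonoidHom.mem_ker, map_mul, map_mul, map_mul, map_inv, map_inv, mul_assoc (π x)⁻¹, hk]
        group
      obtain ⟨n, hn⟩ := hsur ⟨_, hg⟩
      have e : x⁻¹ * (n : G) * x * (n : G)⁻¹ = x⁻¹ * g * x * g⁻¹ := congrArg Subtype.val hn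
      refine ⟨(n : G)⁻¹ * g, ?_, ?_⟩
      · show (n : G)⁻¹ * g ∈ Subgroup.centralizer {x}
        rw [Subgroup.mem_centralizer_singleton_iff]
        have e2 : (n : G) * x * (n : G)⁻¹ = g * x * g⁻¹ := by
          have := congrArg (fun z => x * z) e
          simpa [mul_assoc] using this
        have := congrArg (fun z => (n : G)⁻¹ * z * g) e2
        simp only [mul_assoc, inv_mul_cancel, inv_mul_cancel_left, mul_one] at this
        simpa [mul_assoc] using this.symm
      · have hn' : π n = 1 := n.2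
        rw [map_mul, map_inv, hn', inv_one, one_mul]
  rw [card_cent π x, h1, h2, Subgroup.card_bot, one_mul]
-- END full

variable {π} {p : ℕ} (s : Spl π p)

-- BEGIN orb1
/-- PROOF. `π g = π y ^ k`, so `g = n y ^ k`.. with `n ∈ ker`, `g y g⁻¹ = n y n⁻¹`, `n = a b` (`s.dec`). `b y b⁻¹ = a⁻¹ (n y n⁻¹) a` is in `y P`
(`P` normal), so `y⁻¹ b y b⁻¹` is in `P` and in `Q` (`Q` normal), hence `1`, and `n y n⁻¹ = a y a⁻¹`. -/
theorem orb1 (y g : G) (h1 : y⁻¹ * (g * y * g⁻¹) ∈ s.P) (h2 : π g ∈ Subgroup.zpowers (π y)) :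
    ∃ a ∈ s.P, g * y * g⁻¹ = a * y * a⁻¹ := by
  obtain ⟨k, hk⟩ := Subgroup.mem_zpowers_iff.1 h2
  have hn : g * (y ^ k)⁻¹ ∈ π.ker := by
    rw [MonoidHom.mem_ker, map_mul, map_inv, map_zpow, hk, mul_inv_cancel]
  obtain ⟨a, ha, b, hb, hab⟩ := s.dec _ hn
  have hg : g = a * b * y ^ k := by
    rw [← hab, mul_assoc, inv_mul_cancel, mul_one]
  have hgy : g * y * g⁻¹ = a * (b * y * b⁻¹) * a⁻¹ := by
    rw [hg]
    have hc : y ^ k * y * (y ^ k)⁻¹ = y := by
      rw [(Commute.zpow_self y k).eq, mul_assoc, mul_inv_cancel, mul_one]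
    calc a * b * y ^ k * y * (a * b * y ^ k)⁻¹ = a * b * (y ^ k * y * (y ^ k)⁻¹) * b⁻¹ * a⁻¹ := by
          rw [mul_inv_rev, mul_inv_rev]
          simp only [mul_assoc]
      _ = a * (b * y * b⁻¹) * a⁻¹ := by
          rw [hc]
          simp only [mul_assoc]
  have hP : y⁻¹ * b * y * b⁻¹ ∈ s.P := by
    have e : y⁻¹ * b * y * b⁻¹ = (y⁻¹ * a⁻¹ * (y⁻¹)⁻¹) * (y⁻¹ * (g * y * g⁻¹)) * a := by
      rw [hgy, inv_inv]
      group
    rw [e]
    exact s.P.mul_mem (s.P.mul_mem (s.nP.conj_mem _ (s.P.inv_mem ha) _) h1) ha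
  have hQ : y⁻¹ * b * y * b⁻¹ ∈ s.Q := by
    have e : y⁻¹ * b * y * b⁻¹ = (y⁻¹ * b * (y⁻¹)⁻¹) * b⁻¹ := by
      rw [inv_inv]
    rw [e]
    exact s.Q.mul_mem (s.nQ.conj_mem _ hb _) (s.Q.inv_mem hb)
  have h0 := s.dis _ hP hQ
  refine ⟨a, ha, ?_⟩
  have hby : b * y * b⁻¹ = y := by
    calc b * y * b⁻¹ = y * (y⁻¹ * b * y * b⁻¹) := by group
      _ = y := by rw [h0, mul_one]
  rw [hgy, hby]
-- END orb1

-- BEGIN orb2
/-- PROOF. Both `π g₁, π g₂` are in the centralizer of `π y` (as `π (y⁻¹ g y g⁻¹) = 1`), `zpowers (π y)` has index `2` in it, so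
`π (g₂ g₁⁻¹) ∈ zpowers (π y) = zpowers (π (g₁ y g₁⁻¹))`. Apply `orb1` to `y₁ = g₁ y g₁⁻¹` and `g₂ g₁⁻¹`. -/
theorem orb2 [Finite H] (y g₁ g₂ : G) (hy : Nat.card (Subgroup.centralizer {π y}) = 2 * orderOf (π y))
    (h1 : y⁻¹ * (g₁ * y * g₁⁻¹) ∈ s.P) (h2 : y⁻¹ * (g₂ * y * g₂⁻¹) ∈ s.P)
    (h3 : π g₁ ∉ Subgroup.zpowers (π y)) (h4 : π g₂ ∉ Subgroup.zpowers (π y)) :
    ∃ a ∈ s.P, g₂ * y * g₂⁻¹ = a * (g₁ * y * g₁⁻¹) * a⁻¹ := by
  have hcj : ∀ g : G, y⁻¹ * (g * y * g⁻¹) ∈ s.P → π g * π y * (π g)⁻¹ = π y := by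
    intro g hg
    have h5 := MonoidHom.mem_ker.1 (s.lP hg)
    rw [map_mul, map_inv, map_mul, map_mul, map_inv, inv_mul_eq_one] at h5
    exact h5.symm
  have hC : ∀ g : G, y⁻¹ * (g * y * g⁻¹) ∈ s.P → π g ∈ Subgroup.centralizer {π y} := by
    intro g hg
    rw [Subgroup.mem_centralizer_singleton_iff]
    exact mul_inv_eq_iff_eq_mul.1 (hcj g hg)
  have hle : Subgroup.zpowers (π y) ≤ Subgroup.centralizer {π y} := by
    rw [Subgroup.zpowers_le, Subgroup.mem_centralizer_singleton_iff]
  have hidx : ((Subgroup.zpowers (π y)).subgroupOf (Subgroup.centralizer {π y})).index = 2 := by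
    have h5 := Subgroup.card_mul_index ((Subgroup.zpowers (π y)).subgroupOf (Subgroup.centralizer {π y}))
    have h6 : Nat.card ((Subgroup.zpowers (π y)).subgroupOf (Subgroup.centralizer {π y})) = orderOf (π y) := by
      rw [Nat.card_congr (Subgroup.subgroupOfEquivOfLe hle).toEquiv, Nat.card_zpowers]
    rw [h6, hy, mul_comm 2] at h5
    exact Nat.eq_of_mul_eq_mul_left (orderOf_pos (π y)) h5
  have hz : π (g₂ * g₁⁻¹) ∈ Subgroup.zpowers (π y) := by
    have h5 := (Subgroup.mul_mem_iff_of_index_two hidx (a := ⟨π g₂, hC g₂ h2⟩) (b := ⟨π g₁, hC g₁ h1⟩⁻¹)).2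
    have h6 : (⟨π g₂, hC g₂ h2⟩ : Subgroup.centralizer {π y}) ∉
        (Subgroup.zpowers (π y)).subgroupOf (Subgroup.centralizer {π y}) := fun h => h4 h
    have h7 : (⟨π g₁, hC g₁ h1⟩⁻¹ : Subgroup.centralizer {π y}) ∉
        (Subgroup.zpowers (π y)).subgroupOf (Subgroup.centralizer {π y}) := fun h => h3 (by
      have h8 := inv_mem h
      rw [inv_inv] at h8
      exact h8)
    have h8 := h5 (iff_of_false h6 h7)
    rw [map_mul, map_inv]
    exact h8
  have hy1 : π (g₁ * y * g₁⁻¹) = π y := by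
    rw [map_mul, map_mul, map_inv]
    exact hcj g₁ h1
  obtain ⟨a, ha, h5⟩ := orb1 s (g₁ * y * g₁⁻¹) (g₂ * g₁⁻¹) (by
    have h6 : (g₁ * y * g₁⁻¹)⁻¹ * (g₂ * g₁⁻¹ * (g₁ * y * g₁⁻¹) * (g₂ * g₁⁻¹)⁻¹) =
        (y⁻¹ * (g₁ * y * g₁⁻¹))⁻¹ * (y⁻¹ * (g₂ * y * g₂⁻¹)) := by group
    rw [h6]
    exact mul_mem (inv_mem h1) h2) (by rw [hy1]; exact hz)
  refine ⟨a, ha, ?_⟩
  rw [← h5]
  group
-- END orb2

-- BEGIN cent_N
/-- PROOF. `(a, b) ↦ a b` is a bijection of `(C(y) ⊓ P) × (C(x) ⊓ Q)` onto `C(y) ⊓ ker π`, `y = x v`, `v ∈ P`: an element `n = a b` of the kernel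
commutes with `y` if and only if `a` and `b` do (`b y b⁻¹ = a⁻¹ y a ∈ y P`, so `y⁻¹ b y b⁻¹ ∈ P ⊓ Q`), and `b` commutes with `y = x v` if and
only if it commutes with `x` (`s.com`). -/
theorem cent_N (x v : G) (hv : v ∈ s.P) : Nat.card (Subgroup.centralizer {x * v} ⊓ π.ker : Subgroup G) =
    Nat.card (Subgroup.centralizer {x * v} ⊓ s.P : Subgroup G) * Nat.card (Subgroup.centralizer {x} ⊓ s.Q : Subgroup G) := by
  rw [← Nat.card_prod]
  refine (Nat.card_congr (Equiv.ofBijective (fun q : (Subgroup.centralizer {x * v} ⊓ s.P : Subgroup G) ×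
    (Subgroup.centralizer {x} ⊓ s.Q : Subgroup G) => (⟨(q.1 : G) * (q.2 : G), ?_⟩ :
      (Subgroup.centralizer {x * v} ⊓ π.ker : Subgroup G))) ⟨?_, ?_⟩)).symm
  · obtain ⟨⟨a, ha⟩, ⟨b, hb⟩⟩ := q
    rw [Subgroup.mem_inf, Subgroup.mem_centralizer_singleton_iff] at ha hb
    rw [Subgroup.mem_inf, Subgroup.mem_centralizer_singleton_iff]
    refine ⟨?_, mul_mem (s.lP ha.2) (s.lQ hb.2)⟩
    show a * b * (x * v) = x * v * (a * b)
    rw [mul_assoc a b, ← mul_assoc b x v, hb.1, mul_assoc x b v, ← s.com v hv b hb.2, ← mul_assoc x v b, ← mul_assoc a,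
      ha.1, mul_assoc]
  · rintro ⟨⟨a, ha⟩, ⟨b, hb⟩⟩ ⟨⟨a', ha'⟩, ⟨b', hb'⟩⟩ h
    have h1 : a * b = a' * b' := congrArg Subtype.val h
    have h2 : a'⁻¹ * a = b' * b⁻¹ := by
      rw [inv_mul_eq_iff_eq_mul, ← mul_assoc, ← h1, mul_inv_cancel_right]
    rw [Subgroup.mem_inf] at ha hb ha' hb'
    have h3 : a'⁻¹ * a = 1 := s.dis _ (mul_mem (inv_mem ha'.2) ha.2) (h2 ▸ mul_mem hb'.2 (inv_mem hb.2))
    have h4 : b' * b⁻¹ = 1 := h2 ▸ h3
    have h5 : a = a' := (inv_mul_eq_one.mp h3).symm
    have h6 : b = b' := (mul_inv_eq_one.mp h4).symm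
    subst h5 h6
    rfl
  · rintro ⟨n, hn⟩
    have hn' := hn
    rw [Subgroup.mem_inf, Subgroup.mem_centralizer_singleton_iff] at hn'
    obtain ⟨a, ha, b, hb, rfl⟩ := s.dec n hn'.2
    have h1 := hn'.1
    have h2 : (x * v)⁻¹ * b * (x * v) * b⁻¹ = (x * v)⁻¹ * a⁻¹ * (x * v) * a := by
      have h3 : b * (x * v) * b⁻¹ = a⁻¹ * (x * v) * a := by
        rw [mul_inv_eq_iff_eq_mul, mul_assoc (a⁻¹ * (x * v)) a b, mul_assoc a⁻¹ (x * v), ← h1, mul_assoc a b,
          inv_mul_cancel_left]
      calc (x * v)⁻¹ * b * (x * v) * b⁻¹ = (x * v)⁻¹ * (b * (x * v) * b⁻¹) := by group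
        _ = (x * v)⁻¹ * (a⁻¹ * (x * v) * a) := by rw [h3]
        _ = _ := by group
    have h4 : (x * v)⁻¹ * b * (x * v) * b⁻¹ ∈ s.Q := by
      have := s.nQ.conj_mem b hb (x * v)⁻¹
      rw [inv_inv] at this
      exact mul_mem this (inv_mem hb)
    have h5 : (x * v)⁻¹ * b * (x * v) * b⁻¹ ∈ s.P := by
      rw [h2]
      have := s.nP.conj_mem a⁻¹ (inv_mem ha) (x * v)⁻¹
      rw [inv_inv] at this
      exact mul_mem this ha
    have h6 := s.dis _ h5 h4
    have h7 : b * (x * v) = x * v * b := by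
      rw [mul_inv_eq_one, mul_assoc, inv_mul_eq_iff_eq_mul] at h6
      exact h6
    have h8 : a * (x * v) = x * v * a := by
      have h9 : a * (x * v) * b = x * v * a * b := by
        rw [mul_assoc a, ← h7, ← mul_assoc a b, h1, ← mul_assoc]
      exact mul_right_cancel h9
    have h10 : b * x = x * b := by
      have h11 : b * x * v = x * b * v := by
        rw [mul_assoc b, h7, mul_assoc x v b, s.com v hv b hb, ← mul_assoc]
      exact mul_right_cancel h11
    exact ⟨⟨⟨a, Subgroup.mem_inf.2 ⟨Subgroup.mem_centralizer_singleton_iff.2 h8, ha⟩⟩,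
      ⟨b, Subgroup.mem_inf.2 ⟨Subgroup.mem_centralizer_singleton_iff.2 h10, hb⟩⟩⟩, rfl⟩
-- END cent_N

-- BEGIN pigx
/-- The action of a normal subgroup `P` by conjugation on the coset `x P`. -/
@[instance_reducible] private def pigx_act {G : Type*} [Group G] (P : Subgroup G) [P.Normal] (x : G) : MulAction P {w : G // x⁻¹ * w ∈ P} where
  smul a w := ⟨(a : G) * w.1 * (a : G)⁻¹, by
    have h1 : x⁻¹ * (a : G) * x ∈ P := by
      have := ‹P.Normal›.conj_mem (a : G) a.2 x⁻¹
      simpa using this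
    have h2 := P.mul_mem (P.mul_mem h1 w.2) (P.inv_mem a.2)
    have e : x⁻¹ * (a : G) * x * (x⁻¹ * w.1) * (a : G)⁻¹ = x⁻¹ * ((a : G) * w.1 * (a : G)⁻¹) := by group
    rw [e] at h2
    exact h2⟩
  one_smul w := by
    apply Subtype.ext
    show ((1 : P) : G) * w.1 * ((1 : P) : G)⁻¹ = w.1
    simp
  mul_smul a b w := by
    apply Subtype.ext
    show ((a * b : P) : G) * w.1 * ((a * b : P) : G)⁻¹ = (a : G) * ((b : G) * w.1 * (b : G)⁻¹) * (a : G)⁻¹
    rw [Subgroup.coe_mul]
    group

/-- PROOF. `pig` for the group `s.P` acting by conjugation on the coset `x P` (for instance on `Ω = s.P` through `x v ↦ a x v a⁻¹`, i.e.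
`a • v = x⁻¹ a x v a⁻¹`); the stabilizer of `v` is `centralizer {x v} ⊓ P`. If one stabilizer were trivial, the orbit of this `v` would be
everything and all stabilizers trivial, but `u` is in the stabilizer of `1`. -/
theorem pigx [Fact p.Prime] (x u : G) (hu : u ∈ s.P) (hu1 : u ≠ 1) (hxu : x * u = u * x) :
    ∃ f : Fin p → G, (∀ i, f i ∈ s.P) ∧
      (∀ i j, i ≠ j → ¬ ∃ a ∈ s.P, x * f i = a * (x * f j) * a⁻¹) ∧
      ∀ i j, Nat.card (Subgroup.centralizer {x * f i} ⊓ s.P : Subgroup G) =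
        Nat.card (Subgroup.centralizer {x * f j} ⊓ s.P : Subgroup G) := by
  haveI := s.nP
  letI act := pigx_act s.P x
  have hsm : ∀ (a : s.P) (w : {w : G // x⁻¹ * w ∈ s.P}), (a • w).1 = (a : G) * w.1 * (a : G)⁻¹ := fun _ _ => rfl
  have hcard : Nat.card {w : G // x⁻¹ * w ∈ s.P} = Nat.card s.P := by
    refine Nat.card_congr
      { toFun := fun w => ⟨x⁻¹ * w.1, w.2⟩
        invFun := fun v => ⟨x * v.1, by rw [inv_mul_cancel_left]; exact v.2⟩
        left_inv := fun w => Subtype.ext (by simp)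
        right_inv := fun v => Subtype.ext (by simp) }
  have hstab : ∀ w : {w : G // x⁻¹ * w ∈ s.P}, MulAction.stabilizer s.P w ≠ ⊥ := by
    intro w h0
    have h1 : (MulAction.orbit s.P w).ncard = Nat.card {w : G // x⁻¹ * w ∈ s.P} := by
      rw [← MulAction.index_stabilizer, h0, Subgroup.index_bot, hcard]
    have h2 : MulAction.orbit s.P w = Set.univ := (Set.eq_univ_iff_ncard _).2 h1
    have h3 : (⟨x, by rw [inv_mul_cancel]; exact s.P.one_mem⟩ : {w : G // x⁻¹ * w ∈ s.P}) ∈ MulAction.orbit s.P w := by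
      rw [h2]; trivial
    obtain ⟨a, ha⟩ := h3
    have ha' : (a : G) * w.1 * (a : G)⁻¹ = x := by
      rw [← hsm]
      exact congrArg Subtype.val ha
    have hw : w.1 = (a : G)⁻¹ * x * a := by
      have h9 : (a : G)⁻¹ * ((a : G) * w.1 * (a : G)⁻¹) * a = (a : G)⁻¹ * x * a := by rw [ha']
      rw [← h9]
      group
    have h4 : a⁻¹ * ⟨u, hu⟩ * a ∈ MulAction.stabilizer s.P w := by
      rw [MulAction.mem_stabilizer_iff]
      apply Subtype.ext
      rw [hsm]
      show ((a : G)⁻¹ * u * a) * w.1 * ((a : G)⁻¹ * u * a)⁻¹ = w.1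
      rw [hw]
      have e : ((a : G)⁻¹ * u * a) * ((a : G)⁻¹ * x * a) * ((a : G)⁻¹ * u * a)⁻¹ =
          (a : G)⁻¹ * (u * x) * u⁻¹ * a := by group
      rw [e, ← hxu]
      group
    rw [h0, Subgroup.mem_bot] at h4
    have h5 : (⟨u, hu⟩ : s.P) = 1 := by
      have : (⟨u, hu⟩ : s.P) = a * (a⁻¹ * ⟨u, hu⟩ * a) * a⁻¹ := by group
      rw [this, h4]
      group
    exact hu1 (congrArg Subtype.val h5)
  obtain ⟨f, hf1, hf2⟩ := pig s.pP hcard hstab
  have key : ∀ i, x * (x⁻¹ * (f i).1) = (f i).1 := fun i => by rw [mul_inv_cancel_left]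
  have hst : ∀ i, Nat.card (Subgroup.centralizer {(f i).1} ⊓ s.P : Subgroup G) = Nat.card (MulAction.stabilizer s.P (f i)) := by
    intro i
    refine Nat.card_congr
      { toFun := fun g => ⟨⟨g.1, g.2.2⟩, by
          rw [MulAction.mem_stabilizer_iff]
          apply Subtype.ext
          rw [hsm]
          show g.1 * (f i).1 * g.1⁻¹ = (f i).1
          have hg := (Subgroup.mem_centralizer_singleton_iff).1 g.2.1
          rw [hg, mul_assoc, mul_inv_cancel, mul_one]⟩
        invFun := fun g => ⟨(g.1 : G), by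
          refine ⟨?_, g.1.2⟩
          have hg := g.2
          rw [MulAction.mem_stabilizer_iff] at hg
          have h2 := congrArg Subtype.val hg
          rw [hsm] at h2
          rw [mul_inv_eq_iff_eq_mul] at h2
          exact (Subgroup.mem_centralizer_singleton_iff).2 h2⟩
        left_inv := fun g => rfl
        right_inv := fun g => rfl }
  refine ⟨fun i => x⁻¹ * (f i).1, fun i => (f i).2, ?_, ?_⟩
  · intro i j hij
    rintro ⟨a, ha, h⟩
    apply hf1 i j hij
    refine ⟨⟨a, ha⟩, ?_⟩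
    apply Subtype.ext
    show a * (f j).1 * a⁻¹ = (f i).1
    simp only [key] at h
    exact h.symm
  · intro i j
    simp only [key]
    rw [hst i, hst j]
    exact hf2 i j
-- END pigx

end

-- BEGIN fpf
/-- LEMMAS A AND B. PROOF. Suppose `v ≠ 1`. `exists_spl`, `pigx`: `y_i = x f_i`, `i < p`, not conjugate under `P`, all `|C_P(y_i)|` equal, so all
`|C_N(y_i)|` equal (`cent_N`). `r = 1`: take two of them, `|C_G(y_i)|` are equal (`card_cent`, `im_cent`; `π y_i = π x`), so they are conjugate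
(`ah_conj`), `π g` centralizes `π x`, so it is in `zpowers (π x)` (orders), `orb1`. `r = 2`, `p ≥ 5`: take five of them, `|C_G(y_i)|` takes at most two
values, so three of them are conjugate; by `orb1` and `orb2` two of these are conjugate under `P`. -/
theorem fpf {G H : Type*} [Group G] [Finite G] [Group H] (hG : Ah G) (π : G →* H) (hπ : Function.Surjective π)
    [Group.IsNilpotent π.ker] {r : ℕ} (hr : r = 1 ∨ r = 2) (x : G)
    (hx : Nat.card (Subgroup.centralizer {π x}) = r * orderOf (π x)) {p : ℕ} (hp : p.Prime) (hrp : r = 1 ∨ 5 ≤ p)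
    (v : G) (hv : π v = 1) (hvp : v ^ p = 1) (hc : x * v = v * x) : v = 1 := by
  classical
  by_contra hv1
  have : Fact p.Prime := ⟨hp⟩
  have : Finite H := Finite.of_surjective π hπ
  obtain ⟨s⟩ := exists_spl π p
  have hvP : v ∈ s.P := s.mP v hv hvp
  obtain ⟨f, hfP, hfn, hfc⟩ := pigx s x v hvP hv1 hc
  have hπf : ∀ i, π (f i) = 1 := fun i => (MonoidHom.mem_ker).1 (s.lP (hfP i))
  have hπy : ∀ i, π (x * f i) = π x := fun i => by rw [map_mul, hπf, mul_one]
  have hcN : ∀ i j, Nat.card (Subgroup.centralizer {x * f i} ⊓ π.ker : Subgroup G) =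
      Nat.card (Subgroup.centralizer {x * f j} ⊓ π.ker : Subgroup G) := fun i j => by
    rw [cent_N s x (f i) (hfP i), cent_N s x (f j) (hfP j), hfc i j]
  have him : ∀ i, Nat.card ((Subgroup.centralizer {x * f i}).map π) = orderOf (π x) ∨
      r = 2 ∧ Nat.card ((Subgroup.centralizer {x * f i}).map π) = 2 * orderOf (π x) := fun i => by
    have h := im_cent π hr (x * f i) (by rw [hπy]; exact hx)
    rwa [hπy] at h
  -- conjugate elements give elements of the centralizer
  have hcz : ∀ i j g, g * (x * f i) * g⁻¹ = x * f j → π g ∈ Subgroup.centralizer {π x} := by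
    intro i j g hg
    rw [Subgroup.mem_centralizer_iff]
    intro h hh
    rw [Set.mem_singleton_iff] at hh
    subst hh
    have h1 : π g * π x * (π g)⁻¹ = π x := by
      have h2 := congrArg π hg
      rwa [map_mul, map_mul, map_inv, hπy, hπy] at h2
    calc π x * π g = (π g * π x * (π g)⁻¹) * π g := by rw [h1]
      _ = π g * π x := by rw [inv_mul_cancel_right]
  have hmem : ∀ i j g, g * (x * f i) * g⁻¹ = x * f j → (x * f i)⁻¹ * (g * (x * f i) * g⁻¹) ∈ s.P := by
    intro i j g hg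
    rw [hg, mul_inv_rev, mul_assoc, inv_mul_cancel_left]
    exact s.P.mul_mem (s.P.inv_mem (hfP i)) (hfP j)
  have hconj : ∀ i j, Nat.card ((Subgroup.centralizer {x * f i}).map π) =
      Nat.card ((Subgroup.centralizer {x * f j}).map π) → ∃ g, g * (x * f i) * g⁻¹ = x * f j := by
    intro i j h
    refine isConj_iff.1 (ah_conj hG _ _ ?_)
    rw [card_cent π (x * f i), card_cent π (x * f j), hcN i j, h]
  have h1P : ∀ i j g, i ≠ j → g * (x * f i) * g⁻¹ = x * f j → π g ∉ Subgroup.zpowers (π x) := by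
    intro i j g hij hg hz
    obtain ⟨a, ha, ha2⟩ := orb1 s (x * f i) g (hmem i j g hg) (by rw [hπy]; exact hz)
    exact hfn j i (Ne.symm hij) ⟨a, ha, by rw [← hg, ha2]⟩
  have hzc : Subgroup.zpowers (π x) ≤ Subgroup.centralizer {π x} := by
    rw [Subgroup.zpowers_le, Subgroup.mem_centralizer_iff]
    intro h hh
    rw [Set.mem_singleton_iff] at hh
    rw [hh]
  by_cases hr1 : r = 1
  · have hp2 : 2 ≤ p := hp.two_le
    let i0 : Fin p := ⟨0, by omega⟩
    let i1 : Fin p := ⟨1, by omega⟩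
    have h01 : i0 ≠ i1 := by
      intro h
      exact absurd (congrArg Fin.val h) (by simp [i0, i1])
    have hc1 : ∀ i, Nat.card ((Subgroup.centralizer {x * f i}).map π) = orderOf (π x) := fun i => by
      rcases him i with h | ⟨h, _⟩
      · exact h
      · omega
    obtain ⟨g, hg⟩ := hconj i0 i1 (by rw [hc1, hc1])
    apply h1P i0 i1 g h01 hg
    have he : Subgroup.zpowers (π x) = Subgroup.centralizer {π x} := by
      apply Subgroup.eq_of_le_of_card_ge hzc
      rw [Nat.card_zpowers, hx, hr1, one_mul]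
    rw [he]
    exact hcz i0 i1 g hg
  · have hr2 : r = 2 := hr.resolve_left hr1
    have hp5 : 5 ≤ p := hrp.resolve_left hr1
    have hpg : ∀ b : Fin 5 → Bool, ∃ i j k : Fin 5, i ≠ j ∧ i ≠ k ∧ j ≠ k ∧ b i = b j ∧ b i = b k := by
      decide
    obtain ⟨i', j', k', hij', hik', hjk', hb1, hb2⟩ := hpg fun i =>
      decide (Nat.card ((Subgroup.centralizer {x * f (Fin.castLE hp5 i)}).map π) = orderOf (π x))
    have hcc : ∀ a b : Fin p,
        decide (Nat.card ((Subgroup.centralizer {x * f a}).map π) = orderOf (π x)) =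
          decide (Nat.card ((Subgroup.centralizer {x * f b}).map π) = orderOf (π x)) →
        Nat.card ((Subgroup.centralizer {x * f a}).map π) =
          Nat.card ((Subgroup.centralizer {x * f b}).map π) := by
      intro a b hab
      rw [decide_eq_decide] at hab
      by_cases h : Nat.card ((Subgroup.centralizer {x * f a}).map π) = orderOf (π x)
      · rw [h, hab.1 h]
      · have h' : ¬ Nat.card ((Subgroup.centralizer {x * f b}).map π) = orderOf (π x) := fun h2 => h (hab.2 h2)
        rw [((him a).resolve_left h).2, ((him b).resolve_left h').2]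
    have hinj : ∀ a b : Fin 5, a ≠ b → Fin.castLE hp5 a ≠ Fin.castLE hp5 b := by
      intro a b hab h
      exact hab (Fin.castLE_injective hp5 h)
    obtain ⟨g₁, hg₁⟩ := hconj (Fin.castLE hp5 i') (Fin.castLE hp5 j') (hcc _ _ hb1)
    obtain ⟨g₂, hg₂⟩ := hconj (Fin.castLE hp5 i') (Fin.castLE hp5 k') (hcc _ _ hb2)
    have hy2 : Nat.card (Subgroup.centralizer {π (x * f (Fin.castLE hp5 i'))}) =
        2 * orderOf (π (x * f (Fin.castLE hp5 i'))) := by
      rw [hπy, hx, hr2]
    obtain ⟨a, ha, ha2⟩ := orb2 s (x * f (Fin.castLE hp5 i')) g₁ g₂ hy2 (hmem _ _ _ hg₁) (hmem _ _ _ hg₂)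
      (by rw [hπy]; exact h1P _ _ _ (hinj _ _ hij') hg₁) (by rw [hπy]; exact h1P _ _ _ (hinj _ _ hik') hg₂)
    rw [hg₁, hg₂] at ha2
    exact hfn _ _ (hinj _ _ (Ne.symm hjk')) ⟨a, ha, ha2⟩
-- END fpf

-- BEGIN fpfN
/-- PROOF. If `v ≠ 1`, some power of `v` has prime order `p` (`orderOf v`, `Nat.minFac`), it is in the kernel and commutes with `x`. `p = 2, 3` are excluded by
`h2, h3` if `r = 2`; `fpf`. -/
theorem fpfN {G H : Type*} [Group G] [Finite G] [Group H] (hG : Ah G) (π : G →* H) (hπ : Function.Surjective π)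
    [Group.IsNilpotent π.ker] {r : ℕ} (hr : r = 1 ∨ r = 2) (x : G)
    (hx : Nat.card (Subgroup.centralizer {π x}) = r * orderOf (π x))
    (h23 : r = 1 ∨ ((∀ v, π v = 1 → v ^ 2 = 1 → v = 1) ∧ ∀ v, π v = 1 → v ^ 3 = 1 → v = 1)) :
    ∀ v ∈ π.ker, x * v = v * x → v = 1 := by
  intro v hv hc
  by_contra h1
  have ho : orderOf v ≠ 1 := fun h => h1 (orderOf_eq_one_iff.mp h)
  have hp : (orderOf v).minFac.Prime := Nat.minFac_prime ho
  have hd : (orderOf v).minFac ∣ orderOf v := Nat.minFac_dvd _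
  have h0 : orderOf v ≠ 0 := (orderOf_pos v).ne'
  have how : orderOf (v ^ (orderOf v / (orderOf v).minFac)) = (orderOf v).minFac := orderOf_pow_orderOf_div h0 hd
  have hwp : (v ^ (orderOf v / (orderOf v).minFac)) ^ (orderOf v).minFac = 1 := by
    rw [← pow_mul, Nat.div_mul_cancel hd, pow_orderOf_eq_one]
  have hpw : π (v ^ (orderOf v / (orderOf v).minFac)) = 1 := by
    rw [map_pow, MonoidHom.mem_ker.mp hv, one_pow]
  have hcw : x * v ^ (orderOf v / (orderOf v).minFac) = v ^ (orderOf v / (orderOf v).minFac) * x :=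
    ((show Commute x v from hc).pow_right _).eq
  have hw1 : v ^ (orderOf v / (orderOf v).minFac) ≠ 1 := by
    intro h
    rw [h, orderOf_one] at how
    exact hp.one_lt.ne how
  have hrp : r = 1 ∨ 5 ≤ (orderOf v).minFac := by
    rcases h23 with h | ⟨h2, h3⟩
    · exact Or.inl h
    · refine Or.inr (hp.five_le_of_ne_two_of_ne_three ?_ ?_)
      · intro h
        rw [h] at hwp hpw hw1
        exact hw1 (h2 _ hpw hwp)
      · intro h
        rw [h] at hwp hpw hw1
        exact hw1 (h3 _ hpw hwp)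
  exact hw1 (fpf hG π hπ hr x hx hp hrp _ hpw hwp hcw)
-- END fpfN

-- BEGIN rho
/-- The elements of order dividing `p` in the centre of the kernel. -/
def rho_W {G H : Type} [Group G] [Group H] (π : G →* H) (p : ℕ) : Subgroup G where
  carrier := {v | v ∈ π.ker ∧ (∀ n ∈ π.ker, n * v = v * n) ∧ v ^ p = 1}
  one_mem' := ⟨π.ker.one_mem, fun n _ => by rw [mul_one, one_mul], one_pow p⟩
  mul_mem' := by
    rintro a b ⟨ha, ha2, ha3⟩ ⟨hb, hb2, hb3⟩
    refine ⟨π.ker.mul_mem ha hb, fun n hn => ?_, ?_⟩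
    · rw [← mul_assoc, ha2 n hn, mul_assoc, hb2 n hn, mul_assoc]
    · have hc : Commute a b := hb2 a ha
      rw [hc.mul_pow, ha3, hb3, one_mul]
  inv_mem' := by
    rintro a ⟨ha, ha2, ha3⟩
    refine ⟨π.ker.inv_mem ha, fun n hn => ?_, ?_⟩
    · have hc : Commute n a := ha2 n hn
      exact hc.inv_right
    · rw [inv_pow, ha3, inv_one]

theorem rho_comm {G H : Type} [Group G] [Group H] (π : G →* H) (p : ℕ) (a b : rho_W π p) :
    a * b = b * a := by
  apply Subtype.ext
  exact b.2.2.1 a a.2.1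

theorem rho_conj {G H : Type} [Group G] [Group H] (π : G →* H) (p : ℕ) (g v : G) (hv : v ∈ rho_W π p) :
    g * v * g⁻¹ ∈ rho_W π p := by
  obtain ⟨h1, h2, h3⟩ := hv
  refine ⟨?_, fun n hn => ?_, ?_⟩
  · rw [MonoidHom.mem_ker] at h1 ⊢
    rw [map_mul, map_mul, h1, mul_one, ← map_mul, mul_inv_cancel, map_one]
  · have h4 : g⁻¹ * n * g ∈ π.ker := by
      rw [MonoidHom.mem_ker] at hn ⊢
      rw [map_mul, map_mul, hn, mul_one, ← map_mul, inv_mul_cancel, map_one]
    have h5 := h2 _ h4
    calc n * (g * v * g⁻¹) = g * ((g⁻¹ * n * g) * v) * g⁻¹ := by group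
      _ = g * (v * (g⁻¹ * n * g)) * g⁻¹ := by rw [h5]
      _ = g * v * g⁻¹ * n := by group
  · rw [conj_pow, h3, mul_one, mul_inv_cancel]

theorem rho_same {G H : Type} [Group G] [Group H] (π : G →* H) (p : ℕ) (g g' v : G) (hv : v ∈ rho_W π p)
    (h : π g = π g') : g * v * g⁻¹ = g' * v * g'⁻¹ := by
  have h1 : g'⁻¹ * g ∈ π.ker := by
    rw [MonoidHom.mem_ker, map_mul, map_inv, h, inv_mul_cancel]
  have h2 := hv.2.1 _ h1
  calc g * v * g⁻¹ = g' * ((g'⁻¹ * g) * v) * g⁻¹ := by group
    _ = g' * (v * (g'⁻¹ * g)) * g⁻¹ := by rw [h2]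
    _ = g' * v * g'⁻¹ := by group

/-- The commutative group of these elements. -/
@[reducible] def rho_cg {G H : Type} [Group G] [Group H] (π : G →* H) (p : ℕ) : CommGroup (rho_W π p) :=
  { (inferInstance : Group (rho_W π p)) with mul_comm := rho_comm π p }

/-- Conjugation. -/
def rho_hom {G H : Type} [Group G] [Group H] (π : G →* H) (p : ℕ) (g : G) : rho_W π p →* rho_W π p where
  toFun v := ⟨g * v * g⁻¹, rho_conj π p g v v.2⟩
  map_one' := by
    apply Subtype.ext
    show g * 1 * g⁻¹ = 1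
    rw [mul_one, mul_inv_cancel]
  map_mul' a b := by
    apply Subtype.ext
    show g * ((a : G) * b) * g⁻¹ = (g * a * g⁻¹) * (g * b * g⁻¹)
    group

theorem rho_elt {G H : Type} [Group G] [Finite G] [Group H] (π : G →* H) [Group.IsNilpotent π.ker] {p : ℕ}
    (hp : p.Prime) (v₀ : G) (h1 : π v₀ = 1) (h2 : v₀ ^ p = 1) (h3 : v₀ ≠ 1) : ∃ z ∈ rho_W π p, z ≠ 1 := by
  classical
  have : Fact p.Prime := ⟨hp⟩
  obtain ⟨s⟩ := exists_spl π p
  have : Nontrivial s.P := ⟨⟨1, ⟨v₀, s.mP v₀ h1 h2⟩, fun h => h3 (congrArg Subtype.val h).symm⟩⟩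
  have := s.pP.center_nontrivial
  obtain ⟨z, hz⟩ := exists_ne (1 : Subgroup.center s.P)
  have hex : ∃ k : ℕ, (z : s.P) ^ p ^ k = 1 := s.pP z
  have hk0 : Nat.find hex ≠ 0 := by
    intro h
    have h4 := Nat.find_spec hex
    rw [h, pow_zero, pow_one] at h4
    exact hz (Subtype.ext h4)
  obtain ⟨k, hk⟩ := Nat.exists_eq_succ_of_ne_zero hk0
  have h4 : (z : s.P) ^ p ^ k ≠ 1 := Nat.find_min hex (by rw [hk]; exact Nat.lt_succ_self k)
  have h5 : ((z : s.P) ^ p ^ k) ^ p = 1 := by
    rw [← pow_mul, ← pow_succ]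
    have h6 := Nat.find_spec hex
    rw [hk] at h6
    exact h6
  set y : s.P := (z : s.P) ^ p ^ k with hy
  have hyc : ∀ a : s.P, a * y = y * a := by
    intro a
    have h6 : Commute a (z : s.P) := (Subgroup.mem_center_iff.1 z.2 a)
    exact h6.pow_right _
  refine ⟨(y : G), ⟨s.lP y.2, fun n hn => ?_, ?_⟩, fun h => h4 (Subtype.ext h)⟩
  · obtain ⟨a, ha, b, hb, rfl⟩ := s.dec n hn
    have h6 : a * (y : G) = y * a := congrArg Subtype.val (hyc ⟨a, ha⟩)
    have h7 : (y : G) * b = b * y := s.com y y.2 b hb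
    rw [mul_assoc, ← h7, ← mul_assoc, h6, mul_assoc]
  · have h6 := congrArg Subtype.val h5
    exact h6

/-- THE MODULE. PROOF. `V = {v ∈ Z(ker π) : v ^ p = 1}` (additively written, `Additive` of a commutative subgroup of `G`, normal in `G`). It is not trivial: the
`p`-part of the nilpotent group `ker π` is not trivial (`v₀`), it is a normal subgroup and meets the centre non trivially (a nontrivial normal subgroup of
a nilpotent group does; or a `p`-group has nontrivial centre and commutes with the `p'`-part, `exists_spl`). `ρ h v = g v g⁻¹` for any `g` with `π g = h`. -/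
theorem exists_rho {G H : Type} [Group G] [Finite G] [Group H] (π : G →* H) (hπ : Function.Surjective π)
    [Group.IsNilpotent π.ker] {p : ℕ} (hp : p.Prime) (v₀ : G) (h1 : π v₀ = 1) (h2 : v₀ ^ p = 1) (h3 : v₀ ≠ 1) :
    ∃ (V : Type) (_ : AddCommGroup V) (ρ : H →* AddMonoid.End V), (∀ v : V, p • v = 0) ∧ (∃ v : V, v ≠ 0) ∧
      ∀ x : G, (∀ v ∈ π.ker, x * v = v * x → v = 1) → Free ρ (π x) := by
  classical
  letI : CommGroup (rho_W π p) := rho_cg π p
  have hs : ∀ h : H, π (Function.surjInv hπ h) = h := Function.surjInv_eq hπ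
  let ρ : H →* AddMonoid.End (Additive (rho_W π p)) :=
    { toFun := fun h => MonoidHom.toAdditive (rho_hom π p (Function.surjInv hπ h))
      map_one' := by
        apply AddMonoidHom.ext
        intro v
        apply Subtype.ext
        have h4 := rho_same π p (Function.surjInv hπ 1) 1 (Additive.toMul v).1 (Additive.toMul v).2
          (by rw [hs, map_one])
        rw [one_mul, inv_one, mul_one] at h4
        exact h4
      map_mul' := by
        intro a b
        apply AddMonoidHom.ext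
        intro v
        apply Subtype.ext
        have h4 := rho_same π p (Function.surjInv hπ (a * b)) (Function.surjInv hπ a * Function.surjInv hπ b)
          (Additive.toMul v).1 (Additive.toMul v).2 (by rw [hs, map_mul, hs, hs])
        have h5 : (Function.surjInv hπ a * Function.surjInv hπ b) * (Additive.toMul v).1 *
            (Function.surjInv hπ a * Function.surjInv hπ b)⁻¹ =
            Function.surjInv hπ a * (Function.surjInv hπ b * (Additive.toMul v).1 * (Function.surjInv hπ b)⁻¹) *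
            (Function.surjInv hπ a)⁻¹ := by group
        exact h4.trans h5 }
  refine ⟨Additive (rho_W π p), inferInstance, ρ, ?_, ?_, ?_⟩
  · intro v
    apply Subtype.ext
    exact (Additive.toMul v).2.2.2
  · obtain ⟨z, hz, hz1⟩ := rho_elt π hp v₀ h1 h2 h3
    exact ⟨Additive.ofMul ⟨z, hz⟩, fun h => hz1 (congrArg (fun v => (Additive.toMul v).1) h)⟩
  · intro x hx v hv
    have h4 : Function.surjInv hπ (π x) * (Additive.toMul v).1 * (Function.surjInv hπ (π x))⁻¹ =
        (Additive.toMul v).1 := congrArg (fun v => (Additive.toMul v).1) hv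
    have h5 := rho_same π p (Function.surjInv hπ (π x)) x (Additive.toMul v).1 (Additive.toMul v).2 (hs _)
    rw [h4] at h5
    have h6 : x * (Additive.toMul v).1 = (Additive.toMul v).1 * x := by
      calc x * (Additive.toMul v).1 = (x * (Additive.toMul v).1 * x⁻¹) * x := by group
        _ = (Additive.toMul v).1 * x := by rw [← h5]
    have h7 := hx _ (Additive.toMul v).2.1 h6
    apply Subtype.ext
    exact h7
-- END rho

end Pool.Agent.NbS
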