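import Pool.Agent.NbS.Defs

/-!
# Fixed vectors of commuting elements
-/

set_option autoImplicit false
set_option linter.unusedSectionVars false

namespace Pool.Agent.NbS

variable {H V : Type*} [Group H] [AddCommGroup V] (ρ : H →* AddMonoid.End V)

-- BEGIN T3
private theorem T3_comm {c m : H} {g : ℕ} (h3 : m * c = c ^ g * m) (j k : ℕ) : m ^ j * c ^ k = c ^ (g ^ j * k) * m ^ j := by
  have h0 : ∀ k : ℕ, m * c ^ k = c ^ (g * k) * m := by
    intro k
    induction k with
    | zero => simp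
    | succ k ih => rw [pow_succ, ← mul_assoc, ih, mul_assoc, h3, ← mul_assoc, ← pow_add, mul_add, mul_one]
  induction j with
  | zero => simp
  | succ j ih =>
    rw [pow_succ, mul_assoc, h0, ← mul_assoc, pow_succ g, mul_assoc (g ^ j)]
    have := ih
    have h4 : m ^ j * c ^ (g * k) = c ^ (g ^ j * (g * k)) * m ^ j := by
      clear this ih
      induction j generalizing k with
      | zero => simp
      | succ j ih => rw [pow_succ, mul_assoc, h0, ← mul_assoc, ih (g * k), mul_assoc, pow_succ g, mul_assoc (g ^ j)]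
    rw [h4, mul_assoc]

private theorem T3_sum {x : H} {n : ℕ} (h : x ^ n = 1) (w : V) :
    ρ x (∑ j ∈ Finset.range n, ρ (x ^ j) w) = ∑ j ∈ Finset.range n, ρ (x ^ j) w := by
  rw [map_sum]
  have h1 : ∀ j : ℕ, ρ x (ρ (x ^ j) w) = ρ (x ^ (j + 1)) w := by
    intro j
    rw [pow_succ', map_mul]; rfl
  simp only [h1]
  have h2 := Finset.sum_range_succ (fun j => ρ (x ^ j) w) n
  have h3 := Finset.sum_range_succ' (fun j => ρ (x ^ j) w) n
  rw [h2] at h3
  rw [h, pow_zero] at h3
  exact (add_right_cancel h3).symm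

private theorem T3_fx {S : Set H} {x : H} {n : ℕ} (h : x ^ n = 1) (hx : ∀ s ∈ S, Commute x s) {w : V} (hw : ∀ s ∈ S, ρ s w = w)
    (h0 : (∑ j ∈ Finset.range n, ρ (x ^ j) w) ≠ 0) : Fx ρ (insert x S) := by
  refine ⟨_, h0, ?_⟩
  intro s hs
  rcases Set.mem_insert_iff.1 hs with rfl | hs
  · exact T3_sum ρ h w
  · rw [map_sum]
    refine Finset.sum_congr rfl fun j _ => ?_
    have h1 : ρ s (ρ (x ^ j) w) = ρ (s * x ^ j) w := by rw [map_mul]; rfl
    rw [h1, ← ((hx s hs).pow_left j).eq, map_mul]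
    show ρ (x ^ j) (ρ s w) = ρ (x ^ j) w
    rw [hw s hs]

private theorem T3_perm {q : ℕ} (hq : q.Prime) {c : H} (h1 : c ^ q = 1) (a : ℕ) (ha : ¬ q ∣ a) (w : V) :
    ∑ i ∈ Finset.range q, ρ (c ^ (i * a)) w = ∑ i ∈ Finset.range q, ρ (c ^ i) w := by
  have hc : Nat.Coprime q a := (Nat.Prime.coprime_iff_not_dvd hq).2 ha
  refine Finset.sum_nbij (fun i => i * a % q) ?_ ?_ ?_ ?_
  · intro i _
    exact Finset.mem_range.2 (Nat.mod_lt _ hq.pos)
  · intro i hi j hj hij
    have h2 : i * a ≡ j * a [MOD q] := hij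
    have h3 : i ≡ j [MOD q] := Nat.ModEq.cancel_right_of_coprime (by simpa using hc) h2
    have hi' := Finset.mem_range.1 (Finset.mem_coe.1 hi)
    have hj' := Finset.mem_range.1 (Finset.mem_coe.1 hj)
    have := h3
    unfold Nat.ModEq at this
    rwa [Nat.mod_eq_of_lt hi', Nat.mod_eq_of_lt hj'] at this
  · refine Finset.surjOn_of_injOn_of_card_le _ ?_ ?_ le_rfl
    · intro i _
      exact Finset.mem_coe.2 (Finset.mem_range.2 (Nat.mod_lt _ hq.pos))
    · intro i hi j hj hij
      have h2 : i * a ≡ j * a [MOD q] := hij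
      have h3 : i ≡ j [MOD q] := Nat.ModEq.cancel_right_of_coprime (by simpa using hc) h2
      have hi' := Finset.mem_range.1 (Finset.mem_coe.1 hi)
      have hj' := Finset.mem_range.1 (Finset.mem_coe.1 hj)
      have := h3
      unfold Nat.ModEq at this
      rwa [Nat.mod_eq_of_lt hi', Nat.mod_eq_of_lt hj'] at this
  · intro i _
    rw [pow_eq_pow_mod (i * a) h1]

/-- PROOF. Let `U` be the fixed space of `S`, `v ∈ U`, `v ≠ 0`. `∑ i < q, ρ (c ^ i) w` is fixed by `c` and by `S` for `w ∈ U`; so if it is not `0` for some `w ∈ U` we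
are done; similarly with `∑ j < q - 1, ρ (m ^ j) w`. Suppose that both sums vanish on `U` (`U` is invariant under `c, m`). Then
`0 = ∑ i < q, ∑ j < q - 1, ρ (c ^ i * m ^ j * c⁻¹ ^ i) v`. `m ^ j * c = c ^ (g ^ j) * m ^ j`, so `c ^ i * m ^ j * c⁻¹ ^ i = c ^ (i * (1 - g ^ j)) * m ^ j`; for
`0 < j` the map `i ↦ i (1 - g ^ j)` is a bijection modulo `q`, so the sum over `i` is `(∑ i, c ^ i) (m ^ j v) = 0`. The sum for `j = 0` is `q • v`. So `q • v = 0`
and `p • v = 0`, `v = 0`. -/
theorem T3 {p q g : ℕ} (hp : p.Prime) (hq : q.Prime) (h3q : 3 ≤ q) (hpq : q ≠ p) (hV : ∀ v : V, p • v = 0) (c m : H)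
    (h1 : c ^ q = 1) (h2 : m ^ (q - 1) = 1) (h3 : m * c = c ^ g * m)
    (hg : ∀ j, 0 < j → j < q - 1 → ¬ g ^ j ≡ 1 [MOD q]) {S : Set H} (hS : Fx ρ S)
    (hc : ∀ s ∈ S, Commute c s) (hm : ∀ s ∈ S, Commute m s) : Fx ρ (insert c S) ∨ Fx ρ (insert m S) := by
  classical
  by_contra hcon
  rw [not_or] at hcon
  obtain ⟨hcc, hmm⟩ := hcon
  have hC : ∀ w : V, (∀ s ∈ S, ρ s w = w) → ∑ j ∈ Finset.range q, ρ (c ^ j) w = 0 := by
    intro w hw
    by_contra h0
    exact hcc (T3_fx ρ h1 hc hw h0)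
  have hM : ∀ w : V, (∀ s ∈ S, ρ s w = w) → ∑ j ∈ Finset.range (q - 1), ρ (m ^ j) w = 0 := by
    intro w hw
    by_contra h0
    exact hmm (T3_fx ρ h2 hm hw h0)
  have hU : ∀ x : H, (∀ s ∈ S, Commute x s) → ∀ w : V, (∀ s ∈ S, ρ s w = w) → ∀ s ∈ S, ρ s (ρ x w) = ρ x w := by
    intro x hx w hw s hs
    have h4 : ρ s (ρ x w) = ρ (s * x) w := by rw [map_mul]; rfl
    rw [h4, ← (hx s hs).eq, map_mul]
    show ρ x (ρ s w) = ρ x w
    rw [hw s hs]
  obtain ⟨v, hv0, hv⟩ := hS
  have hexp : ∀ i j : ℕ, ρ (c ^ i) (ρ (m ^ j) (ρ (c ^ ((q - 1) * i)) v)) = ρ (c ^ (i * (1 + (q - 1) * g ^ j))) (ρ (m ^ j) v) := by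
    intro i j
    have h5 : c ^ i * (m ^ j * c ^ ((q - 1) * i)) = c ^ (i * (1 + (q - 1) * g ^ j)) * m ^ j := by
      rw [T3_comm h3, ← mul_assoc, ← pow_add]
      congr 2
      ring
    have h6 : ρ (c ^ i) (ρ (m ^ j) (ρ (c ^ ((q - 1) * i)) v)) = ρ (c ^ i * (m ^ j * c ^ ((q - 1) * i))) v := by
      rw [map_mul, map_mul]; rfl
    rw [h6, h5, map_mul]; rfl
  have htot : ∑ i ∈ Finset.range q, ∑ j ∈ Finset.range (q - 1),
      ρ (c ^ (i * (1 + (q - 1) * g ^ j))) (ρ (m ^ j) v) = 0 := by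
    refine Finset.sum_eq_zero fun i _ => ?_
    have h7 := hM (ρ (c ^ ((q - 1) * i)) v) (hU _ (fun s hs => (hc s hs).pow_left _) v hv)
    have h8 : ρ (c ^ i) (∑ j ∈ Finset.range (q - 1), ρ (m ^ j) (ρ (c ^ ((q - 1) * i)) v)) = 0 := by
      rw [h7, map_zero]
    rw [map_sum] at h8
    rw [← h8]
    exact Finset.sum_congr rfl fun j _ => (hexp i j).symm
  rw [Finset.sum_comm] at htot
  have hq1 : q - 1 = (q - 2) + 1 := by omega
  rw [hq1, Finset.sum_range_succ'] at htot
  have hz : ∑ j ∈ Finset.range (q - 2), ∑ i ∈ Finset.range q,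
      ρ (c ^ (i * (1 + (q - 2 + 1) * g ^ (j + 1)))) (ρ (m ^ (j + 1)) v) = 0 := by
    refine Finset.sum_eq_zero fun j hj => ?_
    have hj' := Finset.mem_range.1 hj
    rw [T3_perm ρ hq h1 (1 + (q - 2 + 1) * g ^ (j + 1)) ?_ (ρ (m ^ (j + 1)) v)]
    · exact hC _ (hU _ (fun s hs => (hm s hs).pow_left _) v hv)
    · intro hd
      refine hg (j + 1) (by omega) (by omega) ?_
      rw [← hq1] at hd
      have h9 : 1 + (q - 1) * g ^ (j + 1) + g ^ (j + 1) = 1 + q * g ^ (j + 1) := by
        have : (q - 1) * g ^ (j + 1) + g ^ (j + 1) = q * g ^ (j + 1) := by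
          rw [← Nat.succ_mul]
          congr 1
          show q - 1 + 1 = q
          omega
        omega
      have h10 : 1 + (q - 1) * g ^ (j + 1) + g ^ (j + 1) ≡ 0 + g ^ (j + 1) [MOD q] :=
        Nat.ModEq.add_right _ ((Nat.modEq_zero_iff_dvd).2 hd)
      rw [h9, zero_add] at h10
      have h11 : 1 + q * g ^ (j + 1) ≡ 1 [MOD q] := by
        unfold Nat.ModEq
        rw [Nat.add_mul_mod_self_left]
      exact h10.symm.trans h11
  rw [hz, zero_add] at htot
  have hterm : ∀ i : ℕ, ρ (c ^ (i * (1 + (q - 2 + 1) * g ^ 0))) (ρ (m ^ 0) v) = v := by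
    intro i
    have h12 : i * (1 + (q - 2 + 1) * g ^ 0) = q * i := by
      rw [pow_zero, mul_one, mul_comm]
      congr 1
      omega
    rw [h12, pow_mul, h1, one_pow, pow_zero, map_one]
    rfl
  rw [Finset.sum_congr rfl (fun i _ => hterm i), Finset.sum_const, Finset.card_range] at htot
  have hcop : Nat.Coprime p q := (Nat.coprime_primes hp hq).2 (Ne.symm hpq)
  have hpv := hV v
  have h13 : addOrderOf v ∣ p := addOrderOf_dvd_of_nsmul_eq_zero hpv
  have h14 : addOrderOf v ∣ q := addOrderOf_dvd_of_nsmul_eq_zero htot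
  have h15 : addOrderOf v = 1 := Nat.eq_one_of_dvd_coprimes hcop h13 h14
  exact hv0 (AddMonoid.addOrderOf_eq_one_iff.1 h15)
-- END T3

-- BEGIN T4
open Finset in
private theorem T4_pm {H : Type*} [Group H] {g : H} {q : ℕ} (hg : g ^ q = 1) (n : ℕ) : g ^ (n % q) = g ^ n := by
  conv_rhs => rw [← Nat.div_add_mod n q, pow_add, pow_mul, hg, one_pow, one_mul]

open Finset in
private theorem T4_rs {A : Type*} [AddCommMonoid A] (q : ℕ) [NeZero q] (f : ℕ → A) :
    ∑ i ∈ range q, f i = ∑ x : ZMod q, f x.val := by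
  refine sum_nbij' (fun i => (i : ZMod q)) ZMod.val ?_ ?_ ?_ ?_ ?_
  · intro i _; exact mem_univ _
  · intro x _; exact mem_range.2 (ZMod.val_lt x)
  · intro i hi; exact ZMod.val_natCast_of_lt (mem_range.1 hi)
  · intro x _; exact ZMod.natCast_zmod_val x
  · intro i hi; rw [ZMod.val_natCast_of_lt (mem_range.1 hi)]

open Finset in
private theorem T4_re {H A : Type*} [Group H] [AddCommMonoid A] {g : H} {q : ℕ} [Fact q.Prime] (hg : g ^ q = 1)
    (F : H → A) (j : ZMod q) (hj : j ≠ 0) :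
    ∑ i ∈ range q, F (g ^ (i * j.val)) = ∑ i ∈ range q, F (g ^ i) := by
  have : NeZero q := ⟨(Fact.out : q.Prime).ne_zero⟩
  rw [T4_rs q (fun i => F (g ^ (i * j.val))), T4_rs q (fun i => F (g ^ i))]
  refine Fintype.sum_equiv (Equiv.mulRight₀ j hj) _ _ fun x => ?_
  have e : (Equiv.mulRight₀ j hj) x = x * j := rfl
  rw [e, ZMod.val_mul, T4_pm hg]


open Finset in
private theorem T4_mul (g h : H) (v : V) : ρ (g * h) v = ρ g (ρ h v) := by
  rw [map_mul]; rfl

open Finset in
private theorem T4_one (v : V) : ρ 1 v = v := by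
  rw [map_one]; rfl

open Finset in
/-- the fixed space of `S` is stable under the elements commuting with `S` -/
private theorem T4_st {S : Set H} {g : H} (hg : ∀ s ∈ S, s * g = g * s) {v : V} (hv : ∀ s ∈ S, ρ s v = v) :
    ∀ s ∈ S, ρ s (ρ g v) = ρ g v := by
  intro s hs
  rw [← T4_mul, hg s hs, T4_mul, hv s hs]

open Finset in
/-- the norm of an element without fixed vectors is zero -/
private theorem T4_nrm {S : Set H} {g : H} {n : ℕ} (hn : g ^ n = 1) (hg : ∀ s ∈ S, s * g = g * s)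
    (h : ¬ Fx ρ (insert g S)) {v : V} (hv : ∀ s ∈ S, ρ s v = v) :
    ∑ i ∈ range n, ρ (g ^ i) v = 0 := by
  by_contra hne
  apply h
  refine ⟨_, hne, ?_⟩
  intro s hs
  rcases Set.mem_insert_iff.1 hs with rfl | hs
  · rw [map_sum]
    have e1 : ∀ i ∈ range n, ρ s (ρ (s ^ i) v) = ρ (s ^ (i + 1)) v := by
      intro i _
      rw [← T4_mul, pow_succ']
    rw [sum_congr rfl e1]
    have e2 := sum_range_succ (fun i => ρ (s ^ i) v) n
    have e3 := sum_range_succ' (fun i => ρ (s ^ i) v) n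
    rw [e2] at e3
    have e4 : ρ (s ^ n) v = v := by rw [hn, T4_one]
    have e5 : ρ (s ^ 0) v = v := by rw [pow_zero, T4_one]
    rw [e4, e5] at e3
    exact (add_right_cancel e3).symm
  · rw [map_sum]
    refine sum_congr rfl fun i _ => ?_
    refine T4_st ρ (g := g ^ i) ?_ hv s hs
    intro s hs
    exact (Commute.pow_right (hg s hs) i).eq

open Finset in
private theorem T4_fin {p q : ℕ} (hp : ∀ v : V, p • v = 0) (hpq : p.Coprime q) {v : V} (h : q • v = 0) : v = 0 := by
  have h1 : addOrderOf v ∣ p := addOrderOf_dvd_of_nsmul_eq_zero (hp v)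
  have h2 : addOrderOf v ∣ q := addOrderOf_dvd_of_nsmul_eq_zero h
  have h3 : addOrderOf v ∣ 1 := by
    have := Nat.dvd_gcd h1 h2
    rwa [hpq] at this
  exact AddMonoid.addOrderOf_eq_one_iff.1 (Nat.dvd_one.1 h3)

open Finset in
/-- `T4` -/
private theorem T4_main {p q : ℕ} (hp : ∀ v : V, p • v = 0) (hpq : p.Coprime q) (hq : q.Prime) {S : Set H} (hS : Fx ρ S) (y z : H)
    (hy : y ^ q = 1) (hz : z ^ q = 1) (hyz : y * z = z * y) (hyS : ∀ s ∈ S, s * y = y * s)
    (hzS : ∀ s ∈ S, s * z = z * s) :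
    Fx ρ (insert y S) ∨ ∃ i < q, Fx ρ (insert (y ^ i * z) S) := by
  by_contra hcon
  push Not at hcon
  obtain ⟨h1, h2⟩ := hcon
  obtain ⟨v, hv0, hv⟩ := hS
  apply hv0
  have : Fact q.Prime := ⟨hq⟩
  have hcyz : Commute y z := hyz
  -- norm of y
  have n1 : ∀ w : V, (∀ s ∈ S, ρ s w = w) → ∑ i ∈ range q, ρ (y ^ i) w = 0 := fun w hw => T4_nrm ρ hy hyS h1 hw
  have n2 : ∀ i < q, ∑ j ∈ range q, ρ ((y ^ i * z) ^ j) v = 0 := by
    intro i hi
    refine T4_nrm ρ ?_ ?_ (h2 i hi) hv
    · rw [(hcyz.pow_left i).mul_pow, hz, mul_one, ← pow_mul, mul_comm, pow_mul, hy, one_pow]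
    · intro s hs
      exact ((Commute.pow_right (hyS s hs) i).mul_right (hzS s hs)).eq
  have n3 : ∑ i ∈ range q, ∑ j ∈ range q, ρ ((y ^ i * z) ^ j) v = 0 :=
    sum_eq_zero fun i hi => n2 i (mem_range.1 hi)
  rw [sum_comm] at n3
  -- the inner sum
  have n4 : ∀ j ∈ range q, j ≠ 0 → ∑ i ∈ range q, ρ ((y ^ i * z) ^ j) v = 0 := by
    intro j hj hj0
    have hjq := mem_range.1 hj
    have e1 : ∀ i ∈ range q, ρ ((y ^ i * z) ^ j) v = ρ (y ^ (i * j)) (ρ (z ^ j) v) := by
      intro i _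
      rw [(hcyz.pow_left i).mul_pow, ← pow_mul, T4_mul]
    rw [sum_congr rfl e1]
    -- reindex by multiplication by `j`
    have hst : ∀ s ∈ S, ρ s (ρ (z ^ j) v) = ρ (z ^ j) v :=
      T4_st ρ (fun s hs => (Commute.pow_right (hzS s hs) j).eq) hv
    have hj1 : ((j : ZMod q)).val = j := ZMod.val_natCast_of_lt hjq
    have hj2 : (j : ZMod q) ≠ 0 := by
      intro h
      rw [h, ZMod.val_zero] at hj1
      exact hj0 hj1.symm
    have e2 := T4_re hy (fun g => ρ g (ρ (z ^ j) v)) (j : ZMod q) hj2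
    rw [hj1] at e2
    rw [e2]
    exact n1 _ hst
  rw [sum_eq_single 0 n4 (fun h => absurd (mem_range.2 hq.pos) h)] at n3
  simp only [pow_zero, T4_one, sum_const, card_range] at n3
  exact T4_fin hp hpq n3

theorem T4 {p q : ℕ} (hp : p.Prime) (hq : q.Prime) (hpq : q ≠ p) (hV : ∀ v : V, p • v = 0) (a b : H)
    (ha : a ^ q = 1) (hb : b ^ q = 1) (hab : Commute a b) {S : Set H} (hS : Fx ρ S)
    (haS : ∀ s ∈ S, Commute a s) (hbS : ∀ s ∈ S, Commute b s) :
    Fx ρ (insert a S) ∨ ∃ i : ℕ, Fx ρ (insert (a ^ i * b) S) := by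
  rcases T4_main ρ hV ((Nat.coprime_primes hp hq).2 (Ne.symm hpq)) hq hS a b ha hb hab.eq
    (fun s hs => (haS s hs).eq.symm) (fun s hs => (hbS s hs).eq.symm) with h | ⟨i, -, h⟩
  · exact Or.inl h
  · exact Or.inr ⟨i, h⟩
-- END T4

-- BEGIN T5
open Finset in
private theorem T5_pm {H : Type*} [Group H] {g : H} {q : ℕ} (hg : g ^ q = 1) (n : ℕ) : g ^ (n % q) = g ^ n := by
  conv_rhs => rw [← Nat.div_add_mod n q, pow_add, pow_mul, hg, one_pow, one_mul]

open Finset in
private theorem T5_mul (g h : H) (v : V) : ρ (g * h) v = ρ g (ρ h v) := by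
  rw [map_mul]; rfl

open Finset in
private theorem T5_one (v : V) : ρ 1 v = v := by
  rw [map_one]; rfl

open Finset in
/-- the fixed space of `S` is stable under the elements commuting with `S` -/
private theorem T5_st {S : Set H} {g : H} (hg : ∀ s ∈ S, s * g = g * s) {v : V} (hv : ∀ s ∈ S, ρ s v = v) :
    ∀ s ∈ S, ρ s (ρ g v) = ρ g v := by
  intro s hs
  rw [← T5_mul, hg s hs, T5_mul, hv s hs]

open Finset in
private theorem T5_mono {S T : Set H} (h : S ⊆ T) (hT : Fx ρ T) : Fx ρ S := by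
  obtain ⟨v, h0, hv⟩ := hT
  exact ⟨v, h0, fun s hs => hv s (h hs)⟩

/-- the product of powers of commuting elements -/
private def T5_lp (z : ℕ → H) (k : ℕ) (e : ℕ → ℕ) : H := ((List.range k).map fun i => z i ^ e i).prod

open Finset in
private theorem T5_succ (z : ℕ → H) (k : ℕ) (e : ℕ → ℕ) : T5_lp z (k + 1) e = T5_lp z k e * z k ^ e k := by
  simp [T5_lp, List.range_succ]

open Finset in
private theorem T5_zero (z : ℕ → H) (e : ℕ → ℕ) : T5_lp z 0 e = 1 := by simp [T5_lp]

open Finset in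
private theorem T5_congr (z : ℕ → H) (k : ℕ) (e e' : ℕ → ℕ) (h : ∀ i < k, z i ^ e i = z i ^ e' i) : T5_lp z k e = T5_lp z k e' := by
  induction k with
  | zero => rw [T5_zero, T5_zero]
  | succ k ih => rw [T5_succ, T5_succ, ih fun i hi => h i (by omega), h k (by omega)]

open Finset in
private theorem T5_comm (z : ℕ → H) (k : ℕ) (e : ℕ → ℕ) (g : H) (h : ∀ i < k, g * z i = z i * g) : g * T5_lp z k e = T5_lp z k e * g := by
  induction k with
  | zero => rw [T5_zero, one_mul, mul_one]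
  | succ k ih =>
    rw [T5_succ, ← mul_assoc, ih fun i hi => h i (by omega), mul_assoc, mul_assoc]
    congr 1
    exact (Commute.pow_right (h k (by omega)) (e k)).eq

open Finset in
private theorem T5_upd (z : ℕ → H) (k : ℕ) (e : ℕ → ℕ) (m : ℕ) (hcz : ∀ i j, z i * z j = z j * z i) :
    T5_lp z (k + 1) e * z 0 ^ m = T5_lp z (k + 1) (Function.update e 0 (e 0 + m)) := by
  induction k with
  | zero => rw [T5_succ, T5_succ, T5_zero, T5_zero, one_mul, one_mul, Function.update_self, pow_add]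
  | succ k ih =>
    rw [T5_succ, T5_succ z (k + 1) (Function.update e 0 (e 0 + m)), ← ih, Function.update_of_ne (by omega), mul_assoc,
      mul_assoc]
    congr 1
    exact ((Commute.pow_pow (hcz (k + 1) 0) (e (k + 1)) m)).eq

open Finset in
/-- `T5` -/
private theorem T5_main {p q : ℕ} (hpp : p.Prime) (hpq : q ≠ p) (hp : ∀ v : V, p • v = 0) (hq : q.Prime) (hq3 : 3 ≤ q) {S : Set H} (hS : Fx ρ S)
    (z : ℕ → H) (hz : ∀ i, z i ^ q = 1) (hcz : ∀ i j, z i * z j = z j * z i)
    (hzS : ∀ i, ∀ s ∈ S, s * z i = z i * s) (hno : ∀ i, ¬ Fx ρ (insert (z i) S)) (k : ℕ) (hk : 2 ≤ k) :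
    ∃ e : ℕ → ℕ, (∀ i < k, 0 < e i ∧ e i < q) ∧ Fx ρ (insert (T5_lp z k e) S) := by
  induction k, hk using Nat.le_induction with
  | base =>
    rcases T4 ρ hpp hq hpq hp (z 0) (z 1) (hz 0) (hz 1) (hcz 0 1) hS (fun s hs => (hzS 0 s hs).symm)
      (fun s hs => (hzS 1 s hs).symm) with h | ⟨i', h⟩
    · exact absurd h (hno 0)
    · obtain ⟨i, hi, h⟩ : ∃ i < q, Fx ρ (insert (z 0 ^ i * z 1) S) :=
        ⟨i' % q, Nat.mod_lt _ hq.pos, by rw [T5_pm (hz 0)]; exact h⟩
      have hi0 : 0 < i := by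
        rcases Nat.eq_zero_or_pos i with rfl | h0
        · rw [pow_zero, one_mul] at h
          exact absurd h (hno 1)
        · exact h0
      refine ⟨fun j => if j = 0 then i else 1, ?_, ?_⟩
      · intro j _
        by_cases hj : j = 0
        · simp only [hj, if_true]; omega
        · simp only [hj, if_false]; omega
      · have e1 : T5_lp z 2 (fun j => if j = 0 then i else 1) = z 0 ^ i * z 1 := by
          rw [T5_succ, T5_succ, T5_zero, one_mul, if_pos rfl, if_neg one_ne_zero, pow_one]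
        rw [e1]; exact h
  | succ k hk ih =>
    obtain ⟨e, he, hw⟩ := ih
    obtain ⟨k, rfl⟩ : ∃ k', k = k' + 1 := ⟨k - 1, by omega⟩
    have hcw : ∀ i, T5_lp z (k + 1) e * z i = z i * T5_lp z (k + 1) e :=
      fun i => (T5_comm z (k + 1) e (z i) fun j _ => hcz i j).symm
    have hzS' : ∀ i, ∀ s ∈ insert (T5_lp z (k + 1) e) S, s * z i = z i * s := by
      intro i s hs
      rcases Set.mem_insert_iff.1 hs with rfl | hs
      · exact hcw i
      · exact hzS i s hs
    have hsub : ∀ g : H, insert g S ⊆ insert g (insert (T5_lp z (k + 1) e) S) :=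
      fun g => Set.insert_subset_insert (Set.subset_insert _ _)
    have h4 : Fx ρ (insert (z 0) (insert (T5_lp z (k + 1) e) S)) ∨
        ∃ i < q, Fx ρ (insert (z 0 ^ i * z (k + 1)) (insert (T5_lp z (k + 1) e) S)) := by
      rcases T4 ρ hpp hq hpq hp (z 0) (z (k + 1)) (hz _) (hz _) (hcz _ _) hw (fun s hs => (hzS' _ s hs).symm)
        (fun s hs => (hzS' _ s hs).symm) with h | ⟨i', h⟩
      · exact Or.inl h
      · exact Or.inr ⟨i' % q, Nat.mod_lt _ hq.pos, by rw [T5_pm (hz 0)]; exact h⟩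
    rcases h4 with h | ⟨i, hi, h⟩
    · exact absurd (T5_mono ρ (hsub _) h) (hno 0)
    · have hi0 : 0 < i := by
        rcases Nat.eq_zero_or_pos i with rfl | h0
        · rw [pow_zero, one_mul] at h
          exact absurd (T5_mono ρ (hsub _) h) (hno (k + 1))
        · exact h0
      -- the exponent `t`
      obtain ⟨t, ht0, htq, ht⟩ : ∃ t, 0 < t ∧ t < q ∧ ¬ q ∣ e 0 + i * t := by
        by_cases h1 : q ∣ e 0 + i * 1
        · refine ⟨2, by omega, by omega, fun h2 => ?_⟩
          have h3 : q ∣ (e 0 + i * 2) - (e 0 + i * 1) := Nat.dvd_sub h2 h1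
          have h4 : (e 0 + i * 2) - (e 0 + i * 1) = i := by omega
          rw [h4] at h3
          exact absurd (Nat.le_of_dvd hi0 h3) (by omega)
        · exact ⟨1, by omega, by omega, h1⟩
      set e' : ℕ → ℕ := fun j => if j = 0 then (e 0 + i * t) % q else if j = k + 1 then t else e j with he'
      refine ⟨e', ?_, ?_⟩
      · intro j hj
        by_cases hj0 : j = 0
        · simp only [he', hj0, if_true]
          refine ⟨Nat.pos_of_ne_zero fun h => ht (Nat.dvd_of_mod_eq_zero h), Nat.mod_lt _ (by omega)⟩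
        · by_cases hjk : j = k + 1
          · simp only [he', hjk, if_true]
            rw [if_neg (by omega)]
            exact ⟨ht0, htq⟩
          · simp only [he', hj0, hjk, if_false]
            exact he j (by omega)
      · have e1 : T5_lp z (k + 1 + 1) e' = T5_lp z (k + 1) e * (z 0 ^ i * z (k + 1)) ^ t := by
          have hc : Commute (z 0 ^ i) (z (k + 1)) := Commute.pow_left (hcz 0 (k + 1)) i
          rw [hc.mul_pow, ← pow_mul, ← mul_assoc, T5_upd z k e (i * t) hcz, T5_succ]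
          have e2 : e' (k + 1) = t := by simp [he']
          rw [e2]
          congr 1
          refine T5_congr z _ _ _ fun j hj => ?_
          by_cases hj0 : j = 0
          · subst hj0
            rw [Function.update_self, ← T5_pm (hz 0) (e 0 + i * t)]
            simp only [he', if_true]
          · rw [Function.update_of_ne hj0]
            simp only [he', hj0, if_false]
            rw [if_neg (by omega)]
        obtain ⟨v, h0, hv⟩ := h
        refine ⟨v, h0, ?_⟩
        intro s hs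
        rcases Set.mem_insert_iff.1 hs with rfl | hs
        · rw [e1, T5_mul]
          have f1 : ∀ n : ℕ, ρ ((z 0 ^ i * z (k + 1)) ^ n) v = v := by
            intro n
            induction n with
            | zero => rw [pow_zero, T5_one]
            | succ n ih => rw [pow_succ, T5_mul, hv _ (Set.mem_insert _ _), ih]
          rw [f1, hv _ (Set.mem_insert_of_mem _ (Set.mem_insert _ _))]
        · exact hv s (Set.mem_insert_of_mem _ (Set.mem_insert_of_mem _ hs))

theorem T5 {p q : ℕ} (hp : p.Prime) (hq : q.Prime) (h3q : 3 ≤ q) (hpq : q ≠ p) (hV : ∀ v : V, p • v = 0)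
    (k : ℕ) (hk : 2 ≤ k) (z : ℕ → H) (hz : ∀ i < k, z i ^ q = 1) (hc : ∀ i < k, ∀ j < k, Commute (z i) (z j))
    {S : Set H} (hS : Fx ρ S) (hzS : ∀ i < k, ∀ s ∈ S, Commute (z i) s) :
    (∃ i < k, Fx ρ (insert (z i) S)) ∨
      ∃ e : ℕ → ℕ, (∀ i < k, ¬ q ∣ e i) ∧ Fx ρ (insert ((List.range k).map fun i => z i ^ e i).prod S) := by
  by_cases hno : ∃ i < k, Fx ρ (insert (z i) S)
  · exact Or.inl hno
  · right
    have hk' : ∀ i, (if i < k then i else 0) < k := by
      intro i; split_ifs with h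
      · exact h
      · omega
    obtain ⟨e, he, hfx⟩ := T5_main ρ hp hpq hV hq h3q hS (fun i => z (if i < k then i else 0)) (fun i => hz _ (hk' i))
      (fun i j => (hc _ (hk' i) _ (hk' j)).eq) (fun i s hs => (hzS _ (hk' i) s hs).eq.symm)
      (fun i h => hno ⟨_, hk' i, h⟩) k hk
    refine ⟨e, fun i hi h => ?_, ?_⟩
    · have := Nat.le_of_dvd (he i hi).1 h
      have := (he i hi).2
      omega
    · have e1 : T5_lp (fun i => z (if i < k then i else 0)) k e = ((List.range k).map fun i => z i ^ e i).prod := by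
        unfold T5_lp
        congr 1
        refine List.map_congr_left fun i hi => ?_
        have h1 : (if i < k then i else 0) = i := if_pos (List.mem_range.1 hi)
        show z (if i < k then i else 0) ^ e i = _
        rw [h1]
      rw [← e1]
      exact hfx
-- END T5

-- BEGIN free_pow
/-- PROOF. `(ρ s - 1) ^ p ^ e = (ρ s) ^ p ^ e - 1` in the endomorphism ring, which has characteristic `p` (or `V = 0`) (`sub_pow_char_pow..`, `Commute`; or for `e = 1` by the
binomial theorem, induction on `e`). If `v ≠ 0` is fixed by `s ^ p ^ e`, take the least `j` with `(ρ s - 1) ^ j v = 0`; `(ρ s - 1) ^ (j - 1) v` is a nonzero fixed vector of `s`. -/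
theorem free_pow {p : ℕ} (hp : p.Prime) (hV : ∀ v : V, p • v = 0) (s : H) (h : Free ρ s) (e : ℕ) : Free ρ (s ^ p ^ e) := by
  intro v hv
  by_contra hv0
  have : Fact p.Prime := ⟨hp⟩
  have hne : (1 : AddMonoid.End V) ≠ 0 := by
    intro h10
    apply hv0
    have := DFunLike.congr_fun h10 v
    simpa using this
  have hpp : ((p : ℕ) : AddMonoid.End V) = 0 := by
    ext w
    simpa using hV w
  have : CharP (AddMonoid.End V) p := by
    obtain ⟨q, hq⟩ := CharP.exists (AddMonoid.End V)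
    have hqp : q ∣ p := (CharP.cast_eq_zero_iff (AddMonoid.End V) q p).1 hpp
    rcases (Nat.dvd_prime hp).1 hqp with h1 | h1
    · exfalso
      apply hne
      have := (CharP.cast_eq_zero_iff (AddMonoid.End V) q 1).2 (by rw [h1])
      simpa using this
    · rw [← h1]; exact hq
  have h1 : (ρ s - 1) ^ p ^ e = ρ s ^ p ^ e - 1 := by
    rw [sub_pow_char_pow_of_commute _ _ (Commute.one_right (ρ s)), one_pow]
  have h2 : ((ρ s - 1) ^ p ^ e) v = 0 := by
    rw [h1]
    have h3 : (ρ s ^ p ^ e) v = v := by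
      rw [← map_pow]; exact hv
    show (ρ s ^ p ^ e) v - v = 0
    rw [h3, sub_self]
  have h4 : ∀ k : ℕ, ∀ w : V, ((ρ s - 1) ^ k) w = 0 → w = 0 := by
    intro k
    induction k with
    | zero => intro w hw; simpa using hw
    | succ k ih =>
      intro w hw
      apply h w
      have h5 : ((ρ s - 1) ^ k) ((ρ s - 1) w) = 0 := by
        rw [pow_succ] at hw
        exact hw
      have h6 := ih _ h5
      have h7 : ρ s w - w = 0 := h6
      exact sub_eq_zero.1 h7
  exact hv0 (h4 _ v h2)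
-- END free_pow

-- BEGIN sgn
/-- PROOF. For a transposition `t` and all `v`: `v + ρ t v` is fixed by `t`, so it is `0`. Then `Equiv.Perm.swap_induction_on`. -/
theorem sgn {n : ℕ} (ρ : Equiv.Perm (Fin n) →* AddMonoid.End V)
    (h : ∀ a b : Fin n, a ≠ b → Free ρ (Equiv.swap a b)) (σ : Equiv.Perm (Fin n)) (v : V) :
    ρ σ v = ((Equiv.Perm.sign σ : ℤˣ) : ℤ) • v := by
  have hs : ∀ a b : Fin n, a ≠ b → ∀ v : V, ρ (Equiv.swap a b) v = -v := by
    intro a b hab v
    have h1 : ρ (Equiv.swap a b) (v + ρ (Equiv.swap a b) v) = v + ρ (Equiv.swap a b) v := by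
      have h2 : ρ (Equiv.swap a b) (ρ (Equiv.swap a b) v) = v := by
        have h3 : (ρ (Equiv.swap a b) * ρ (Equiv.swap a b)) v = ρ (Equiv.swap a b) (ρ (Equiv.swap a b) v) := rfl
        rw [← h3, ← map_mul, Equiv.swap_mul_self, map_one]
        rfl
      rw [map_add, h2, add_comm]
    have h4 := h a b hab _ h1
    exact (neg_eq_of_add_eq_zero_right h4).symm
  induction σ using Equiv.Perm.swap_induction_on with
  | one => simp
  | swap_mul f x y hxy ih =>
    have h5 : ρ (Equiv.swap x y * f) v = ρ (Equiv.swap x y) (ρ f v) := by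
      rw [map_mul]; rfl
    rw [h5, ih, hs x y hxy, Equiv.Perm.sign_mul, Equiv.Perm.sign_swap hxy]
    simp
-- END sgn

end Pool.Agent.NbS
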