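import Pool.Agent.NbS.Fin

/-!
# Arbitrary normal subgroups whose order is not pseudoperfect
-/

set_option autoImplicit false

namespace Pool.Agent.NbS

-- BEGIN psd
/-- The action of a normal subgroup `P` by conjugation on the coset `x P`. -/
@[instance_reducible] private def psd_act {G : Type*} [Group G] (P : Subgroup G) [P.Normal] (x : G) : MulAction P {w : G // x⁻¹ * w ∈ P} where
  smul a w := ⟨(a : G) * w.1 * (a : G)⁻¹, by
    have h1 : x⁻¹ * (a : G) * x ∈ P := by
      have := ‹P.Normal›.conj_mem (a : G) a.2 x⁻¹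
      simpa using this
    have h2 := P.mul_mem (P.mul_mem h1 w.2) (P.inv_mem a.2)
    have e : x⁻¹ * (a : G) * x * (x⁻¹ * w.1) * (a : G)⁻¹ = x⁻¹ * ((a : G) * w.1 * (a : G)⁻¹) := by group
    rw [e] at h2
    exact h2⟩
  one_smul w := by
    apply Subtype.ext
    show ((1 : P) : G) * w.1 * ((1 : P) : G)⁻¹ = w.1
    simp
  mul_smul a b w := by
    apply Subtype.ext
    show ((a * b : P) : G) * w.1 * ((a * b : P) : G)⁻¹ = (a : G) * ((b : G) * w.1 * (b : G)⁻¹) * (a : G)⁻¹
    rw [Subgroup.coe_mul]
    group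

/-- PROOF. `N = ker π` acts by conjugation on the coset `x N` (on `{w // π w = π x}`). Two orbits of the same size are equal: if `y, y'` in the coset have `|C_N(y)| = |C_N(y')|` then
`|C_G(y)| = |C_G(y')|` (`card_cent`, `im_cent` with `r = 1`), so `y' = g y g⁻¹` (`ah_conj`), `π g` centralizes `π y = π x`, whose centralizer is `zpowers (π x)` (same order), so
`g = n y ^ k` with `n ∈ N` and `y' = n y n⁻¹`. So the orbit sizes are distinct divisors of `|N|` with the sum `|N|`. If no orbit has size `|N|` this set of divisors shows that `|N|` is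
pseudoperfect. So the coset is one orbit and all stabilizers are trivial. -/
theorem psd {G H : Type*} [Group G] [Finite G] [Group H] [Finite H] (hG : Ah G) (π : G →* H) (x : G)
    (hx : Nat.card (Subgroup.centralizer {π x}) = orderOf (π x)) (hN : ¬ Nat.Pseudoperfect (Nat.card π.ker)) :
    ∀ v ∈ π.ker, x * v = v * x → v = 1 := by
  classical
  letI act := psd_act π.ker x
  have hsm : ∀ (a : π.ker) (w : {w : G // x⁻¹ * w ∈ π.ker}), (a • w).1 = (a : G) * w.1 * (a : G)⁻¹ := fun _ _ => rfl
  have hπ : ∀ w : {w : G // x⁻¹ * w ∈ π.ker}, π w.1 = π x := by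
    intro w
    have h := w.2
    rw [MonoidHom.mem_ker, map_mul, map_inv, inv_mul_eq_one] at h
    exact h.symm
  have hcard : Nat.card {w : G // x⁻¹ * w ∈ π.ker} = Nat.card π.ker := by
    refine Nat.card_congr
      { toFun := fun w => ⟨x⁻¹ * w.1, w.2⟩
        invFun := fun v => ⟨x * v.1, by rw [inv_mul_cancel_left]; exact v.2⟩
        left_inv := fun w => Subtype.ext (by simp)
        right_inv := fun v => Subtype.ext (by simp) }
  -- stabilizers and centralizers
  have hst : ∀ w : {w : G // x⁻¹ * w ∈ π.ker},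
      Nat.card (Subgroup.centralizer {w.1} ⊓ π.ker : Subgroup G) = Nat.card (MulAction.stabilizer π.ker w) := by
    intro w
    refine Nat.card_congr
      { toFun := fun g => ⟨⟨g.1, g.2.2⟩, by
          rw [MulAction.mem_stabilizer_iff]
          apply Subtype.ext
          rw [hsm]
          show g.1 * w.1 * g.1⁻¹ = w.1
          have hg := (Subgroup.mem_centralizer_singleton_iff).1 g.2.1
          rw [hg, mul_assoc, mul_inv_cancel, mul_one]⟩
        invFun := fun g => ⟨(g.1 : G), by
          refine ⟨?_, g.1.2⟩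
          have hg := g.2
          rw [MulAction.mem_stabilizer_iff] at hg
          have h2 := congrArg Subtype.val hg
          rw [hsm] at h2
          rw [mul_inv_eq_iff_eq_mul] at h2
          exact (Subgroup.mem_centralizer_singleton_iff).2 h2⟩
        left_inv := fun g => rfl
        right_inv := fun g => rfl }
  have hmul : ∀ w : {w : G // x⁻¹ * w ∈ π.ker},
      Nat.card (MulAction.orbit π.ker w) * Nat.card (MulAction.stabilizer π.ker w) = Nat.card π.ker := by
    intro w
    rw [← Nat.card_congr (MulAction.orbitProdStabilizerEquivGroup π.ker w), Nat.card_prod]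
  have hNpos : 0 < Nat.card π.ker := Nat.card_pos
  -- the centralizer of `π x`
  have hcz : Subgroup.centralizer {π x} = Subgroup.zpowers (π x) := by
    symm
    apply Subgroup.eq_of_le_of_card_ge
    · rw [Subgroup.zpowers_le]
      exact Subgroup.mem_centralizer_singleton_iff.2 rfl
    · rw [hx, Nat.card_zpowers]
  -- two orbits of the same size are equal
  have hsame : ∀ w w' : {w : G // x⁻¹ * w ∈ π.ker},
      Nat.card (MulAction.orbit π.ker w) = Nat.card (MulAction.orbit π.ker w') →
      w' ∈ MulAction.orbit π.ker w := by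
    intro w w' hww
    have h1 := hmul w
    have h2 := hmul w'
    rw [hww] at h1
    have hop : 0 < Nat.card (MulAction.orbit π.ker w') := by
      rcases Nat.eq_zero_or_pos (Nat.card (MulAction.orbit π.ker w')) with h | h
      · rw [h, zero_mul] at h2; omega
      · exact h
    have h3 : Nat.card (MulAction.stabilizer π.ker w) = Nat.card (MulAction.stabilizer π.ker w') :=
      Nat.eq_of_mul_eq_mul_left hop (h1.trans h2.symm)
    have hC : ∀ y : {w : G // x⁻¹ * w ∈ π.ker}, Nat.card (Subgroup.centralizer {y.1}) =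
        Nat.card (MulAction.stabilizer π.ker y) * orderOf (π x) := by
      intro y
      rw [card_cent π y.1, hst y]
      have h4 := im_cent π (r := 1) (Or.inl rfl) y.1 (by rw [hπ y, hx, one_mul])
      rw [hπ y] at h4
      rcases h4 with h4 | ⟨h4, -⟩
      · rw [h4]
      · omega
    have h5 : Nat.card (Subgroup.centralizer {w.1}) = Nat.card (Subgroup.centralizer {w'.1}) := by
      rw [hC, hC, h3]
    obtain ⟨g, hg⟩ := isConj_iff.1 (ah_conj hG w.1 w'.1 h5)
    have h6 : π g ∈ Subgroup.centralizer {π x} := by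
      rw [Subgroup.mem_centralizer_singleton_iff]
      have h7 := congrArg π hg
      rw [map_mul, map_mul, map_inv, hπ w, hπ w', mul_inv_eq_iff_eq_mul] at h7
      exact h7
    rw [hcz, Subgroup.mem_zpowers_iff] at h6
    obtain ⟨k, hk⟩ := h6
    have h8 : g * (w.1 ^ k)⁻¹ ∈ π.ker := by
      rw [MonoidHom.mem_ker, map_mul, map_inv, map_zpow, hπ w, hk, mul_inv_cancel]
    refine ⟨⟨g * (w.1 ^ k)⁻¹, h8⟩, ?_⟩
    apply Subtype.ext
    show (g * (w.1 ^ k)⁻¹) * w.1 * (g * (w.1 ^ k)⁻¹)⁻¹ = w'.1
    rw [← hg]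
    have h9 : (w.1 ^ k)⁻¹ * w.1 * w.1 ^ k = w.1 := by
      rw [← zpow_neg, ← zpow_add_one, ← zpow_add]
      have : (-k + 1 + k) = 1 := by ring
      rw [this, zpow_one]
    calc (g * (w.1 ^ k)⁻¹) * w.1 * (g * (w.1 ^ k)⁻¹)⁻¹ = g * ((w.1 ^ k)⁻¹ * w.1 * w.1 ^ k) * g⁻¹ := by group
      _ = g * w.1 * g⁻¹ := by rw [h9]
  -- some orbit is everything
  haveI : Finite (MulAction.orbitRel.Quotient π.ker {w : G // x⁻¹ * w ∈ π.ker}) := Quotient.finite _
  haveI : Fintype (MulAction.orbitRel.Quotient π.ker {w : G // x⁻¹ * w ∈ π.ker}) := Fintype.ofFinite _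
  have hsum : ∑ q : MulAction.orbitRel.Quotient π.ker {w : G // x⁻¹ * w ∈ π.ker},
      Nat.card (MulAction.orbit π.ker q.out) = Nat.card π.ker := by
    rw [← hcard, Nat.card_congr (MulAction.selfEquivSigmaOrbits π.ker {w : G // x⁻¹ * w ∈ π.ker}), Nat.card_sigma]
  have hex : ∃ q : MulAction.orbitRel.Quotient π.ker {w : G // x⁻¹ * w ∈ π.ker},
      Nat.card (MulAction.orbit π.ker q.out) = Nat.card π.ker := by
    by_contra hcon
    push Not at hcon
    apply hN
    refine ⟨hNpos, Finset.univ.image (fun q : MulAction.orbitRel.Quotient π.ker {w : G // x⁻¹ * w ∈ π.ker} =>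
      Nat.card (MulAction.orbit π.ker q.out)), ?_, ?_⟩
    · intro s hs
      rw [Finset.mem_image] at hs
      obtain ⟨q, -, rfl⟩ := hs
      rw [Nat.mem_properDivisors]
      have hd : Nat.card (MulAction.orbit π.ker q.out) ∣ Nat.card π.ker := ⟨_, (hmul q.out).symm⟩
      exact ⟨hd, lt_of_le_of_ne (Nat.le_of_dvd hNpos hd) (hcon q)⟩
    · rw [Finset.sum_image, hsum]
      intro q _ q' _ hqq
      have h1 := hsame q.out q'.out hqq
      have h2 : (Quotient.mk (MulAction.orbitRel π.ker {w : G // x⁻¹ * w ∈ π.ker}) q'.out) =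
          Quotient.mk (MulAction.orbitRel π.ker {w : G // x⁻¹ * w ∈ π.ker}) q.out :=
        Quotient.sound ((MulAction.orbitRel_apply).mpr h1)
      exact ((Quotient.out_eq q').symm.trans (h2.trans (Quotient.out_eq q))).symm
  obtain ⟨q, hq⟩ := hex
  have hall : MulAction.orbit π.ker q.out = Set.univ := by
    apply (Set.eq_univ_iff_ncard _).2
    rw [hcard]
    exact hq
  intro v hv hxv
  have hxm : x⁻¹ * x ∈ π.ker := by rw [inv_mul_cancel]; exact π.ker.one_mem
  have h1 : (⟨x, hxm⟩ : {w : G // x⁻¹ * w ∈ π.ker}) ∈ MulAction.orbit π.ker q.out := by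
    rw [hall]; trivial
  have h2 : MulAction.orbit π.ker (⟨x, hxm⟩ : {w : G // x⁻¹ * w ∈ π.ker}) = MulAction.orbit π.ker q.out :=
    MulAction.orbit_eq_iff.2 h1
  have h3 := hmul ⟨x, hxm⟩
  rw [h2, hq] at h3
  have h4 : Nat.card (MulAction.stabilizer π.ker (⟨x, hxm⟩ : {w : G // x⁻¹ * w ∈ π.ker})) = 1 :=
    Nat.eq_of_mul_eq_mul_left hNpos (by rw [h3, mul_one])
  have h5 := Subgroup.card_eq_one.mp h4
  have h6 : (⟨v, hv⟩ : π.ker) ∈ MulAction.stabilizer π.ker (⟨x, hxm⟩ : {w : G // x⁻¹ * w ∈ π.ker}) := by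
    rw [MulAction.mem_stabilizer_iff]
    apply Subtype.ext
    show v * x * v⁻¹ = x
    rw [← hxv, mul_assoc, mul_inv_cancel, mul_one]
  rw [h5, Subgroup.mem_bot] at h6
  exact congrArg Subtype.val h6
-- END psd

/-- Elements over self-centralizing elements of the same order are conjugate. -/
theorem selfc' {G : Type*} [Group G] [Finite G] (hG : Ah G) (N : Subgroup G) [N.Normal]
    (hN : Group.IsNilpotent N ∨ ¬ Nat.Pseudoperfect (Nat.card N)) (s t : G ⧸ N)
    (hs : Subgroup.centralizer {s} = Subgroup.zpowers s) (ht : Subgroup.centralizer {t} = Subgroup.zpowers t)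
    (h : orderOf s = orderOf t) : IsConj s t := by
  rcases hN with hN | hN
  · exact selfc hG N s t hs ht h
  · obtain ⟨x, rfl⟩ := QuotientGroup.mk'_surjective N s
    obtain ⟨y, rfl⟩ := QuotientGroup.mk'_surjective N t
    have hπ := QuotientGroup.mk'_surjective N
    have hx : Nat.card (Subgroup.centralizer {QuotientGroup.mk' N x}) = orderOf (QuotientGroup.mk' N x) := by
      rw [hs, Nat.card_zpowers]
    have hy : Nat.card (Subgroup.centralizer {QuotientGroup.mk' N y}) = orderOf (QuotientGroup.mk' N y) := by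
      rw [ht, Nat.card_zpowers]
    have hk : ¬ Nat.Pseudoperfect (Nat.card (QuotientGroup.mk' N).ker) := by
      rw [QuotientGroup.ker_mk']
      exact hN
    have fx := full (QuotientGroup.mk' N) hπ x (psd hG (QuotientGroup.mk' N) x hx hk)
    have fy := full (QuotientGroup.mk' N) hπ y (psd hG (QuotientGroup.mk' N) y hy hk)
    have := ah_conj hG x y (by rw [fx, fy, hx, hy, h])
    exact (QuotientGroup.mk' N).map_isConj this

/-- The symmetric groups as quotients, `N` arbitrary with an order which is not pseudoperfect. -/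
theorem no_sym {G : Type*} [Group G] [Finite G] (hG : Ah G) (N : Subgroup G) [N.Normal]
    (hN : ¬ Nat.Pseudoperfect (Nat.card N)) (n : ℕ) (h6 : 6 ≤ n)
    (hn : n ∉ [7, 8, 9, 10, 12, 14, 15, 16, 20, 21, 27, 33]) : IsEmpty (G ⧸ N ≃* Equiv.Perm (Fin n)) := by
  refine ⟨fun e => ?_⟩
  have hL : n ∉ L := by
    intro h
    simp only [L, List.mem_cons, List.not_mem_nil, or_false] at h hn
    omega
  obtain ⟨f₁, f₂, l₁, l₂, hf₁, hf₂, h₁, h₂, he, hne⟩ := numA h6 hL
  have key : ∀ (f : ℕ) (l : List ℕ), f ≤ 1 → Cp n f l → ∃ σ : Equiv.Perm (Fin n), σ.cycleType = (l : Multiset ℕ) ∧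
      Subgroup.centralizer {σ} = Subgroup.zpowers σ ∧ orderOf σ = f.factorial * l.prod := by
    intro f l hf hl
    obtain ⟨σ, hσ⟩ : ∃ σ : Equiv.Perm (Fin n), σ.cycleType = (l : Multiset ℕ) := by
      refine (Equiv.Perm.exists_with_cycleType_iff (Fin n)).2 ⟨?_, fun a ha => hl.two a (by simpa using ha)⟩
      have := hl.sum
      simp only [Fintype.card_fin, Multiset.sum_coe]
      omega
    obtain ⟨hc, ho⟩ := cent_cp hl hσ
    have hf1 : f.factorial = 1 := by interval_cases f <;> decide
    refine ⟨σ, hσ, ?_, by rw [ho, hf1, one_mul]⟩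
    symm
    refine Subgroup.eq_of_le_of_card_ge ?_ ?_
    · rw [Subgroup.zpowers_le]
      rw [Subgroup.mem_centralizer_singleton_iff]
    · rw [Nat.card_zpowers, hc, ho, hf1, one_mul]
  obtain ⟨σ, hσ, hcσ, hoσ⟩ := key f₁ l₁ hf₁ h₁
  obtain ⟨τ, hτ, hcτ, hoτ⟩ := key f₂ l₂ hf₂ h₂
  have tr : ∀ σ : Equiv.Perm (Fin n), Subgroup.centralizer {σ} = Subgroup.zpowers σ →
      Subgroup.centralizer {e.symm σ} = Subgroup.zpowers (e.symm σ) := by
    intro σ h
    ext g
    rw [Subgroup.mem_centralizer_singleton_iff, Subgroup.mem_zpowers_iff]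
    have h1 : e g ∈ Subgroup.centralizer {σ} ↔ e g ∈ Subgroup.zpowers σ := by rw [h]
    rw [Subgroup.mem_centralizer_singleton_iff, Subgroup.mem_zpowers_iff] at h1
    constructor
    · intro h2
      have h3 : σ * e g = e g * σ ∨ e g * σ = σ * e g := by
        right
        have := congrArg e h2
        simp only [map_mul, MulEquiv.apply_symm_apply] at this
        first
          | exact this
          | exact this.symm
      have h4 : ∃ k : ℤ, σ ^ k = e g := by
        rcases h3 with h3 | h3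
        · exact h1.1 (by first | exact h3 | exact h3.symm)
        · exact h1.1 (by first | exact h3 | exact h3.symm)
      obtain ⟨k, hk⟩ := h4
      exact ⟨k, by rw [← map_zpow, hk, MulEquiv.symm_apply_apply]⟩
    · rintro ⟨k, rfl⟩
      exact (Commute.zpow_self (e.symm σ) k).eq
  have := selfc' hG N (Or.inr hN) (e.symm σ) (e.symm τ) (tr σ hcσ) (tr τ hcτ)
    (by rw [MulEquiv.orderOf_eq, MulEquiv.orderOf_eq, hoσ, hoτ, he])
  have h2 := e.toMonoidHom.map_isConj this
  have h3 : IsConj σ τ := by simpa using h2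
  exact hne (by rw [← hσ, ← hτ]; exact Equiv.Perm.isConj_iff_cycleType_eq.1 h3)

end Pool.Agent.NbS
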